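import Pool.Agent.LibBR73.AN9
import Pool.Agent.LibBR70.PX8

/-! Row AN10: the lower terms, and the counting of the classes. -/

open MeasureTheory Set Filter Topology
open scoped ContDiff

namespace BR

open BGS

variable {Γ : Type} [Group Γ] [MulAction Γ Pl] {D : Set Pl}

/-- The nontrivial deck transformations that move some point of `closure D` by at most `ρ`. -/
def Sh (Γ : Type) [Group Γ] [MulAction Γ Pl] (D : Set Pl) (m : Pl → Co) (ρ : ℝ) : Set Γ :=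
  {γ | γ ≠ 1 ∧ ∃ x ∈ closure D, ds m x (γ • x) ≤ ρ}

/-- The integral of the kernel for one element of the group. -/
noncomputable def IK {Γ : Type} [Group Γ] [MulAction Γ Pl] (D : Set Pl) (m : Pl → Co)
    (q : ℝ → ℝ) (γ : Γ) : ℝ :=
  ∫ x in D, KK (Gx m x) 5 q (Vx m x (γ • x)) * √(dt (m x))

theorem Sh_fin (hX : Surface Γ D) (hO : Ori Γ) {m : Pl → Co} (hm : HM Γ m) :
    ∃ C : ℝ, ∀ ρ : ℝ, 0 ≤ ρ → (Sh Γ D m ρ).Finite ∧
      ((Sh Γ D m ρ).ncard : ℝ) ≤ C * Real.exp (C * ρ) := by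
  obtain ⟨C, hC⟩ := count_deck hX hO hm
  refine ⟨C, fun ρ hρ => ?_⟩
  obtain ⟨h1, h2⟩ := hC ρ hρ
  have hsub : Sh Γ D m ρ ⊆
      {γ : Γ | ∃ x ∈ closure D, ∃ y ∈ closure D, eu (Vx m x (γ • y)) ≤ ρ} := by
    rintro γ ⟨-, x, hx, h⟩
    exact ⟨x, hx, x, hx, h⟩
  exact ⟨h1.subset hsub, (Nat.cast_le.2 (Set.ncard_le_ncard hsub h1)).trans h2⟩

theorem AN10_sg (v : Pl) : sg v = eu v ^ 2 := by
  unfold sg eu
  rw [Real.sq_sqrt (by positivity)]

theorem AN10_norm_le (v : Pl) : ‖v‖ ≤ eu v := by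
  unfold eu
  rw [Prod.norm_def]
  refine max_le ?_ ?_
  · apply Real.le_sqrt_of_sq_le
    rw [Real.norm_eq_abs, sq_abs]
    nlinarith [sq_nonneg v.2]
  · apply Real.le_sqrt_of_sq_le
    rw [Real.norm_eq_abs, sq_abs]
    nlinarith [sq_nonneg v.1]

theorem AN10_pos (hX : Surface Γ D) (hO : Ori Γ) {m : Pl → Co} (hm : HM Γ m) {γ : Γ}
    (hγ : γ ≠ 1) (x : Pl) : 0 < sg (Vx m x (γ • x)) := by
  obtain ⟨c, hc, h⟩ := displ_pos hX hO hm
  rw [AN10_sg]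
  exact pow_pos (lt_of_lt_of_le hc (h γ hγ x)) 2

theorem AN10_V (hX : Surface Γ D) {m : Pl → Co} (hm : HM Γ m) (γ : Γ) :
    Continuous (fun x => Vx m x (γ • x)) :=
  (Vx_smooth hX hm).continuous.comp (continuous_id.prodMk (hX.smooth γ).continuous)

theorem AN10_dt {m : Pl → Co} (hm : HM Γ m) : Continuous (fun x => √(dt (m x))) := by
  have h := hm.smooth.continuous
  unfold dt
  fun_prop

theorem AN10_term_cont (hX : Surface Γ D) (hO : Ori Γ) {m : Pl → Co} (hm : HM Γ m) {q : ℝ → ℝ}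
    {ρ : ℝ} (hρ : 0 ≤ ρ) (hq : Tl q ρ) {γ : Γ} (hγ : γ ≠ 1) (j : ℕ) :
    Continuous (fun x => UU (Gx m x) j (Vx m x (γ • x)) * Ab j q (sg (Vx m x (γ • x)))) := by
  refine Continuous.mul ?_ ?_
  · exact (RB_UU (Fam_Gx hX hO hm) j).1.continuous.comp (continuous_id.prodMk (AN10_V hX hm γ))
  · have h1 : Continuous (fun x => sg (Vx m x (γ • x))) := by
      have h2 := AN10_V hX hm γ
      unfold sg
      fun_prop
    exact (Ab_contDiffOn hρ hq j).continuousOn.comp_continuous h1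
      fun x => AN10_pos hX hO hm hγ x

theorem AN10_intOn (hX : Surface Γ D) {f : Pl → ℝ} (hf : Continuous f) : IntegrableOn f D :=
  (hf.continuousOn.integrableOn_compact hX.bdd.isCompact_closure).mono_set subset_closure

theorem KK_int (hX : Surface Γ D) (hO : Ori Γ) (m : Mt Γ D) {q : ℝ → ℝ} {ρ : ℝ} (hρ : 0 ≤ ρ)
    (hq : Tl q ρ) {γ : Γ} (hγ : γ ≠ 1) :
    IntegrableOn (fun x => KK (Gx m.1.1 x) 5 q (Vx m.1.1 x (γ • x)) * √(dt (m.1.1 x))) D ∧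
      IntegrableOn (fun x => f0 m.1.1 q γ x * √(dt (m.1.1 x))) D := by
  have hm := hm_of_Mt m
  refine ⟨AN10_intOn hX (Continuous.mul ?_ (AN10_dt hm)),
    AN10_intOn hX ((f0_cont hX hO hm hρ hq hγ).mul (AN10_dt hm))⟩
  unfold KK
  exact continuous_finset_sum _ fun j _ => AN10_term_cont hX hO hm hρ hq hγ j

theorem KK_supp (hX : Surface Γ D) (hO : Ori Γ) (m : Mt Γ D) {q : ℝ → ℝ} {ρ : ℝ} (hρ : 0 ≤ ρ)
    (hq : Tl q ρ) {γ : Γ} (hγ : γ ≠ 1) (h : γ ∉ Sh Γ D m.1.1 ρ) : IK D m.1.1 q γ = 0 := by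
  have hm := hm_of_Mt m
  refine setIntegral_eq_zero_of_forall_eq_zero fun x hx => ?_
  have h1 : ρ < ds m.1.1 x (γ • x) := by
    by_contra hcon
    exact h ⟨hγ, x, subset_closure hx, not_lt.1 hcon⟩
  have h2 : ρ ^ 2 < sg (Vx m.1.1 x (γ • x)) := by
    rw [AN10_sg]
    exact pow_lt_pow_left₀ h1 hρ two_ne_zero
  unfold KK
  rw [Finset.sum_eq_zero fun j _ => by
    rw [Ab_supp hρ hq j (AN10_pos hX hO hm hγ x) h2, mul_zero], zero_mul]

theorem AN10_Tl {a : ℝ → ℂ} {ρ M : ℝ} (hρ : 0 ≤ ρ) (ha : Amp a ρ M) (τ : ℝ) :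
    Tl (osc a τ) ρ := by
  refine ⟨osc_smooth ha τ, fun t ht => ?_⟩
  unfold osc
  rw [ha.supp t (lt_of_lt_of_le ht (le_abs_self t)), mul_zero]
  rfl

theorem AN10_M {a : ℝ → ℂ} {ρ M : ℝ} (ha : Amp a ρ M) : 0 ≤ M :=
  (norm_nonneg _).trans (ha.bound 0 (by norm_num) 0)

theorem AN10_term (hX : Surface Γ D) (hO : Ori Γ) {m : Pl → Co} (hm : HM Γ m) (j : ℕ) :
    ∃ P Q : ℝ, 0 ≤ P ∧ 0 ≤ Q ∧ ∀ (a : ℝ → ℂ) (ρ M τ : ℝ), 0 ≤ ρ → Amp a ρ M → 1 ≤ τ →
      ∀ γ : Γ, γ ≠ 1 → ∀ x ∈ closure D,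
      |UU (Gx m x) (j + 1) (Vx m x (γ • x)) * Ab (j + 1) (osc a τ) (sg (Vx m x (γ • x)))| ≤
        P * Real.exp (Q * ρ) * (M / √τ) := by
  obtain ⟨C, hC⟩ := (RB_UU (Fam_Gx hX hO hm) (j + 1)).2 0
  obtain ⟨A, hA⟩ := Ab_osc (j := j + 1) (by omega)
  refine ⟨|C| * |A|, |C| + 2 * ((j : ℝ) + 1), by positivity, by positivity, ?_⟩
  intro a ρ M τ hρ ha hτ γ hγ x hx
  have hM := AN10_M ha
  have hτ0 : 0 < √τ := Real.sqrt_pos.2 (by linarith)
  obtain ⟨v, hv⟩ : ∃ v, v = Vx m x (γ • x) := ⟨_, rfl⟩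
  have hpos := AN10_pos hX hO hm hγ x
  rw [← hv] at hpos ⊢
  rcases lt_or_ge (ρ ^ 2) (sg v) with h | h
  · rw [Ab_supp hρ (AN10_Tl hρ ha τ) (j + 1) hpos h, mul_zero, abs_zero]
    positivity
  · have h1 : eu v ≤ ρ := by
      rw [AN10_sg] at h
      exact (pow_le_pow_iff_left₀ (Real.sqrt_nonneg _) hρ two_ne_zero).1 h
    have h2 : ‖v‖ ≤ ρ := (AN10_norm_le v).trans h1
    have h3 : |UU (Gx m x) (j + 1) v| ≤ |C| * Real.exp (|C| * ρ) := by
      have h4 := hC x hx v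
      rw [norm_iteratedFDeriv_zero] at h4
      have h5 : ‖UU (fun v => mE m (x, v)) (j + 1) v‖ ≤ C * Real.exp (C * ‖v‖) := h4
      have h6 : C * Real.exp (C * ‖v‖) ≤ |C| * Real.exp (|C| * ρ) := by
        have h7 : C * ‖v‖ ≤ |C| * ρ :=
          (mul_le_mul_of_nonneg_right (le_abs_self C) (norm_nonneg v)).trans
            (mul_le_mul_of_nonneg_left h2 (abs_nonneg C))
        exact (mul_le_mul_of_nonneg_right (le_abs_self C) (Real.exp_pos _).le).trans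
          (mul_le_mul_of_nonneg_left (Real.exp_le_exp.2 h7) (abs_nonneg C))
      exact h5.trans h6
    have h4 : |Ab (j + 1) (osc a τ) (sg v)| ≤
        |A| * (M / √τ) * Real.exp (2 * ((j : ℝ) + 1) * ρ) := by
      have h5 := hA a ρ M τ (sg v) hρ ha hτ hpos.le
      have h6 : (ρ + 1) ^ (2 * (j + 1)) ≤ Real.exp (2 * ((j : ℝ) + 1) * ρ) := by
        have h7 : ρ + 1 ≤ Real.exp ρ := Real.add_one_le_exp ρ
        refine (pow_le_pow_left₀ (by linarith) h7 _).trans_eq ?_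
        rw [← Real.exp_nat_mul]
        congr 1
        push_cast
        ring
      refine h5.trans ?_
      have h8 : A * M * (ρ + 1) ^ (2 * (j + 1)) / √τ =
          A * (M / √τ) * (ρ + 1) ^ (2 * (j + 1)) := by ring
      rw [h8]
      have h9 : 0 ≤ M / √τ := by positivity
      have h10 : A * (M / √τ) ≤ |A| * (M / √τ) :=
        mul_le_mul_of_nonneg_right (le_abs_self A) h9
      exact mul_le_mul h10 h6 (by positivity) (by positivity)
    rw [abs_mul]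
    refine (mul_le_mul h3 h4 (abs_nonneg _) (by positivity)).trans_eq ?_
    rw [add_mul |C|, Real.exp_add]
    ring

theorem low_terms (hX : Surface Γ D) (hO : Ori Γ) (m : Mt Γ D) :
    ∃ C : ℝ, ∀ (a : ℝ → ℂ) (ρ M τ : ℝ), 0 ≤ ρ → Amp a ρ M → 1 ≤ τ → ∀ γ : Γ, γ ≠ 1 →
      |IK D m.1.1 (osc a τ) γ - ∫ x in D, f0 m.1.1 (osc a τ) γ x * √(dt (m.1.1 x))| ≤
        C * Real.exp (C * ρ) * M / √τ := by
  have hm := hm_of_Mt m
  choose P Q hP hQ hPQ using fun j => AN10_term hX hO hm j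
  obtain ⟨C, hC⟩ : ∃ C, C = ∑ j ∈ Finset.range 5, (P j + Q j) := ⟨_, rfl⟩
  have hC0 : 0 ≤ C := by
    rw [hC]
    exact Finset.sum_nonneg fun j _ => add_nonneg (hP j) (hQ j)
  refine ⟨C, fun a ρ M τ hρ ha hτ γ hγ => ?_⟩
  have hM := AN10_M ha
  have hτ0 : 0 < √τ := Real.sqrt_pos.2 (by linarith)
  have hMτ : 0 ≤ M / √τ := by positivity
  have hT := AN10_Tl hρ ha τ
  obtain ⟨i1, i2⟩ := KK_int hX hO m hρ hT hγ
  have hB : ∀ x ∈ closure D, |KK (Gx m.1.1 x) 5 (osc a τ) (Vx m.1.1 x (γ • x)) -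
      f0 m.1.1 (osc a τ) γ x| ≤ C * Real.exp (C * ρ) * (M / √τ) := by
    intro x hx
    have e1 : KK (Gx m.1.1 x) 5 (osc a τ) (Vx m.1.1 x (γ • x)) - f0 m.1.1 (osc a τ) γ x =
        ∑ j ∈ Finset.range 5, UU (Gx m.1.1 x) (j + 1) (Vx m.1.1 x (γ • x)) *
          Ab (j + 1) (osc a τ) (sg (Vx m.1.1 x (γ • x))) := by
      have e2 : f0 m.1.1 (osc a τ) γ x = UU (Gx m.1.1 x) 0 (Vx m.1.1 x (γ • x)) *
          Ab 0 (osc a τ) (sg (Vx m.1.1 x (γ • x))) := by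
        rw [AN10_sg]
        rfl
      rw [e2]
      unfold KK
      rw [Finset.sum_range_succ']
      ring
    rw [e1]
    refine (Finset.abs_sum_le_sum_abs _ _).trans ?_
    have e3 : ∀ j ∈ Finset.range 5, |UU (Gx m.1.1 x) (j + 1) (Vx m.1.1 x (γ • x)) *
        Ab (j + 1) (osc a τ) (sg (Vx m.1.1 x (γ • x)))| ≤
        (P j + Q j) * Real.exp (C * ρ) * (M / √τ) := by
      intro j hj
      have h1 : P j + Q j ≤ C := by
        rw [hC]
        exact Finset.single_le_sum (f := fun j => P j + Q j)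
          (fun i _ => add_nonneg (hP i) (hQ i)) hj
      have h2 : Real.exp (Q j * ρ) ≤ Real.exp (C * ρ) :=
        Real.exp_le_exp.2 (mul_le_mul_of_nonneg_right (by linarith [hP j]) hρ)
      refine (hPQ j a ρ M τ hρ ha hτ γ hγ x hx).trans ?_
      refine mul_le_mul_of_nonneg_right ?_ hMτ
      exact mul_le_mul (by linarith [hQ j]) h2 (Real.exp_pos _).le
        (add_nonneg (hP j) (hQ j))
    refine (Finset.sum_le_sum e3).trans_eq ?_
    rw [← Finset.sum_mul, ← Finset.sum_mul, ← hC]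
  unfold IK
  rw [← integral_sub i1 i2]
  have harea : ∫ x in D, √(dt (m.1.1 x)) = 1 := m.2.area
  have hsq : ∀ x, 0 ≤ √(dt (m.1.1 x)) := fun x => Real.sqrt_nonneg _
  have hbound : ∀ x ∈ D, ‖KK (Gx m.1.1 x) 5 (osc a τ) (Vx m.1.1 x (γ • x)) * √(dt (m.1.1 x)) -
      f0 m.1.1 (osc a τ) γ x * √(dt (m.1.1 x))‖ ≤
      C * Real.exp (C * ρ) * (M / √τ) * √(dt (m.1.1 x)) := by
    intro x hx
    rw [← sub_mul, norm_mul, Real.norm_of_nonneg (hsq x)]
    exact mul_le_mul_of_nonneg_right (hB x (subset_closure hx)) (hsq x)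
  have hint : IntegrableOn (fun x => C * Real.exp (C * ρ) * (M / √τ) * √(dt (m.1.1 x))) D :=
    (AN10_intOn hX (AN10_dt hm)).const_mul _
  have h1 := norm_integral_le_of_norm_le (μ := volume.restrict D) hint
    ((ae_restrict_iff' hX.meas).2 (ae_of_all _ hbound))
  rw [integral_const_mul, harea, mul_one] at h1
  rw [← Real.norm_eq_abs]
  refine h1.trans_eq ?_
  ring

end BR
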