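import Pool.Agent.LibBR73.AN10

/-! Row AN11: the closed geodesic part of the trace formula. 45 min.
Plan. `q = osc a τ` satisfies `Tl q ρ` (`osc_smooth`, `Amp.supp`) and `|Ab 1 q σ| ≤ E = C M (ρ + 1) ^ 2 / √τ` (`Ab_osc`).
Let `S` be the finite set `Sh Γ D m ρ` (`Sh_fin`) and `T = S.image ConjClasses.mk`. By `KK_supp` the `tsum` over
`γ ≠ 1` is the sum over `S` (`tsum_eq_sum` after the equivalence with the subtype). `∑ γ ∈ S, IK γ` differs from
`∑ γ ∈ S, ∫ f0 γ` by at most `ncard * C exp (C ρ) M / √τ` (`low_terms`). `∑ γ ∈ S, ∫ f0 γ = ∑ c ∈ T, ∑ γ ∈ S with mk γ = c, ..`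
(`Finset.sum_fiberwise_of_maps_to`); for `c ∈ T` one has `c ≠ 1` (`1 ∉ S`; `ConjClasses.mk γ = 1 ↔ γ = 1`), and
`mk γ = c ↔ IsConj (rep c) γ` (`ConjClasses.mk_eq_mk_iff_isConj`), so `class_sum` gives
`l0 c * q (l c) / √(trM - 2)` up to `C exp (C ρ) E`; `card T ≤ card S ≤ C exp (C ρ)`. Classes `c ≠ 1` outside `T` have
`q (l c) = 0`: otherwise `l c ≤ ρ` (`Amp.supp`), and with `δ = (shf hX (x0 c))⁻¹`, `γ = δ * rep c * δ⁻¹`:
`ds m (δ • x0) (γ • δ • x0) = ds m x0 (rep c • x0) = l c ≤ ρ` (`ds_deck`, `Fd_zero`: `Fd .. 0 = l`, `Ex_zero`), so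
`γ ∈ S`, `mk γ = c`. So the `finsum` is the sum over `T` (`finsum_eq_sum_of_support_subset`). -/

open MeasureTheory Set Filter Topology
open scoped ContDiff

namespace BR

open BGS

variable {Γ : Type} [Group Γ] [MulAction Γ Pl] {D : Set Pl}

/-- Representatives of the conjugacy classes with their axes. -/
structure CD {Γ : Type} [Group Γ] [MulAction Γ Pl] (m : Pl → Co) (rep g0 : ConjClasses Γ → Γ)
    (x0 v0 : ConjClasses Γ → Pl) (l l0 : ConjClasses Γ → ℝ) : Prop where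
  hrep : ∀ c, ConjClasses.mk (rep c) = c
  cls : ∀ c, c ≠ 1 → Cls m (rep c) (g0 c) (x0 c) (v0 c) (l c) (l0 c)

private theorem AN11_exp {C ρ : ℝ} (hρ : 0 ≤ ρ) :
    C * Real.exp (C * ρ) ≤ |C| * Real.exp (|C| * ρ) := by
  have h1 : Real.exp (C * ρ) ≤ Real.exp (|C| * ρ) :=
    Real.exp_le_exp.mpr (mul_le_mul_of_nonneg_right (le_abs_self C) hρ)
  exact mul_le_mul (le_abs_self C) h1 (Real.exp_pos _).le (abs_nonneg C)

omit [MulAction Γ Pl] in
private theorem AN11_mk_one {γ : Γ} (h : ConjClasses.mk γ = 1) : γ = 1 := by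
  rw [ConjClasses.one_eq_mk_one, ConjClasses.mk_eq_mk_iff_isConj] at h
  exact isConj_one_left.mp h

theorem geodesic_part (hX : Surface Γ D) (hO : Ori Γ) (m : Mt Γ D) :
    ∃ C : ℝ, ∀ (rep g0 : ConjClasses Γ → Γ) (x0 v0 : ConjClasses Γ → Pl)
      (l l0 : ConjClasses Γ → ℝ), CD m.1.1 rep g0 x0 v0 l l0 →
      ∀ (a : ℝ → ℂ) (ρ M τ : ℝ), 0 ≤ ρ → Amp a ρ M → 1 ≤ τ →
      |(∑' γ : {γ : Γ // γ ≠ 1}, IK D m.1.1 (osc a τ) γ.1) -
        ∑ᶠ c ∈ {c : ConjClasses Γ | c ≠ 1},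
          l0 c * osc a τ (l c) / √(trM m.1.1 (x0 c) (v0 c) (l c) - 2)| ≤
        C * Real.exp (C * ρ) * M / √τ := by
  classical
  have hm : HM Γ m.1.1 := ⟨m.1.2, m.2.pos, m.2.inv, m.2.neg⟩
  obtain ⟨C1, hC1⟩ := Sh_fin (D := D) hX hO hm
  obtain ⟨C2, hC2⟩ := low_terms hX hO m
  obtain ⟨C3, hC3⟩ := class_sum hX hO m
  obtain ⟨C4, hC4⟩ := Ab_osc (j := 1) le_rfl
  set K : ℝ := |C1| * |C2| + |C1| * |C3| * |C4| + |C1| + |C2| + |C3| + 2 with hK
  refine ⟨K, ?_⟩
  intro rep g0 x0 v0 l l0 hCD a ρ M τ hρ hA hτ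
  set q : ℝ → ℝ := osc a τ with hqd
  have hq : Tl q ρ := by
    refine ⟨osc_smooth hA τ, ?_⟩
    intro t ht
    have h1 : ρ < |t| := lt_of_lt_of_le ht (le_abs_self t)
    simp only [hqd, osc, hA.supp t h1, mul_zero, Complex.zero_re]
  have hM : 0 ≤ M := by
    have := hA.bound 0 (by norm_num) 0
    exact (norm_nonneg _).trans this
  have hτ0 : 0 < √τ := Real.sqrt_pos.mpr (by linarith)
  obtain ⟨hfin, hcard⟩ := hC1 ρ hρ
  set S : Finset Γ := hfin.toFinset with hS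
  have hSmem : ∀ γ, γ ∈ S ↔ γ ∈ Sh Γ D m.1.1 ρ := fun γ => hfin.mem_toFinset
  have hScard : (S.card : ℝ) ≤ C1 * Real.exp (C1 * ρ) := by
    rw [hS, ← Set.ncard_eq_toFinset_card _ hfin]
    exact hcard
  set F : Γ → ℝ := fun γ => ∫ x in D, f0 m.1.1 q γ x * √(dt (m.1.1 x)) with hF
  -- the tsum
  have e1 : (∑' γ : {γ : Γ // γ ≠ 1}, IK D m.1.1 q γ.1) = ∑ γ ∈ S, IK D m.1.1 q γ := by
    have h1 := tsum_subtype {γ : Γ | γ ≠ 1} (fun γ => IK D m.1.1 q γ)
    refine Eq.trans h1 ?_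
    rw [tsum_eq_sum (s := S)]
    · refine Finset.sum_congr rfl fun γ hγ => ?_
      exact Set.indicator_of_mem (s := {γ : Γ | γ ≠ 1}) ((hSmem γ).mp hγ).1 _
    · intro γ hγ
      by_cases h : γ ≠ 1
      · rw [Set.indicator_of_mem (s := {γ : Γ | γ ≠ 1}) h]
        exact KK_supp hX hO m hρ hq h (fun h' => hγ ((hSmem γ).mpr h'))
      · exact Set.indicator_of_notMem (s := {γ : Γ | γ ≠ 1}) (fun h' => h h') _
  -- lower terms
  have e2 : |(∑ γ ∈ S, IK D m.1.1 q γ) - ∑ γ ∈ S, F γ| ≤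
      S.card * (C2 * Real.exp (C2 * ρ) * M / √τ) := by
    rw [← Finset.sum_sub_distrib]
    refine (Finset.abs_sum_le_sum_abs _ _).trans ?_
    rw [← nsmul_eq_mul]
    refine Finset.sum_le_card_nsmul _ _ _ fun γ hγ => ?_
    exact hC2 a ρ M τ hρ hA hτ γ ((hSmem γ).mp hγ).1
  -- classes
  set T : Finset (ConjClasses Γ) := S.image ConjClasses.mk with hT
  have hT1 : ∀ c ∈ T, c ≠ 1 := by
    intro c hc
    rw [hT, Finset.mem_image] at hc
    obtain ⟨γ, hγ, rfl⟩ := hc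
    intro h
    exact ((hSmem γ).mp hγ).1 (AN11_mk_one h)
  set G : ConjClasses Γ → ℝ := fun c =>
    l0 c * q (l c) / √(trM m.1.1 (x0 c) (v0 c) (l c) - 2) with hG
  have e3 : ∑ᶠ c ∈ {c : ConjClasses Γ | c ≠ 1}, G c = ∑ c ∈ T, G c := by
    apply finsum_mem_eq_sum_of_inter_support_eq
    ext c
    constructor
    · rintro ⟨hc1, hc2⟩
      refine ⟨?_, hc2⟩
      have hql : q (l c) ≠ 0 := by
        intro h0
        apply hc2
        simp only [hG, h0, mul_zero, zero_div]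
      have hl : l c ≤ ρ := by
        by_contra hlt
        exact hql (hq.supp _ (not_le.mp hlt))
      have hcl := hCD.cls c hc1
      set δ : Γ := (shf hX (x0 c))⁻¹ with hδ
      have hmem : δ * rep c * δ⁻¹ ∈ S := by
        rw [hSmem]
        refine ⟨?_, δ • x0 c, shf_mem' hX (x0 c), ?_⟩
        · intro h1
          have h2 : rep c = 1 := by
            have h3 : rep c = δ⁻¹ * (δ * rep c * δ⁻¹) * δ := by group
            rw [h3, h1]
            group
          apply hc1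
          rw [← hCD.hrep c, h2]
          rfl
        · have h1 : (δ * rep c * δ⁻¹) • δ • x0 c = δ • rep c • x0 c := by
            simp only [mul_smul, inv_smul_smul]
          rw [h1, (ds_deck hX hO hm δ (x0 c) (rep c • x0 c)).1]
          have h2 := (Fd_zero hX hO hm hcl.axis).1
          unfold Fd Xp at h2
          rw [zero_smul, Ex_zero hX hm] at h2
          rw [h2]
          exact hl
      show c ∈ (T : Set (ConjClasses Γ))
      rw [Finset.mem_coe, hT, Finset.mem_image]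
      refine ⟨_, hmem, ?_⟩
      conv_rhs => rw [← hCD.hrep c]
      rw [ConjClasses.mk_eq_mk_iff_isConj]
      exact (isConj_iff.mpr ⟨δ, rfl⟩).symm
    · rintro ⟨hc1, hc2⟩
      exact ⟨hT1 c (Finset.mem_coe.mp hc1), hc2⟩
  have e4 : ∑ γ ∈ S, F γ = ∑ c ∈ T, ∑ γ ∈ S with ConjClasses.mk γ = c, F γ :=
    (Finset.sum_fiberwise_of_maps_to (fun γ hγ => Finset.mem_image_of_mem _ hγ) F).symm
  set E : ℝ := C4 * M * (ρ + 1) ^ (2 * 1) / √τ with hE
  have e5 : |(∑ γ ∈ S, F γ) - ∑ c ∈ T, G c| ≤ T.card * (C3 * Real.exp (C3 * ρ) * E) := by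
    rw [e4, ← Finset.sum_sub_distrib]
    refine (Finset.abs_sum_le_sum_abs _ _).trans ?_
    rw [← nsmul_eq_mul]
    refine Finset.sum_le_card_nsmul _ _ _ fun c hc => ?_
    have hc1 := hT1 c hc
    have h1 := hC3 (rep c) (g0 c) (x0 c) (v0 c) (l c) (l0 c) (hCD.cls c hc1) q ρ E hρ hq
      (fun σ hσ => hC4 a ρ M τ σ hρ hA hτ hσ.le) S
      (fun γ hγ hx => (hSmem γ).mpr ⟨hγ, hx⟩)
    have h2 : (∑ γ ∈ S with ConjClasses.mk γ = c, F γ) =
        ∑ γ ∈ S.filter (IsConj (rep c)), F γ := by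
      refine Finset.sum_congr ?_ fun _ _ => rfl
      ext γ
      simp only [Finset.mem_filter]
      refine and_congr_right fun _ => ?_
      rw [← ConjClasses.mk_eq_mk_iff_isConj, hCD.hrep c]
      exact eq_comm
    rw [h2]
    convert h1 using 2
  -- the constants
  have hTS : (T.card : ℝ) ≤ S.card := by
    exact_mod_cast Finset.card_image_le
  have hS' : (S.card : ℝ) ≤ |C1| * Real.exp (|C1| * ρ) := hScard.trans (AN11_exp hρ)
  have hS0 : (0 : ℝ) ≤ S.card := Nat.cast_nonneg _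
  have hMτ : 0 ≤ M / √τ := div_nonneg hM hτ0.le
  have f1 : S.card * (C2 * Real.exp (C2 * ρ) * M / √τ) ≤
      (|C1| * |C2|) * Real.exp (K * ρ) * (M / √τ) := by
    have g1 : C2 * Real.exp (C2 * ρ) * M / √τ ≤ (|C2| * Real.exp (|C2| * ρ)) * (M / √τ) := by
      rw [mul_div_assoc]
      exact mul_le_mul_of_nonneg_right (AN11_exp hρ) hMτ
    calc S.card * (C2 * Real.exp (C2 * ρ) * M / √τ)
        ≤ S.card * ((|C2| * Real.exp (|C2| * ρ)) * (M / √τ)) := mul_le_mul_of_nonneg_left g1 hS0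
      _ ≤ (|C1| * Real.exp (|C1| * ρ)) * ((|C2| * Real.exp (|C2| * ρ)) * (M / √τ)) :=
          mul_le_mul_of_nonneg_right hS' (by positivity)
      _ = (|C1| * |C2|) * Real.exp ((|C1| + |C2|) * ρ) * (M / √τ) := by
          rw [add_mul, Real.exp_add]
          ring
      _ ≤ (|C1| * |C2|) * Real.exp (K * ρ) * (M / √τ) := by
          gcongr
          rw [hK]
          have := abs_nonneg C3
          have := mul_nonneg (abs_nonneg C1) (abs_nonneg C2)
          have := mul_nonneg (mul_nonneg (abs_nonneg C1) (abs_nonneg C3)) (abs_nonneg C4)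
          linarith
  have f2 : T.card * (C3 * Real.exp (C3 * ρ) * E) ≤
      (|C1| * |C3| * |C4|) * Real.exp (K * ρ) * (M / √τ) := by
    have g0 : (ρ + 1) ^ (2 * 1) ≤ Real.exp (2 * ρ) := by
      have h1 : ρ + 1 ≤ Real.exp ρ := Real.add_one_le_exp ρ
      calc (ρ + 1) ^ (2 * 1) ≤ Real.exp ρ ^ (2 * 1) := pow_le_pow_left₀ (by linarith) h1 _
        _ = Real.exp (2 * ρ) := by
            rw [← Real.exp_nat_mul]
            congr 1
    have g1 : |E| ≤ |C4| * Real.exp (2 * ρ) * (M / √τ) := by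
      rw [hE, abs_div, abs_mul, abs_mul, abs_of_nonneg hM, abs_of_pos hτ0,
        abs_of_nonneg (pow_nonneg (by linarith : (0 : ℝ) ≤ ρ + 1) _)]
      calc |C4| * M * (ρ + 1) ^ (2 * 1) / √τ = |C4| * (ρ + 1) ^ (2 * 1) * (M / √τ) := by ring
        _ ≤ |C4| * Real.exp (2 * ρ) * (M / √τ) := by gcongr
    have g2 : C3 * Real.exp (C3 * ρ) * E ≤
        (|C3| * Real.exp (|C3| * ρ)) * (|C4| * Real.exp (2 * ρ) * (M / √τ)) := by
      calc C3 * Real.exp (C3 * ρ) * E ≤ |C3 * Real.exp (C3 * ρ) * E| := le_abs_self _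
        _ = (|C3| * Real.exp (C3 * ρ)) * |E| := by
            rw [abs_mul, abs_mul, abs_of_pos (Real.exp_pos _)]
        _ ≤ (|C3| * Real.exp (|C3| * ρ)) * (|C4| * Real.exp (2 * ρ) * (M / √τ)) := by
            refine mul_le_mul ?_ g1 (abs_nonneg _) (by positivity)
            gcongr
            exact le_abs_self C3
    have hB0 : 0 ≤ (|C3| * Real.exp (|C3| * ρ)) * (|C4| * Real.exp (2 * ρ) * (M / √τ)) := by
      positivity
    calc T.card * (C3 * Real.exp (C3 * ρ) * E)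
        ≤ T.card * ((|C3| * Real.exp (|C3| * ρ)) * (|C4| * Real.exp (2 * ρ) * (M / √τ))) :=
          mul_le_mul_of_nonneg_left g2 (Nat.cast_nonneg _)
      _ ≤ (|C1| * Real.exp (|C1| * ρ)) *
          ((|C3| * Real.exp (|C3| * ρ)) * (|C4| * Real.exp (2 * ρ) * (M / √τ))) :=
          mul_le_mul_of_nonneg_right (hTS.trans hS') hB0
      _ = (|C1| * |C3| * |C4|) * Real.exp ((|C1| + |C3| + 2) * ρ) * (M / √τ) := by
          rw [add_mul, add_mul, Real.exp_add, Real.exp_add]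
          ring
      _ ≤ (|C1| * |C3| * |C4|) * Real.exp (K * ρ) * (M / √τ) := by
          gcongr
          rw [hK]
          have := abs_nonneg C2
          have := mul_nonneg (abs_nonneg C1) (abs_nonneg C2)
          have := mul_nonneg (mul_nonneg (abs_nonneg C1) (abs_nonneg C3)) (abs_nonneg C4)
          linarith
  have e6 : ∑ᶠ c ∈ {c : ConjClasses Γ | c ≠ 1},
      l0 c * q (l c) / √(trM m.1.1 (x0 c) (v0 c) (l c) - 2) = ∑ c ∈ T, G c := e3
  rw [e1, e6]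
  calc |(∑ γ ∈ S, IK D m.1.1 q γ) - ∑ c ∈ T, G c|
      ≤ |(∑ γ ∈ S, IK D m.1.1 q γ) - ∑ γ ∈ S, F γ| + |(∑ γ ∈ S, F γ) - ∑ c ∈ T, G c| :=
        abs_sub_le _ _ _
    _ ≤ (|C1| * |C2|) * Real.exp (K * ρ) * (M / √τ) +
        (|C1| * |C3| * |C4|) * Real.exp (K * ρ) * (M / √τ) :=
        add_le_add (e2.trans f1) (e5.trans f2)
    _ = (|C1| * |C2| + |C1| * |C3| * |C4|) * (Real.exp (K * ρ) * (M / √τ)) := by ring
    _ ≤ K * (Real.exp (K * ρ) * (M / √τ)) := by
        refine mul_le_mul_of_nonneg_right ?_ (by positivity)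
        rw [hK]
        have := abs_nonneg C1
        have := abs_nonneg C2
        have := abs_nonneg C3
        linarith
    _ = K * Real.exp (K * ρ) * M / √τ := by ring

end BR
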