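import Pool.Agent.LibBR70.Geo
import Pool.Agent.LibBR70.H1k
import Pool.Agent.LibBR70.AB_Defs
import Pool.Agent.LibBR70.PX_Defs

/-! The annulus of a closed geodesic: definitions (architect helper73). Everything is in the notation
of `LibBR70/Geo.lean`: tangent vectors are given by their coordinates in the frame `fr`. -/

open MeasureTheory Set Filter Topology
open scoped ContDiff

namespace BR

open BGS

/-- The distance of two points of the cover. -/
noncomputable def ds (m : Pl → Co) (x y : Pl) : ℝ := eu (Vx m x y)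

/-- The direction at `x` of the segment from `x` to `y`. -/
noncomputable def dr (m : Pl → Co) (x y : Pl) : Pl := (ds m x y)⁻¹ • Vx m x y

/-- The direction at `y` in which the segment from `x` to `y` arrives. -/
noncomputable def ar (m : Pl → Co) (x y : Pl) : Pl := -dr m y x

/-- `(x0, v0)` is tangent to the axis of `g`, along which `g` is the translation by `l`. -/
structure Axis {Γ : Type} [Group Γ] [MulAction Γ Pl] (m : Pl → Co) (g : Γ) (x0 v0 : Pl) (l : ℝ) :
    Prop where
  unit : eu v0 = 1
  pos : 0 < l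
  per : gfl m l (x0, v0) = (g • x0, Rg m g x0 v0)

/-- The trace of the monodromy of `y'' = -K y` along a geodesic of length `l`. -/
noncomputable def trM (m : Pl → Co) (x0 v0 : Pl) (l : ℝ) : ℝ :=
  JA m x0 v0 l + deriv (JB m x0 v0) l

/-- The perpendicular geodesic at `x0` to the direction `v0`. -/
noncomputable def Xp (m : Pl → Co) (x0 v0 : Pl) (y : ℝ) : Pl := Ex m x0 (y • rot v0)

/-- Fermi coordinates along the geodesic of `(x0, v0)`. -/
noncomputable def Fm (m : Pl → Co) (x0 v0 p : Pl) : Pl :=
  Xp m (gfl m p.1 (x0, v0)).1 (gfl m p.1 (x0, v0)).2 p.2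

/-- The displacement of `g` along the perpendicular geodesic. -/
noncomputable def Fd {Γ : Type} [Group Γ] [MulAction Γ Pl] (m : Pl → Co) (g : Γ) (x0 v0 : Pl)
    (y : ℝ) : ℝ := ds m (Xp m x0 v0 y) (g • Xp m x0 v0 y)

/-- Its derivative (see row AN3). -/
noncomputable def Fd1 {Γ : Type} [Group Γ] [MulAction Γ Pl] (m : Pl → Co) (g : Γ) (x0 v0 : Pl)
    (y : ℝ) : ℝ :=
  let x := Xp m x0 v0 y
  let u := (gfl m y (x0, rot v0)).2
  ip (Rg m g x u) (ar m x (g • x)) - ip u (dr m x (g • x))

/-- The leading coefficient of the parametrix between `x` and `y`. -/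
noncomputable def B0 (m : Pl → Co) (x y : Pl) : ℝ := (wt (Gx m x) (Vx m x y)) ^ (-(1 / 2) : ℝ)

/-- `l` is the translation length of `g`, `l0` that of the generator `g0` of the centraliser of `g`,
all along the axis through `(x0, v0)`. -/
structure Cls {Γ : Type} [Group Γ] [MulAction Γ Pl] (m : Pl → Co) (g g0 : Γ) (x0 v0 : Pl)
    (l l0 : ℝ) : Prop where
  axis : Axis m g x0 v0 l
  axis0 : Axis m g0 x0 v0 l0
  cent : ∀ h : Γ, h * g = g * h ↔ h ∈ Subgroup.zpowers g0

end BR
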