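import Pool.Agent.LibBR73.AN1

/-! Row AN2: the action of `g` in Fermi coordinates, moving the base point. 35 min.
Plan. `Fm_shift`: `Ex_deck`, `Rg_rot`, `Rg_smul`, `gfl_deck`: `g • Ex m c (y • rot v) =
Ex m (g • c) (y • rot (Rg m g c v))` and `(g • c s, Rg m g (c s) (v s)) = gfl m s (g • x0, Rg m g x0 v0)
= gfl m s (gfl m l (x0, v0)) = gfl m (s + l) (x0, v0)` (`gfl_add`). `Axis_along`: `gfl_deck`, `gfl_add`
(`gfl_eu` for the unit length). `Axis_conj`: `Rg_mul`, `gfl_deck`. `Axis_inv`: `gfl_homog` with `s = -1`: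
`gfl m t (x, -v) = ((gfl m (-t) (x, v)).1, -(gfl m (-t) (x, v)).2)`; from `per` and `gfl_deck`, `gfl_add`:
`gfl m (-l) (x0, v0) = (g⁻¹ • x0, Rg m g⁻¹ x0 v0)`; `Rg` is linear. `Axis_ne`: if `g = 1` then
`gfl m l (x0, v0) = (x0, v0)` (`Rg m 1 x v = v`: `Rg_mul` or directly), so `Ex m x0 (l • v0) = x0 = Ex m x0 0`
contradicts `Ex_bij`. `Fm_unique`: with `Fm_bij`: `x = Fm (s, y)`, `g0 ^ k • x = Fm (s + k l0, y)`
(induction on `k`, `Fm_shift` for `g0` and its inverse), exactly one `k` with `s + k l0 ∈ [0, l0)`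
(`existsUnique_add_zsmul_mem_Ico`). -/

open MeasureTheory Set Filter Topology
open scoped ContDiff

namespace BR

open BGS

variable {Γ : Type} [Group Γ] [MulAction Γ Pl] {D : Set Pl}

private theorem AN2_shift (hX : Surface Γ D) (hO : Ori Γ) {m : Pl → Co} (hm : HM Γ m) {g : Γ}
    {x0 v0 : Pl} {l : ℝ} (hA : Axis m g x0 v0 l) (s : ℝ) :
    gfl m (s + l) (x0, v0) =
      (g • (gfl m s (x0, v0)).1, Rg m g (gfl m s (x0, v0)).1 (gfl m s (x0, v0)).2) := by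
  rw [gfl_add hX hm, hA.per, gfl_deck hX hO hm]

private theorem AN2_Rg_one {m : Pl → Co} (hm : HM Γ m) (x v : Pl) :
    Rg m (1 : Γ) x v = v := by
  unfold Rg
  have h1 : (fun w : Pl => (1 : Γ) • w) = fun w => w := by
    funext w
    exact one_smul Γ w
  rw [h1, one_smul]
  have h2 : fderiv ℝ (fun w : Pl => w) x = ContinuousLinearMap.id ℝ Pl := fderiv_fun_id
  rw [h2]
  simp only [ContinuousLinearMap.coe_id', id_eq]
  exact ifr_fr (hm.pos x).1 (hm.pos x).2 v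

private theorem AN2_Rg_neg (hX : Surface Γ D) {m : Pl → Co} (hm : HM Γ m) (γ : Γ) (x v : Pl) :
    Rg m γ x (-v) = -Rg m γ x v := by
  have h := Rg_smul hX hm γ x v (-1)
  simpa only [neg_smul, one_smul] using h

private theorem AN2_eu_Rg (hX : Surface Γ D) {m : Pl → Co} (hm : HM Γ m) (γ : Γ) (x v : Pl) :
    eu (Rg m γ x v) = eu v := by
  have h := Rg_ip hX hm γ x v v
  unfold ip at h
  unfold eu
  congr 1
  nlinarith [h]

private theorem AN2_eu_neg (v : Pl) : eu (-v) = eu v := by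
  unfold eu
  simp

private theorem AN2_free (hX : Surface Γ D) {g : Γ} {x : Pl} (h : g • x = x) : g = 1 := by
  obtain ⟨γ, hγ, hu⟩ := hX.orbit x
  have h1 : (γ * g) • x ∈ D := by
    rw [mul_smul, h]
    exact hγ
  have h2 : γ * g = γ := hu _ h1
  exact mul_eq_left.mp h2

theorem Fm_shift (hX : Surface Γ D) (hO : Ori Γ) {m : Pl → Co} (hm : HM Γ m) {g : Γ}
    {x0 v0 : Pl} {l : ℝ} (hA : Axis m g x0 v0 l) (p : Pl) :
    g • Fm m x0 v0 p = Fm m x0 v0 (p.1 + l, p.2) := by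
  unfold Fm Xp
  simp only
  rw [AN2_shift hX hO hm hA, ← Ex_deck hX hO hm, Rg_smul hX hm, Rg_rot hX hO hm]

theorem Axis_along (hX : Surface Γ D) (hO : Ori Γ) {m : Pl → Co} (hm : HM Γ m) {g : Γ}
    {x0 v0 : Pl} {l : ℝ} (hA : Axis m g x0 v0 l) (s : ℝ) :
    Axis m g (gfl m s (x0, v0)).1 (gfl m s (x0, v0)).2 l := by
  refine ⟨?_, hA.pos, ?_⟩
  · rw [gfl_eu hX hm]
    exact hA.unit
  · have h1 : gfl m l ((gfl m s (x0, v0)).1, (gfl m s (x0, v0)).2) = gfl m (l + s) (x0, v0) := by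
      rw [gfl_add hX hm]
    rw [h1, add_comm, AN2_shift hX hO hm hA]

theorem Axis_conj (hX : Surface Γ D) (hO : Ori Γ) {m : Pl → Co} (hm : HM Γ m) {g : Γ}
    {x0 v0 : Pl} {l : ℝ} (hA : Axis m g x0 v0 l) (δ : Γ) :
    Axis m (δ * g * δ⁻¹) (δ • x0) (Rg m δ x0 v0) l := by
  refine ⟨?_, hA.pos, ?_⟩
  · rw [AN2_eu_Rg hX hm]
    exact hA.unit
  · rw [gfl_deck hX hO hm, hA.per]
    have h1 : Rg m (δ * g * δ⁻¹) (δ • x0) (Rg m δ x0 v0) = Rg m δ (g • x0) (Rg m g x0 v0) := by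
      rw [← Rg_mul hX hm, ← Rg_mul hX hm, inv_mul_cancel_right]
    have h2 : (δ * g * δ⁻¹) • δ • x0 = δ • g • x0 := by
      rw [← mul_smul, ← mul_smul, inv_mul_cancel_right]
    rw [h1, h2]

theorem Axis_inv (hX : Surface Γ D) (hO : Ori Γ) {m : Pl → Co} (hm : HM Γ m) {g : Γ}
    {x0 v0 : Pl} {l : ℝ} (hA : Axis m g x0 v0 l) : Axis m g⁻¹ x0 (-v0) l := by
  refine ⟨?_, hA.pos, ?_⟩
  · rw [AN2_eu_neg]
    exact hA.unit
  · have h1 := gfl_homog hX hm (-1) l x0 v0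
    rw [neg_smul, one_smul, neg_one_mul, neg_smul, one_smul] at h1
    have h2 := AN2_shift hX hO hm hA (-l)
    rw [neg_add_cancel, (gfl_isFlow hX hm).zero] at h2
    have h3 : x0 = g • (gfl m (-l) (x0, v0)).1 := congrArg Prod.fst h2
    have h4 : v0 = Rg m g (gfl m (-l) (x0, v0)).1 (gfl m (-l) (x0, v0)).2 :=
      congrArg Prod.snd h2
    have h5 : (gfl m (-l) (x0, v0)).1 = g⁻¹ • x0 := by
      rw [eq_inv_smul_iff]
      exact h3.symm
    have h6 : Rg m g⁻¹ x0 v0 = (gfl m (-l) (x0, v0)).2 := by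
      have h7 : Rg m g⁻¹ (g • (gfl m (-l) (x0, v0)).1)
          (Rg m g (gfl m (-l) (x0, v0)).1 (gfl m (-l) (x0, v0)).2) =
          (gfl m (-l) (x0, v0)).2 := by
        rw [← Rg_mul hX hm, inv_mul_cancel, AN2_Rg_one hm]
      rw [← h3, ← h4] at h7
      exact h7
    rw [h1, AN2_Rg_neg hX hm, h6, h5]

theorem Axis_ne (hX : Surface Γ D) (hO : Ori Γ) {m : Pl → Co} (hm : HM Γ m) {g : Γ}
    {x0 v0 : Pl} {l : ℝ} (hA : Axis m g x0 v0 l) : g ≠ 1 ∧ ∀ x : Pl, g • x ≠ x := by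
  have hne : g ≠ 1 := by
    rintro rfl
    have h1 := hA.per
    rw [AN2_Rg_one hm, one_smul] at h1
    have h2 : Ex m x0 (l • v0) = Ex m x0 0 := by
      rw [Ex_ray hX hm, h1, Ex_zero hX hm]
    have h3 := (Ex_bij hX hm x0).1 h2
    have h4 : v0 = 0 := by
      rcases smul_eq_zero.mp h3 with h | h
      · exact absurd h hA.pos.ne'
      · exact h
    have h5 := hA.unit
    rw [h4] at h5
    unfold eu at h5
    simp at h5
  exact ⟨hne, fun x hx => hne (AN2_free hX hx)⟩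

theorem Fm_unique (hX : Surface Γ D) (hO : Ori Γ) {m : Pl → Co} (hm : HM Γ m) {g0 : Γ}
    {x0 v0 : Pl} {l0 : ℝ} (hA : Axis m g0 x0 v0 l0) (x : Pl) :
    ∃! k : ℤ, g0 ^ k • x ∈ Fm m x0 v0 '' (Ico 0 l0 ×ˢ univ) := by
  obtain ⟨⟨s, y⟩, hsy⟩ := (Fm_bij hX hm hA.unit (x0 := x0)).2 x
  rw [← hsy]
  have hnat : ∀ (n : ℕ) (r : ℝ), g0 ^ n • Fm m x0 v0 (r, y) =
      Fm m x0 v0 (r + n * l0, y) := by
    intro n
    induction n with
    | zero => intro r; simp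
    | succ n ih =>
      intro r
      rw [pow_succ, mul_smul, Fm_shift hX hO hm hA]
      simp only
      rw [ih]
      congr 2
      push_cast
      ring
  have hint : ∀ k : ℤ, g0 ^ k • Fm m x0 v0 (s, y) = Fm m x0 v0 (s + k * l0, y) := by
    intro k
    obtain ⟨n, rfl | rfl⟩ := k.eq_nat_or_neg
    · rw [zpow_natCast, hnat]
      push_cast
      rfl
    · rw [zpow_neg, inv_smul_eq_iff, zpow_natCast, hnat]
      congr 2
      push_cast
      ring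
  have hiff : ∀ k : ℤ, g0 ^ k • Fm m x0 v0 (s, y) ∈ Fm m x0 v0 '' (Ico 0 l0 ×ˢ univ) ↔
      s + k • l0 ∈ Ico (0 : ℝ) (0 + l0) := by
    intro k
    rw [hint k, (Fm_bij hX hm hA.unit).1.mem_set_image, zero_add, zsmul_eq_mul]
    simp
  obtain ⟨k, hk, hku⟩ := existsUnique_add_zsmul_mem_Ico hA.pos s 0
  exact ⟨k, (hiff k).mpr hk, fun j hj => hku j ((hiff j).mp hj)⟩

/-- Everything about the displacement is unchanged by deck transformations. -/
theorem Fd_conj (hX : Surface Γ D) (hO : Ori Γ) {m : Pl → Co} (hm : HM Γ m) (g δ : Γ)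
    (x0 v0 : Pl) (y : ℝ) :
    Xp m (δ • x0) (Rg m δ x0 v0) y = δ • Xp m x0 v0 y ∧
      Fd m (δ * g * δ⁻¹) (δ • x0) (Rg m δ x0 v0) y = Fd m g x0 v0 y := by
  have h1 : Xp m (δ • x0) (Rg m δ x0 v0) y = δ • Xp m x0 v0 y := by
    unfold Xp
    rw [← Ex_deck hX hO hm, Rg_smul hX hm, Rg_rot hX hO hm]
  refine ⟨h1, ?_⟩
  unfold Fd ds
  rw [h1]
  have h2 : (δ * g * δ⁻¹) • δ • Xp m x0 v0 y = δ • g • Xp m x0 v0 y := by
    rw [← mul_smul, ← mul_smul, inv_mul_cancel_right]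
  rw [h2, eu_Vx_deck hX hO hm]

end BR
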