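import Pool.Agent.LibBR73.AN1

/-! Row AN3a: Jacobi fields: reversal and the uniform lower bound. 50 min.
Plan. `J_rev`: let `(y, w) = gfl m t (x, v)`; the geodesic of `(y, -w)` is the one of `(x, v)` run backwards:
`gfl m s (y, -w) = ((gfl m (t - s) (x, v)).1, -(gfl m (t - s) (x, v)).2)` (`gfl_homog` with factor `-1`,
`gfl_add`). So the functions `s ↦ JB m x v (t - s)`, `s ↦ JA m x v (t - s)` solve the equation
`f'' = -K f` of `JA m y (-w)`, `JB m y (-w)`; hence (uniqueness of the solution with given `f 0`, `f' 0`: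
Wronskian with `JA`, `JB`, or `ODE_solution_unique`)
`JB m x v (t - s) = JB m x v t * JA m y (-w) s - deriv (JB m x v) t * JB m y (-w) s` and
`JA m x v (t - s) = JA m x v t * JA m y (-w) s - deriv (JA m x v) t * JB m y (-w) s`. At `s = t`: with
`A = JA m y (-w) t`, `B = JB m y (-w) t`: `0 = JB A - JB' B`, `1 = JA A - JA' B`; with the Wronskian
`JA JB' - JA' JB = 1` this gives `B = JB`, `A = JB'`.
`J_low`: `a, b` from `curv_bounds`. `r t = (JA t - 1) / JB t` has the derivative `(JB' t - 1) / (JB t)^2 ≥ 0`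
(Wronskian), so it is nondecreasing on `(0, ∞)`: `r t ≥ r d0`. `JA d0 ≥ 1 + a^2 d0^2 / 2` (`JA'' = -K JA ≥ a^2`),
`JB d0 ≤ sinh (b d0) / b` or any bound depending only on `b`, `d0` (`JB'' ≤ b^2 JB`; e.g. Gronwall for
`JB^2 + JB'^2`). The second bound is the first one for the reversed geodesic (`J_rev`).
`J_quot`: `JB' / JB ≤ C` for `t ≥ d0`, and `JA / JB ≤ C` for `t ≥ d0`: `JA / JB` is nonincreasing with the
value at `d0` bounded; the other one by reversal. -/

open MeasureTheory Set Filter Topology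
open scoped ContDiff

namespace BR

open BGS

variable {Γ : Type} [Group Γ] [MulAction Γ Pl] {D : Set Pl}

private theorem AN3a_mono {f f' : ℝ → ℝ} {c t : ℝ} (hf : ∀ s, c ≤ s → HasDerivAt f (f' s) s)
    (h0 : ∀ s, c ≤ s → 0 ≤ f' s) (ht : c ≤ t) : f c ≤ f t := by
  refine (monotoneOn_of_deriv_nonneg (convex_Ici c)
    (fun s hs => (hf s hs).continuousAt.continuousWithinAt)
    (fun s hs => (hf s (interior_subset hs)).differentiableAt.differentiableWithinAt)
    (fun s hs => ?_)) self_mem_Ici ht ht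
  rw [(hf s (interior_subset hs)).deriv]
  exact h0 s (interior_subset hs)

/-- The Wronskian is constant. -/
private theorem AN3a_wr {f f' g g' κ : ℝ → ℝ} (hf : ∀ t, HasDerivAt f (f' t) t)
    (hf' : ∀ t, HasDerivAt f' (κ t * f t) t) (hg : ∀ t, HasDerivAt g (g' t) t)
    (hg' : ∀ t, HasDerivAt g' (κ t * g t) t) (t : ℝ) :
    f t * g' t - f' t * g t = f 0 * g' 0 - f' 0 * g 0 := by
  have h1 : ∀ s, HasDerivAt (fun s => f s * g' s - f' s * g s) 0 s := by
    intro s
    have h2 := ((hf s).mul (hg' s)).sub ((hf' s).mul (hg s))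
    refine h2.congr_deriv ?_
    ring
  exact is_const_of_deriv_eq_zero (fun s => (h1 s).differentiableAt) (fun s => (h1 s).deriv) t 0

/-- Exponential upper bound. -/
private theorem AN3a_up {f f' κ : ℝ → ℝ} {b : ℝ} (hf : ∀ t, HasDerivAt f (f' t) t)
    (hf' : ∀ t, HasDerivAt f' (κ t * f t) t) (hκ : ∀ t, κ t ≤ b ^ 2)
    (h0 : ∀ t, 0 ≤ t → 0 ≤ f t) {t : ℝ} (ht : 0 ≤ t) :
    f' t + b * f t ≤ (f' 0 + b * f 0) * Real.exp (b * t) := by
  have h1 : ∀ s, HasDerivAt (fun s => -((f' s + b * f s) * Real.exp (-(b * s))))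
      ((b ^ 2 - κ s) * f s * Real.exp (-(b * s))) s := by
    intro s
    have h2 : HasDerivAt (fun s : ℝ => -(b * s)) (-(b * 1)) s :=
      ((hasDerivAt_id s).const_mul b).neg
    have h3 := (((hf' s).fun_add ((hf s).const_mul b)).fun_mul h2.exp).fun_neg
    refine h3.congr_deriv ?_
    ring
  have h2 := AN3a_mono (fun s _ => h1 s) (fun s hs => mul_nonneg (mul_nonneg
    (by linarith [hκ s]) (h0 s hs)) (Real.exp_pos _).le) ht
  simp only [mul_zero, neg_zero, Real.exp_zero, mul_one] at h2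
  have h3 : (f' t + b * f t) * Real.exp (-(b * t)) ≤ f' 0 + b * f 0 := by linarith
  have h4 := mul_le_mul_of_nonneg_right h3 (Real.exp_pos (b * t)).le
  rwa [mul_assoc, ← Real.exp_add, neg_add_cancel, Real.exp_zero, mul_one] at h4

private theorem AN3a_abs {A A' B B' κ : ℝ → ℝ} {a b d0 : ℝ} (hb : 0 < b)
    (hd0 : 0 < d0) (hA : ∀ t, HasDerivAt A (A' t) t) (hA' : ∀ t, HasDerivAt A' (κ t * A t) t)
    (hB : ∀ t, HasDerivAt B (B' t) t) (hB' : ∀ t, HasDerivAt B' (κ t * B t) t) (A0 : A 0 = 1)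
    (A'0 : A' 0 = 0) (B0 : B 0 = 0) (B'0 : B' 0 = 1) (hκ : ∀ t, a ^ 2 ≤ κ t ∧ κ t ≤ b ^ 2)
    (hge : ∀ t, 0 ≤ t → t ≤ B t ∧ 1 ≤ B' t ∧ 1 ≤ A t ∧ 0 ≤ A' t)
    (hW : ∀ t, A t * B' t - A' t * B t = 1) {t : ℝ} (ht : d0 ≤ t) :
    a ^ 2 * d0 ^ 2 / 2 * (b * Real.exp (-(b * d0))) * B t ≤ A t - 1 ∧
      A t ≤ Real.exp (b * d0) / d0 * B t := by
  have hupA := AN3a_up hA hA' (fun t => (hκ t).2) (fun t ht => by linarith [(hge t ht).2.2.1])
    hd0.le
  have hupB := AN3a_up hB hB' (fun t => (hκ t).2) (fun t ht => by linarith [(hge t ht).1])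
    hd0.le
  rw [A0, A'0, zero_add, mul_one] at hupA
  rw [B0, B'0, mul_zero, add_zero, one_mul] at hupB
  obtain ⟨g1, g2, g3, g4⟩ := hge d0 hd0.le
  have hA1 : A d0 ≤ Real.exp (b * d0) := by
    have h1 : b * A d0 ≤ b * Real.exp (b * d0) := by linarith
    exact le_of_mul_le_mul_left h1 hb
  have hB1 : b * B d0 ≤ Real.exp (b * d0) := by linarith
  -- the lower bound at `d0`
  have hA'low : ∀ s, 0 ≤ s → a ^ 2 * s ≤ A' s := by
    intro s hs
    have h1 : ∀ s, HasDerivAt (fun s => A' s - a ^ 2 * s) (κ s * A s - a ^ 2) s := by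
      intro s
      have h2 := (hA' s).sub ((hasDerivAt_id s).const_mul (a ^ 2))
      refine h2.congr_deriv ?_
      ring
    have h2 := AN3a_mono (fun s _ => h1 s) (fun s hs => by
      have h3 := (hκ s).1
      have h4 := (hge s hs).2.2.1
      nlinarith [sq_nonneg a]) hs
    simp only [A'0, mul_zero, sub_zero] at h2
    linarith
  have hAlow : 1 + a ^ 2 * d0 ^ 2 / 2 ≤ A d0 := by
    have h1 : ∀ s, HasDerivAt (fun s => A s - a ^ 2 * s ^ 2 / 2) (A' s - a ^ 2 * s) s := by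
      intro s
      have h2 := (hA s).sub ((((hasDerivAt_id s).pow 2).const_mul (a ^ 2)).div_const 2)
      refine h2.congr_deriv ?_
      simp only [id]
      ring
    have h2 := AN3a_mono (fun s _ => h1 s) (fun s hs => by linarith [hA'low s hs]) hd0.le
    simp only [A0] at h2
    linarith
  have hBt : ∀ s, d0 ≤ s → 0 < B s := fun s hs => by
    linarith [(hge s (hd0.le.trans hs)).1]
  have hBt0 := hBt t ht
  constructor
  · have h1 : ∀ s, d0 ≤ s → HasDerivAt (fun s => (A s - 1) / B s) ((B' s - 1) / B s ^ 2) s := by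
      intro s hs
      have h2 := ((hA s).sub_const 1).div (hB s) (hBt s hs).ne'
      refine h2.congr_deriv ?_
      congr 1
      linear_combination -(hW s)
    have h2 := AN3a_mono h1 (fun s hs => div_nonneg
      (by linarith [(hge s (hd0.le.trans hs)).2.1]) (sq_nonneg _)) ht
    have h3 : a ^ 2 * d0 ^ 2 / 2 * (b * Real.exp (-(b * d0))) ≤ (A d0 - 1) / B d0 := by
      rw [le_div_iff₀ (hBt d0 le_rfl)]
      have h4 : b * Real.exp (-(b * d0)) * B d0 ≤ 1 := by
        calc b * Real.exp (-(b * d0)) * B d0 = Real.exp (-(b * d0)) * (b * B d0) := by ring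
          _ ≤ Real.exp (-(b * d0)) * Real.exp (b * d0) :=
              mul_le_mul_of_nonneg_left hB1 (Real.exp_pos _).le
          _ = 1 := by rw [← Real.exp_add, neg_add_cancel, Real.exp_zero]
      have h5 : 0 ≤ a ^ 2 * d0 ^ 2 / 2 := by positivity
      calc a ^ 2 * d0 ^ 2 / 2 * (b * Real.exp (-(b * d0))) * B d0
          = a ^ 2 * d0 ^ 2 / 2 * (b * Real.exp (-(b * d0)) * B d0) := by ring
        _ ≤ a ^ 2 * d0 ^ 2 / 2 * 1 := mul_le_mul_of_nonneg_left h4 h5
        _ ≤ A d0 - 1 := by linarith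
    have h4 := h3.trans h2
    rwa [le_div_iff₀ hBt0] at h4
  · have h1 : ∀ s, d0 ≤ s → HasDerivAt (fun s => -(A s / B s)) (1 / B s ^ 2) s := by
      intro s hs
      have h2 := ((hA s).div (hB s) (hBt s hs).ne').neg
      refine h2.congr_deriv ?_
      rw [← neg_div]
      congr 1
      linear_combination hW s
    have h2 := AN3a_mono h1 (fun s hs => by positivity) ht
    have h3 : A t / B t ≤ A d0 / B d0 := by linarith
    have h4 : A d0 / B d0 ≤ Real.exp (b * d0) / d0 :=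
      div_le_div₀ (Real.exp_pos _).le hA1 hd0 g1
    have h5 := h3.trans h4
    rwa [div_le_iff₀ hBt0] at h5

private theorem AN3a_eu (w : Pl) : eu (-w) = eu w := by
  unfold eu
  simp

theorem J_rev (hX : Surface Γ D) {m : Pl → Co} (hm : HM Γ m) {x v : Pl} (hv : eu v = 1) (t : ℝ) :
    JB m (gfl m t (x, v)).1 (-(gfl m t (x, v)).2) t = JB m x v t ∧
      JA m (gfl m t (x, v)).1 (-(gfl m t (x, v)).2) t = deriv (JB m x v) t := by
  set y := (gfl m t (x, v)).1 with hy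
  set w := (gfl m t (x, v)).2 with hw
  have hwe : eu (-w) = 1 := by
    rw [AN3a_eu, hw, gfl_eu hX hm]
    exact hv
  have hrev : ∀ s, (gfl m s (y, -w)).1 = (gfl m (t - s) (x, v)).1 := by
    intro s
    have h1 := gfl_homog hX hm (-1) s y w
    rw [neg_one_smul, neg_one_mul] at h1
    rw [h1]
    have h2 : gfl m (-s) (y, w) = gfl m (t - s) (x, v) := by
      rw [show t - s = -s + t by ring, gfl_add hX hm]
    rw [h2]
  obtain ⟨a0, a1, b0, b1⟩ := J_zero hX hm (x := y) hwe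
  obtain ⟨-, -, c0, c1⟩ := J_zero hX hm (x := x) hv
  have hsub : ∀ s : ℝ, HasDerivAt (fun s : ℝ => t - s) (-1) s := fun s => by
    simpa using (hasDerivAt_id s).const_sub t
  have hF : ∀ s, HasDerivAt (fun s => JB m x v (t - s)) (-deriv (JB m x v) (t - s)) s := by
    intro s
    have h1 := HasDerivAt.comp s (JB_ode hX hm (x := x) hv (t - s)).1 (hsub s)
    refine h1.congr_deriv ?_
    ring
  have hF' : ∀ s, HasDerivAt (fun s => -deriv (JB m x v) (t - s))
      (-curv m (gfl m s (y, -w)).1 * JB m x v (t - s)) s := by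
    intro s
    have h1 := (HasDerivAt.comp s (JB_ode hX hm (x := x) hv (t - s)).2 (hsub s)).neg
    refine h1.congr_deriv ?_
    rw [hrev s]
    ring
  have hB := AN3a_wr hF hF' (fun s => (JB_ode hX hm hwe s).1) (fun s => (JB_ode hX hm hwe s).2) t
  have hA := AN3a_wr hF hF' (fun s => (JA_ode hX hm hwe s).1) (fun s => (JA_ode hX hm hwe s).2) t
  simp only [sub_self, sub_zero, c0, c1, b0, b1, a0, a1] at hA hB
  constructor
  · linarith
  · linarith

private theorem AN3a_J (hX : Surface Γ D) {m : Pl → Co} (hm : HM Γ m) {a b : ℝ} (hb : 0 < b)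
    (hab : ∀ z, -b ^ 2 ≤ curv m z ∧ curv m z ≤ -a ^ 2) {d0 : ℝ} (hd0 : 0 < d0) {x v : Pl}
    (hv : eu v = 1) {t : ℝ} (ht : d0 ≤ t) :
    a ^ 2 * d0 ^ 2 / 2 * (b * Real.exp (-(b * d0))) * JB m x v t ≤ JA m x v t - 1 ∧
      JA m x v t ≤ Real.exp (b * d0) / d0 * JB m x v t := by
  obtain ⟨a0, a1, b0, b1⟩ := J_zero hX hm hv
  exact AN3a_abs (κ := fun s => -curv m (gfl m s (x, v)).1) hb hd0
    (fun s => (JA_ode hX hm hv s).1) (fun s => (JA_ode hX hm hv s).2)
    (fun s => (JB_ode hX hm hv s).1) (fun s => (JB_ode hX hm hv s).2) a0 a1 b0 b1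
    (fun s => ⟨by linarith [(hab (gfl m s (x, v)).1).2], by linarith [(hab (gfl m s (x, v)).1).1]⟩)
    (fun s hs => JB_ge hX hm hv hs) (fun s => wronski hX hm hv s) ht

theorem J_low (hX : Surface Γ D) {m : Pl → Co} (hm : HM Γ m) {d0 : ℝ} (hd0 : 0 < d0) :
    ∃ c > 0, ∀ (x v : Pl), eu v = 1 → ∀ t, d0 ≤ t →
      c * JB m x v t ≤ JA m x v t - 1 ∧ c * JB m x v t ≤ deriv (JB m x v) t - 1 := by
  obtain ⟨a, b, ha, hab, h⟩ := curv_bounds hX hm
  have hb : 0 < b := lt_of_lt_of_le ha hab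
  refine ⟨a ^ 2 * d0 ^ 2 / 2 * (b * Real.exp (-(b * d0))), by positivity, fun x v hv t ht =>
    ⟨(AN3a_J hX hm hb h hd0 hv ht).1, ?_⟩⟩
  have hwe : eu (-(gfl m t (x, v)).2) = 1 := by
    rw [AN3a_eu, gfl_eu hX hm]
    exact hv
  have h1 := (AN3a_J hX hm hb h hd0 (x := (gfl m t (x, v)).1) hwe ht).1
  rw [(J_rev hX hm hv t).1, (J_rev hX hm hv t).2] at h1
  exact h1

theorem J_quot (hX : Surface Γ D) {m : Pl → Co} (hm : HM Γ m) {d0 : ℝ} (hd0 : 0 < d0) :
    ∃ C : ℝ, ∀ (x v : Pl), eu v = 1 → ∀ t, d0 ≤ t →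
      JA m x v t ≤ C * JB m x v t ∧ deriv (JB m x v) t ≤ C * JB m x v t := by
  obtain ⟨a, b, ha, hab, h⟩ := curv_bounds hX hm
  have hb : 0 < b := lt_of_lt_of_le ha hab
  refine ⟨Real.exp (b * d0) / d0, fun x v hv t ht => ⟨(AN3a_J hX hm hb h hd0 hv ht).2, ?_⟩⟩
  have hwe : eu (-(gfl m t (x, v)).2) = 1 := by
    rw [AN3a_eu, gfl_eu hX hm]
    exact hv
  have h1 := (AN3a_J hX hm hb h hd0 (x := (gfl m t (x, v)).1) hwe ht).2
  rw [(J_rev hX hm hv t).1, (J_rev hX hm hv t).2] at h1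
  exact h1

end BR
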