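import Pool.Agent.LibBR73.AN0
import Pool.Agent.LibBR73.AN2
import Pool.Agent.LibBR73.AN3a
import Pool.Agent.LibBR70.H1p

/-! Row AN3: the displacement of `g` along a perpendicular to its axis. 60 min, strong.
Notation: `x y = Xp m x0 v0 y`, `u y = (gfl m y (x0, rot v0)).2` (so `x' = fr (m x) u`, `qf_gfl`, and
`u' = -(om m x x') • rot u` by the definition of `gf`), `v = dr m x (g • x)`, `w = ar m x (g • x)`,
`d = Fd y = ds m x (g • x) > 0` (`Axis_ne`), `u1 = Rg m g x u`: the curve `g • x y` has the derivative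
`fr (m (g • x)) u1` (definition of `Rg`, `fr_ifr`), and `u1' = -(om ..) • rot u1`: `(g • x, u1)` is
`gfl m y (g • x0, Rg m g x0 (rot v0))` (`gfl_deck`). Put `p0 = ip u v`, `q0 = ip u (rot v)`, `p1 = ip u1 w`,
`q1 = ip u1 (rot w)`, `A = JA m x v d`, `B = JB m x v d`, `A'`, `B'` their derivatives at `d`. By `var_end`:
`Fd' = p1 - p0 = Fd1`, `b = (q1 - q0 A) / B`, `b1 = q0 A' + b B' = (q1 B' - q0) / B` (Wronskian),
`p0' = q0 b`, `p1' = q1 b1` (the `om` terms cancel), `p0^2 + q0^2 = 1`, `p1^2 + q1^2 = 1`.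
`Fd_zero`: `ds_eq` with `t = l`. `Fd_second`: at `y = 0`: `v = v0`, `u = rot v0`, `q0 = ip (rot v0) (rot v0) = 1`,
`q1 = 1` (`Rg_rot`), so `Fd1' = q1 b1 - q0 b = (B' - 1 - 1 + A) / B`.
`Fd_low`: `d ≥ d0` for a uniform `d0` (`displ_pos`), `c` from `J_low` for `d0`. (1) `p0 y < 0` for `y > 0`:
`p0 0 = 0`, and where `p0 = 0` one has `|q0| = 1`, `p0' = (q0 q1 - A) / B ≤ -c < 0`. (2) in the same way
`p1 y > 0` for `y > 0`: where `p1 = 0`, `p1' = (B' - q0 q1) / B ≥ c`. (General lemma: `f 0 = 0` and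
`f' y < 0` whenever `f y = 0`, `y ≥ 0`, imply `f < 0` on `(0, ∞)`.) (3) `Fd1' = q1 b1 - q0 b =
(q1^2 (B' - 1) + q0^2 (A - 1) + (q0 - q1)^2) / B ≥ c (q0^2 + q1^2) = c (2 - p0^2 - p1^2) ≥ c (2 - Fd1^2)` since
`p0 ≤ 0 ≤ p1`. So `Fd1` is nondecreasing, and if `Fd1 y < 1` then `Fd1' ≥ c` on `[0, y]`, `Fd1 y ≥ c y`.
`Fd_neg`: `Xp m x0 (-v0) y = Xp m x0 v0 (-y)` and `ds_comm`, `ds_deck`:
`ds m x (g⁻¹ • x) = ds m (g • x) x`; the statement about `Fd1` by uniqueness of derivatives. -/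

open MeasureTheory Set Filter Topology
open scoped ContDiff

namespace BR

open BGS

variable {Γ : Type} [Group Γ] [MulAction Γ Pl] {D : Set Pl}

theorem AN3_eu1 {v : Pl} (h : eu v = 1) : v.1 ^ 2 + v.2 ^ 2 = 1 := by
  have h1 : √(v.1 ^ 2 + v.2 ^ 2) = 1 := h
  exact Real.sqrt_eq_one.mp h1

theorem AN3_ip_sq {u v : Pl} (hu : eu u = 1) (hv : eu v = 1) :
    ip u v ^ 2 + ip u (rot v) ^ 2 = 1 := by
  have h1 := AN3_eu1 hu
  have h2 := AN3_eu1 hv
  simp only [ip, rot]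
  have h3 : (u.1 * v.1 + u.2 * v.2) ^ 2 + (u.1 * -v.2 + u.2 * v.1) ^ 2 =
      (u.1 ^ 2 + u.2 ^ 2) * (v.1 ^ 2 + v.2 ^ 2) := by ring
  rw [h3, h1, h2, one_mul]

theorem AN3_eu_rot (v : Pl) : eu (rot v) = eu v := by
  simp only [eu, rot]
  congr 1
  ring

theorem AN3_eu_neg (v : Pl) : eu (-v) = eu v := by
  simp [eu]

theorem AN3_ip_deriv {f g : ℝ → Pl} {f' g' : Pl} {t : ℝ} (hf : HasDerivAt f f' t)
    (hg : HasDerivAt g g' t) :
    HasDerivAt (fun s => ip (f s) (g s)) (ip f' (g t) + ip (f t) g') t := by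
  have h1 : HasDerivAt (fun s => (f s).1) f'.1 t :=
    (ContinuousLinearMap.fst ℝ ℝ ℝ).hasFDerivAt.comp_hasDerivAt t hf
  have h2 : HasDerivAt (fun s => (f s).2) f'.2 t :=
    (ContinuousLinearMap.snd ℝ ℝ ℝ).hasFDerivAt.comp_hasDerivAt t hf
  have h3 : HasDerivAt (fun s => (g s).1) g'.1 t :=
    (ContinuousLinearMap.fst ℝ ℝ ℝ).hasFDerivAt.comp_hasDerivAt t hg
  have h4 : HasDerivAt (fun s => (g s).2) g'.2 t :=
    (ContinuousLinearMap.snd ℝ ℝ ℝ).hasFDerivAt.comp_hasDerivAt t hg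
  have h5 : HasDerivAt (fun s => ip (f s) (g s)) _ t := (h1.mul h3).add (h2.mul h4)
  refine h5.congr_deriv ?_
  simp only [ip]
  ring

theorem AN3_flow (hX : Surface Γ D) {m : Pl → Co} (hm : HM Γ m) (a : Pl × Pl) (t : ℝ) :
    HasDerivAt (fun s => (gfl m s a).1) (fr (m (gfl m t a).1) (gfl m t a).2) t ∧
      HasDerivAt (fun s => (gfl m s a).2)
        (-(om m (gfl m t a).1 (fr (m (gfl m t a).1) (gfl m t a).2)) • rot (gfl m t a).2) t := by
  have h := (gfl_isFlow hX hm).deriv a t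
  refine ⟨(ContinuousLinearMap.fst ℝ Pl Pl).hasFDerivAt.comp_hasDerivAt t h, ?_⟩
  have h2 : HasDerivAt (fun s => (gfl m s a).2) _ t :=
    (ContinuousLinearMap.snd ℝ Pl Pl).hasFDerivAt.comp_hasDerivAt t h
  refine h2.congr_deriv ?_
  simp only [gf, rot, ContinuousLinearMap.coe_snd']
  ext <;> simp

noncomputable def AN3_P0 (m : Pl → Co) (a b : Pl × Pl) (t : ℝ) : ℝ :=
  ip (gfl m t a).2 (dr m (gfl m t a).1 (gfl m t b).1)

noncomputable def AN3_Q0 (m : Pl → Co) (a b : Pl × Pl) (t : ℝ) : ℝ :=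
  ip (gfl m t a).2 (rot (dr m (gfl m t a).1 (gfl m t b).1))

noncomputable def AN3_P1 (m : Pl → Co) (a b : Pl × Pl) (t : ℝ) : ℝ :=
  ip (gfl m t b).2 (ar m (gfl m t a).1 (gfl m t b).1)

noncomputable def AN3_Q1 (m : Pl → Co) (a b : Pl × Pl) (t : ℝ) : ℝ :=
  ip (gfl m t b).2 (rot (ar m (gfl m t a).1 (gfl m t b).1))

theorem AN3_pair (hX : Surface Γ D) {m : Pl → Co} (hm : HM Γ m) {a b : Pl × Pl}
    (ha : eu a.2 = 1) (hb : eu b.2 = 1) (t : ℝ) (hne : (gfl m t a).1 ≠ (gfl m t b).1)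
    {d A B B' : ℝ} (hd : d = ds m (gfl m t a).1 (gfl m t b).1)
    (hA : A = JA m (gfl m t a).1 (dr m (gfl m t a).1 (gfl m t b).1) d)
    (hB : B = JB m (gfl m t a).1 (dr m (gfl m t a).1 (gfl m t b).1) d)
    (hB' : B' = deriv (JB m (gfl m t a).1 (dr m (gfl m t a).1 (gfl m t b).1)) d) :
    HasDerivAt (fun s => ds m (gfl m s a).1 (gfl m s b).1)
        (AN3_P1 m a b t - AN3_P0 m a b t) t ∧
      HasDerivAt (AN3_P0 m a b)
        ((AN3_Q0 m a b t * AN3_Q1 m a b t - AN3_Q0 m a b t ^ 2 * A) / B) t ∧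
      HasDerivAt (AN3_P1 m a b)
        ((AN3_Q1 m a b t ^ 2 * B' - AN3_Q0 m a b t * AN3_Q1 m a b t) / B) t ∧
      AN3_P0 m a b t ^ 2 + AN3_Q0 m a b t ^ 2 = 1 ∧
      AN3_P1 m a b t ^ 2 + AN3_Q1 m a b t ^ 2 = 1 := by
  have hfa := AN3_flow hX hm a t
  have hfb := AN3_flow hX hm b t
  have hua : ifr (m (gfl m t a).1) (fr (m (gfl m t a).1) (gfl m t a).2) = (gfl m t a).2 :=
    ifr_fr (hm.pos _).1 (hm.pos _).2 _
  have hub : ifr (m (gfl m t b).1) (fr (m (gfl m t b).1) (gfl m t b).2) = (gfl m t b).2 :=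
    ifr_fr (hm.pos _).1 (hm.pos _).2 _
  have hv1 : eu (dr m (gfl m t a).1 (gfl m t b).1) = 1 := dr_unit hX hm hne
  have hw1 : eu (ar m (gfl m t a).1 (gfl m t b).1) = 1 := ar_unit hX hm hne
  have hau : eu (gfl m t a).2 = 1 := by rw [gfl_eu hX hm, ha]
  have hbu : eu (gfl m t b).2 = 1 := by rw [gfl_eu hX hm, hb]
  have hdpos : 0 < d := by rw [hd]; exact ds_pos hX hm hne
  have hBpos : 0 < B := by
    rw [hB]
    exact lt_of_lt_of_le hdpos (JB_ge hX hm hv1 hdpos.le).1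
  have hW := wronski hX hm (x := (gfl m t a).1) hv1 d
  rw [← hA, ← hB, ← hB'] at hW
  obtain ⟨h1, h2, h3⟩ := var_end hX hm hfa.1 hfb.1 hne hd rfl rfl hua.symm hub.symm rfl rfl
  refine ⟨h1, ?_, ?_, AN3_ip_sq hau hv1, AN3_ip_sq hbu hw1⟩
  · have h4 := AN3_ip_deriv hfa.2 h2
    refine h4.congr_deriv ?_
    rw [← hA, ← hB]
    simp only [AN3_Q0, AN3_Q1]
    generalize om m (gfl m t a).1 (fr (m (gfl m t a).1) (gfl m t a).2) = o
    generalize dr m (gfl m t a).1 (gfl m t b).1 = v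
    generalize ip (gfl m t b).2 (rot (ar m (gfl m t a).1 (gfl m t b).1)) = q1
    generalize (gfl m t a).2 = u
    simp only [ip, rot, Prod.smul_fst, Prod.smul_snd, smul_eq_mul]
    field_simp
    ring
  · have h4 := AN3_ip_deriv hfb.2 h3
    refine h4.congr_deriv ?_
    rw [← hA, ← hB, ← hB']
    simp only [AN3_Q0, AN3_Q1]
    generalize hAp : deriv (JA m (gfl m t a).1 (dr m (gfl m t a).1 (gfl m t b).1)) d = A' at *
    generalize om m (gfl m t b).1 (fr (m (gfl m t b).1) (gfl m t b).2) = o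
    generalize ip (gfl m t a).2 (rot (dr m (gfl m t a).1 (gfl m t b).1)) = q0
    generalize ar m (gfl m t a).1 (gfl m t b).1 = w
    generalize (gfl m t b).2 = u
    have hb1 : q0 * A' + (ip u (rot w) - q0 * A) / B * B' = (ip u (rot w) * B' - q0) / B := by
      field_simp
      linear_combination (-q0) * hW
    rw [hb1]
    simp only [ip, rot, Prod.smul_fst, Prod.smul_snd, smul_eq_mul]
    field_simp
    ring

theorem AN3_eu_ip (v : Pl) : eu v = √(ip v v) := by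
  simp only [eu, ip]
  congr 1
  ring

theorem AN3_eu_Rg (hX : Surface Γ D) {m : Pl → Co} (hm : HM Γ m) (g : Γ) (x v : Pl) :
    eu (Rg m g x v) = eu v := by
  rw [AN3_eu_ip, AN3_eu_ip, Rg_ip hX hm]

theorem AN3_X (hX : Surface Γ D) (hO : Ori Γ) {m : Pl → Co} (hm : HM Γ m) (g : Γ)
    (x0 v0 : Pl) (y : ℝ) {a b : Pl × Pl} (ha : a = (x0, rot v0))
    (hb : b = (g • x0, Rg m g x0 (rot v0))) :
    Xp m x0 v0 y = (gfl m y a).1 ∧ g • Xp m x0 v0 y = (gfl m y b).1 ∧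
      Fd m g x0 v0 y = ds m (gfl m y a).1 (gfl m y b).1 ∧
      Fd1 m g x0 v0 y = AN3_P1 m a b y - AN3_P0 m a b y := by
  have h1 : Xp m x0 v0 y = (gfl m y a).1 := by
    rw [ha]
    exact Ex_ray hX hm y x0 (rot v0)
  have h2 : gfl m y b = (g • (gfl m y a).1, Rg m g (gfl m y a).1 (gfl m y a).2) := by
    rw [ha, hb]
    exact gfl_deck hX hO hm g y x0 (rot v0)
  have h3 : g • Xp m x0 v0 y = (gfl m y b).1 := by rw [h2, h1]
  refine ⟨h1, h3, ?_, ?_⟩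
  · unfold Fd
    rw [h3, h1]
  · simp only [Fd1, AN3_P1, AN3_P0]
    rw [h3, h1, h2, ha]

theorem AN3_at0 (hX : Surface Γ D) (hO : Ori Γ) {m : Pl → Co} (hm : HM Γ m) {g : Γ}
    {x0 v0 : Pl} {l : ℝ} (hA : Axis m g x0 v0 l) {a b : Pl × Pl} (ha : a = (x0, rot v0))
    (hb : b = (g • x0, Rg m g x0 (rot v0))) :
    ds m x0 (g • x0) = l ∧ dr m x0 (g • x0) = v0 ∧ ar m x0 (g • x0) = Rg m g x0 v0 ∧
      AN3_P0 m a b 0 = 0 ∧ AN3_Q0 m a b 0 = 1 ∧ AN3_P1 m a b 0 = 0 ∧ AN3_Q1 m a b 0 = 1 := by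
  have h := ds_eq hX hm (x := x0) hA.unit hA.pos
  rw [hA.per] at h
  obtain ⟨h1, h2, h3⟩ := h
  have h1' : ds m x0 (g • x0) = l := h1
  have h2' : dr m x0 (g • x0) = v0 := h2
  have h3' : ar m x0 (g • x0) = Rg m g x0 v0 := h3
  have hz : ∀ p, gfl m 0 p = p := (gfl_isFlow hX hm).zero
  have hu := AN3_eu1 hA.unit
  refine ⟨h1', h2', h3', ?_, ?_, ?_, ?_⟩
  · simp only [AN3_P0, hz]
    rw [ha, hb]
    show ip (rot v0) (dr m x0 (g • x0)) = 0
    rw [h2']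
    simp only [ip, rot]
    ring
  · simp only [AN3_Q0, hz]
    rw [ha, hb]
    show ip (rot v0) (rot (dr m x0 (g • x0))) = 1
    rw [h2']
    simp only [ip, rot]
    linarith
  · simp only [AN3_P1, hz]
    rw [ha, hb]
    show ip (Rg m g x0 (rot v0)) (ar m x0 (g • x0)) = 0
    rw [h3', Rg_ip hX hm]
    simp only [ip, rot]
    ring
  · simp only [AN3_Q1, hz]
    rw [ha, hb]
    show ip (Rg m g x0 (rot v0)) (rot (ar m x0 (g • x0))) = 1
    rw [h3', ← Rg_rot hX hO hm, Rg_ip hX hm]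
    simp only [ip, rot]
    linarith

theorem Fd_zero (hX : Surface Γ D) (hO : Ori Γ) {m : Pl → Co} (hm : HM Γ m) {g : Γ}
    {x0 v0 : Pl} {l : ℝ} (hA : Axis m g x0 v0 l) :
    Fd m g x0 v0 0 = l ∧ Fd1 m g x0 v0 0 = 0 ∧ dr m x0 (g • x0) = v0 := by
  obtain ⟨h1, h2, h3, h4, h5, h6, h7⟩ := AN3_at0 hX hO hm hA rfl rfl
  have hx := AN3_X hX hO hm g x0 v0 0 rfl rfl
  have hz : ∀ p, gfl m 0 p = p := (gfl_isFlow hX hm).zero
  refine ⟨?_, ?_, h2⟩
  · rw [hx.2.2.1, hz, hz]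
    exact h1
  · rw [hx.2.2.2, h4, h6, sub_zero]

theorem AN3_ne (hX : Surface Γ D) (hO : Ori Γ) {m : Pl → Co} (hm : HM Γ m) {g : Γ}
    {x0 v0 : Pl} {l : ℝ} (hA : Axis m g x0 v0 l) (y : ℝ) {a b : Pl × Pl}
    (ha : a = (x0, rot v0)) (hb : b = (g • x0, Rg m g x0 (rot v0))) :
    (gfl m y a).1 ≠ (gfl m y b).1 ∧ eu a.2 = 1 ∧ eu b.2 = 1 := by
  have hx := AN3_X hX hO hm g x0 v0 y ha hb
  refine ⟨?_, ?_, ?_⟩
  · rw [← hx.2.1, ← hx.1]
    exact fun h => (Axis_ne hX hO hm hA).2 _ h.symm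
  · rw [ha]
    show eu (rot v0) = 1
    rw [AN3_eu_rot, hA.unit]
  · rw [hb]
    show eu (Rg m g x0 (rot v0)) = 1
    rw [AN3_eu_Rg hX hm, AN3_eu_rot, hA.unit]

theorem Fd_deriv (hX : Surface Γ D) (hO : Ori Γ) {m : Pl → Co} (hm : HM Γ m) {g : Γ}
    {x0 v0 : Pl} {l : ℝ} (hA : Axis m g x0 v0 l) (y : ℝ) :
    HasDerivAt (Fd m g x0 v0) (Fd1 m g x0 v0 y) y := by
  obtain ⟨hne, hua, hub⟩ := AN3_ne hX hO hm hA y rfl rfl
  have h := (AN3_pair hX hm hua hub y hne rfl rfl rfl rfl).1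
  have hf : Fd m g x0 v0 = fun s => ds m (gfl m s (x0, rot v0)).1
      (gfl m s (g • x0, Rg m g x0 (rot v0))).1 := by
    funext s
    exact (AN3_X hX hO hm g x0 v0 s rfl rfl).2.2.1
  rw [hf, (AN3_X hX hO hm g x0 v0 y rfl rfl).2.2.2]
  exact h

theorem Fd_second (hX : Surface Γ D) (hO : Ori Γ) {m : Pl → Co} (hm : HM Γ m) {g : Γ}
    {x0 v0 : Pl} {l : ℝ} (hA : Axis m g x0 v0 l) :
    HasDerivAt (Fd1 m g x0 v0) ((trM m x0 v0 l - 2) / JB m x0 v0 l) 0 := by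
  obtain ⟨hne, hua, hub⟩ := AN3_ne hX hO hm hA 0 rfl rfl
  obtain ⟨h1, h2, h3, h4, h5, h6, h7⟩ := AN3_at0 hX hO hm hA rfl rfl
  have hz : ∀ p, gfl m 0 p = p := (gfl_isFlow hX hm).zero
  have hd : l = ds m (gfl m 0 (x0, rot v0)).1 (gfl m 0 (g • x0, Rg m g x0 (rot v0))).1 := by
    rw [hz, hz]
    exact h1.symm
  have hJ : (gfl m 0 (x0, rot v0)).1 = x0 ∧ dr m (gfl m 0 (x0, rot v0)).1
      (gfl m 0 (g • x0, Rg m g x0 (rot v0))).1 = v0 := by
    rw [hz, hz]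
    exact ⟨rfl, h2⟩
  have hp := AN3_pair hX hm hua hub 0 hne hd (A := JA m x0 v0 l) (B := JB m x0 v0 l)
    (B' := deriv (JB m x0 v0) l) (by rw [hJ.2, hJ.1]) (by rw [hJ.2, hJ.1]) (by rw [hJ.2, hJ.1])
  have hf : Fd1 m g x0 v0 = fun s => AN3_P1 m (x0, rot v0) (g • x0, Rg m g x0 (rot v0)) s -
      AN3_P0 m (x0, rot v0) (g • x0, Rg m g x0 (rot v0)) s := by
    funext s
    exact (AN3_X hX hO hm g x0 v0 s rfl rfl).2.2.2
  rw [hf]
  refine (hp.2.2.1.sub hp.2.1).congr_deriv ?_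
  rw [h5, h7, trM]
  ring

theorem Fd_neg (hX : Surface Γ D) (hO : Ori Γ) {m : Pl → Co} (hm : HM Γ m) {g : Γ}
    {x0 v0 : Pl} {l : ℝ} (hA : Axis m g x0 v0 l) (y : ℝ) :
    Fd m g⁻¹ x0 (-v0) y = Fd m g x0 v0 (-y) ∧ Fd1 m g⁻¹ x0 (-v0) y = -Fd1 m g x0 v0 (-y) := by
  have h0 : ∀ y, Fd m g⁻¹ x0 (-v0) y = Fd m g x0 v0 (-y) := by
    intro y
    have hx : Xp m x0 (-v0) y = Xp m x0 v0 (-y) := by
      simp only [Xp]
      congr 1
      simp [rot]
    simp only [Fd]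
    rw [hx]
    have h := (ds_deck hX hO hm g (Xp m x0 v0 (-y)) (g⁻¹ • Xp m x0 v0 (-y))).1
    rw [smul_inv_smul] at h
    rw [← h, ds_comm hX hm]
  refine ⟨h0 y, ?_⟩
  have h1 := Fd_deriv hX hO hm (Axis_inv hX hO hm hA) y
  have h2 : HasDerivAt (fun y => Fd m g x0 v0 (-y)) (-Fd1 m g x0 v0 (-y)) y := by
    have h3 := (Fd_deriv hX hO hm hA (-y)).comp y (hasDerivAt_neg y)
    refine h3.congr_deriv ?_
    ring
  have h3 : Fd m g⁻¹ x0 (-v0) = fun y => Fd m g x0 v0 (-y) := funext h0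
  rw [h3] at h1
  exact h1.unique h2

theorem AN3_data (hX : Surface Γ D) (hO : Ori Γ) {m : Pl → Co} (hm : HM Γ m) {c0 c1 : ℝ}
    (hc0 : ∀ γ : Γ, γ ≠ 1 → ∀ x : Pl, c0 ≤ eu (Vx m x (γ • x)))
    (hc1 : ∀ (x v : Pl), eu v = 1 → ∀ t, c0 ≤ t →
      c1 * JB m x v t ≤ JA m x v t - 1 ∧ c1 * JB m x v t ≤ deriv (JB m x v) t - 1)
    {g : Γ} {x0 v0 : Pl} {l : ℝ} (hA : Axis m g x0 v0 l) (y : ℝ) {a b : Pl × Pl}
    (ha : a = (x0, rot v0)) (hb : b = (g • x0, Rg m g x0 (rot v0))) :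
    ∃ A B B' : ℝ, 0 < B ∧ c1 * B ≤ A - 1 ∧ c1 * B ≤ B' - 1 ∧
      HasDerivAt (AN3_P0 m a b)
        ((AN3_Q0 m a b y * AN3_Q1 m a b y - AN3_Q0 m a b y ^ 2 * A) / B) y ∧
      HasDerivAt (AN3_P1 m a b)
        ((AN3_Q1 m a b y ^ 2 * B' - AN3_Q0 m a b y * AN3_Q1 m a b y) / B) y ∧
      AN3_P0 m a b y ^ 2 + AN3_Q0 m a b y ^ 2 = 1 ∧
      AN3_P1 m a b y ^ 2 + AN3_Q1 m a b y ^ 2 = 1 := by
  obtain ⟨hne, hua, hub⟩ := AN3_ne hX hO hm hA y ha hb
  have hp := AN3_pair hX hm hua hub y hne rfl rfl rfl rfl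
  have hv1 : eu (dr m (gfl m y a).1 (gfl m y b).1) = 1 := dr_unit hX hm hne
  have hdpos : 0 < ds m (gfl m y a).1 (gfl m y b).1 := ds_pos hX hm hne
  have hx := AN3_X hX hO hm g x0 v0 y ha hb
  have hd0 : c0 ≤ ds m (gfl m y a).1 (gfl m y b).1 := by
    rw [← hx.2.1, ← hx.1]
    exact hc0 g (Axis_ne hX hO hm hA).1 _
  obtain ⟨hc2, hc3⟩ := hc1 (gfl m y a).1 _ hv1 _ hd0
  exact ⟨_, _, _, lt_of_lt_of_le hdpos (JB_ge hX hm hv1 hdpos.le).1, hc2, hc3, hp.2.1,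
    hp.2.2.1, hp.2.2.2.1, hp.2.2.2.2⟩

theorem AN3_sign {f f' : ℝ → ℝ} (hf : ∀ x, HasDerivAt f (f' x) x) (h0 : f 0 = 0)
    (hb : ∀ x, 0 ≤ x → f x = 0 → f' x < 0) : ∀ x, 0 ≤ x → f x ≤ 0 := by
  intro x hx
  have h := image_le_of_deriv_right_lt_deriv_boundary (f := f) (f' := f') (a := 0) (b := x)
    (fun z _ => (hf z).continuousAt.continuousWithinAt) (fun z _ => (hf z).hasDerivWithinAt)
    (B := fun _ => 0) (B' := fun _ => 0) (by simp [h0]) (fun z => hasDerivAt_const z 0)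
    (fun z hz h => hb z hz.1 h)
  exact h ⟨hx, le_refl x⟩

theorem AN3_half (hX : Surface Γ D) (hO : Ori Γ) {m : Pl → Co} (hm : HM Γ m) {c0 c1 : ℝ}
    (hcp : 0 < c1)
    (hc0 : ∀ γ : Γ, γ ≠ 1 → ∀ x : Pl, c0 ≤ eu (Vx m x (γ • x)))
    (hc1 : ∀ (x v : Pl), eu v = 1 → ∀ t, c0 ≤ t →
      c1 * JB m x v t ≤ JA m x v t - 1 ∧ c1 * JB m x v t ≤ deriv (JB m x v) t - 1)
    {g : Γ} {x0 v0 : Pl} {l : ℝ} (hA : Axis m g x0 v0 l) {y : ℝ} (hy : 0 ≤ y) :
    min (c1 * y) 1 ≤ Fd1 m g x0 v0 y ∧ Fd1 m g x0 v0 y ≤ 2 := by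
  obtain ⟨a, ha⟩ : ∃ a : Pl × Pl, a = (x0, rot v0) := ⟨_, rfl⟩
  obtain ⟨b, hb⟩ : ∃ b : Pl × Pl, b = (g • x0, Rg m g x0 (rot v0)) := ⟨_, rfl⟩
  obtain ⟨_, _, _, hp0, hq0, hp1, hq1⟩ := AN3_at0 hX hO hm hA ha hb
  have hdat := fun y => AN3_data hX hO hm hc0 hc1 hA y ha hb
  have hfd : ∀ y, Fd1 m g x0 v0 y = AN3_P1 m a b y - AN3_P0 m a b y :=
    fun y => (AN3_X hX hO hm g x0 v0 y ha hb).2.2.2
  have hs0 : ∀ y, 0 ≤ y → AN3_P0 m a b y ≤ 0 := by
    refine AN3_sign (f' := deriv (AN3_P0 m a b)) (fun y => ?_) hp0 (fun y _ h => ?_)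
    · obtain ⟨A, B, B', h1, h2, h3, h4, h5, h6, h7⟩ := hdat y
      exact h4.differentiableAt.hasDerivAt
    · obtain ⟨A, B, B', h1, h2, h3, h4, h5, h6, h7⟩ := hdat y
      rw [h4.deriv]
      rw [h] at h6
      refine div_neg_of_neg_of_pos ?_ h1
      have h8 : 0 < c1 * B := mul_pos hcp h1
      have h9 : AN3_Q0 m a b y ^ 2 = 1 := by linarith
      have h10 : AN3_Q0 m a b y * AN3_Q1 m a b y ≤ 1 := by
        nlinarith [sq_nonneg (AN3_Q0 m a b y - AN3_Q1 m a b y), sq_nonneg (AN3_P1 m a b y)]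
      rw [h9]
      linarith
  have hs1 : ∀ y, 0 ≤ y → 0 ≤ AN3_P1 m a b y := by
    intro z hz
    have h := AN3_sign (f := fun y => -AN3_P1 m a b y) (f' := fun y => -deriv (AN3_P1 m a b) y)
      (fun y => ?_) (by simp [hp1]) (fun y _ h => ?_) z hz
    · exact neg_nonpos.mp h
    · obtain ⟨A, B, B', h1, h2, h3, h4, h5, h6, h7⟩ := hdat y
      exact h5.differentiableAt.hasDerivAt.neg
    · obtain ⟨A, B, B', h1, h2, h3, h4, h5, h6, h7⟩ := hdat y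
      rw [h5.deriv]
      have h' : AN3_P1 m a b y = 0 := neg_eq_zero.mp h
      rw [h'] at h7
      have h8 : 0 < c1 * B := mul_pos hcp h1
      have h9 : AN3_Q1 m a b y ^ 2 = 1 := by linarith
      have h10 : AN3_Q0 m a b y * AN3_Q1 m a b y ≤ 1 := by
        nlinarith [sq_nonneg (AN3_Q0 m a b y - AN3_Q1 m a b y), sq_nonneg (AN3_P0 m a b y)]
      rw [h9]
      have h11 : 0 < (1 * B' - AN3_Q0 m a b y * AN3_Q1 m a b y) / B := by
        refine div_pos ?_ h1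
        linarith
      linarith
  have hD : ∀ y, ∃ E, HasDerivAt (Fd1 m g x0 v0) E y ∧ 0 ≤ E ∧
      (0 ≤ y → c1 * (2 - Fd1 m g x0 v0 y ^ 2) ≤ E) := by
    intro y
    obtain ⟨A, B, B', h1, h2, h3, h4, h5, h6, h7⟩ := hdat y
    have hf : Fd1 m g x0 v0 = fun s => AN3_P1 m a b s - AN3_P0 m a b s := funext hfd
    have hE : (AN3_Q1 m a b y ^ 2 * B' - AN3_Q0 m a b y * AN3_Q1 m a b y) / B -
        (AN3_Q0 m a b y * AN3_Q1 m a b y - AN3_Q0 m a b y ^ 2 * A) / B =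
        (AN3_Q1 m a b y ^ 2 * (B' - 1) + AN3_Q0 m a b y ^ 2 * (A - 1) +
          (AN3_Q0 m a b y - AN3_Q1 m a b y) ^ 2) / B := by
      ring
    have hcB : 0 < c1 * B := mul_pos hcp h1
    have hq : c1 * (AN3_Q1 m a b y ^ 2 + AN3_Q0 m a b y ^ 2) ≤
        (AN3_Q1 m a b y ^ 2 * (B' - 1) + AN3_Q0 m a b y ^ 2 * (A - 1) +
          (AN3_Q0 m a b y - AN3_Q1 m a b y) ^ 2) / B := by
      rw [le_div_iff₀ h1]
      have e1 := mul_le_mul_of_nonneg_left h3 (sq_nonneg (AN3_Q1 m a b y))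
      have e2 := mul_le_mul_of_nonneg_left h2 (sq_nonneg (AN3_Q0 m a b y))
      have e3 := sq_nonneg (AN3_Q0 m a b y - AN3_Q1 m a b y)
      nlinarith
    refine ⟨_, by rw [hf]; exact (h5.sub h4), ?_, fun hy => ?_⟩
    · rw [hE]
      refine le_trans ?_ hq
      positivity
    · rw [hE]
      refine le_trans ?_ hq
      refine mul_le_mul_of_nonneg_left ?_ hcp.le
      rw [hfd]
      have e1 := hs0 y hy
      have e2 := hs1 y hy
      nlinarith [mul_nonneg (neg_nonneg.mpr e1) e2]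
  have hmono : Monotone (Fd1 m g x0 v0) := by
    refine monotone_of_deriv_nonneg (fun y => ?_) (fun y => ?_)
    · obtain ⟨E, h1, h2, h3⟩ := hD y
      exact h1.differentiableAt
    · obtain ⟨E, h1, h2, h3⟩ := hD y
      rw [h1.deriv]
      exact h2
  have h00 : Fd1 m g x0 v0 0 = 0 := by rw [hfd, hp0, hp1, sub_zero]
  refine ⟨?_, ?_⟩
  · by_cases h1 : 1 ≤ Fd1 m g x0 v0 y
    · exact le_trans (min_le_right _ _) h1
    · push Not at h1
      refine le_trans (min_le_left _ _) ?_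
      have hM : MonotoneOn (fun s => Fd1 m g x0 v0 s - c1 * s) (Icc 0 y) := by
        refine monotoneOn_of_deriv_nonneg (convex_Icc 0 y) ?_ ?_ ?_
        · intro s _
          obtain ⟨E, e1, e2, e3⟩ := hD s
          exact (e1.continuousAt.sub (by fun_prop)).continuousWithinAt
        · intro s _
          obtain ⟨E, e1, e2, e3⟩ := hD s
          exact (e1.differentiableAt.sub (by fun_prop)).differentiableWithinAt
        · intro s hs
          rw [interior_Icc] at hs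
          obtain ⟨E, e1, e2, e3⟩ := hD s
          have e4 : HasDerivAt (fun s => Fd1 m g x0 v0 s - c1 * s) (E - c1 * 1) s :=
            e1.sub ((hasDerivAt_id s).const_mul c1)
          rw [e4.deriv]
          have e5 := e3 hs.1.le
          have e6 : Fd1 m g x0 v0 s ≤ Fd1 m g x0 v0 y := hmono hs.2.le
          have e7 : Fd1 m g x0 v0 0 ≤ Fd1 m g x0 v0 s := hmono hs.1.le
          rw [h00] at e7
          have e8 : Fd1 m g x0 v0 s ^ 2 ≤ 1 := by nlinarith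
          nlinarith
      have h2 := hM (left_mem_Icc.mpr hy) (right_mem_Icc.mpr hy) hy
      simp only [h00, mul_zero, sub_zero] at h2
      linarith
  · obtain ⟨A, B, B', h1, h2, h3, h4, h5, h6, h7⟩ := hdat y
    rw [hfd]
    have e1 : AN3_P1 m a b y ≤ 1 := by nlinarith [sq_nonneg (AN3_Q1 m a b y)]
    have e2 : -1 ≤ AN3_P0 m a b y := by nlinarith [sq_nonneg (AN3_Q0 m a b y)]
    linarith

theorem Fd_low (hX : Surface Γ D) (hO : Ori Γ) {m : Pl → Co} (hm : HM Γ m) :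
    ∃ c > 0, ∀ (g : Γ) (x0 v0 : Pl) (l : ℝ), Axis m g x0 v0 l → ∀ y : ℝ,
      (0 ≤ y → min (c * y) 1 ≤ Fd1 m g x0 v0 y) ∧ (y ≤ 0 → Fd1 m g x0 v0 y ≤ -min (c * (-y)) 1) := by
  obtain ⟨c0, hc0p, hc0⟩ := displ_pos hX hO hm
  obtain ⟨c1, hc1p, hc1⟩ := J_low hX hm hc0p
  refine ⟨c1, hc1p, fun g x0 v0 l hA y => ⟨fun hy => ?_, fun hy => ?_⟩⟩
  · exact (AN3_half hX hO hm hc1p hc0 hc1 hA hy).1
  · have h1 := (AN3_half hX hO hm hc1p hc0 hc1 (Axis_inv hX hO hm hA) (neg_nonneg.mpr hy)).1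
    rw [(Fd_neg hX hO hm hA (-y)).2, neg_neg] at h1
    linarith

/-- Consequences: growth of the displacement in both directions, `trM > 2`. -/
theorem Fd_growth (hX : Surface Γ D) (hO : Ori Γ) {m : Pl → Co} (hm : HM Γ m) :
    ∃ C : ℝ, ∀ (g : Γ) (x0 v0 : Pl) (l : ℝ), Axis m g x0 v0 l → 2 < trM m x0 v0 l ∧ 1 ≤ C * l ∧
      ∀ y : ℝ, |y| ≤ Fd m g x0 v0 y + C ∧ l ≤ Fd m g x0 v0 y ∧ Fd m g x0 v0 y ≤ l + 2 * |y| := by
  obtain ⟨c0, hc0p, hc0⟩ := displ_pos hX hO hm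
  obtain ⟨c1, hc1p, hc1⟩ := J_low hX hm hc0p
  have hl : ∀ (g : Γ) (x0 v0 : Pl) (l : ℝ), Axis m g x0 v0 l → c0 ≤ l := by
    intro g x0 v0 l hA
    have h1 := (AN3_at0 hX hO hm hA rfl rfl).1
    rw [← h1]
    exact hc0 g (Axis_ne hX hO hm hA).1 _
  have hpos : ∀ (g : Γ) (x0 v0 : Pl) (l : ℝ), Axis m g x0 v0 l → ∀ y : ℝ, 0 ≤ y →
      y ≤ Fd m g x0 v0 y + 1 / c1 ∧ l ≤ Fd m g x0 v0 y ∧ Fd m g x0 v0 y ≤ l + 2 * y := by
    intro g x0 v0 l hA
    have hH := fun y (hy : 0 ≤ y) => AN3_half hX hO hm hc1p hc0 hc1 hA hy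
    have hdv := Fd_deriv hX hO hm hA
    have h0 := (Fd_zero hX hO hm hA).1
    have hlow : ∀ y, 0 ≤ y → l ≤ Fd m g x0 v0 y := by
      intro y hy
      have hM : MonotoneOn (Fd m g x0 v0) (Icc 0 y) := by
        refine monotoneOn_of_deriv_nonneg (convex_Icc 0 y)
          (fun s _ => (hdv s).continuousAt.continuousWithinAt)
          (fun s _ => (hdv s).differentiableAt.differentiableWithinAt) ?_
        intro s hs
        rw [interior_Icc] at hs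
        rw [(hdv s).deriv]
        refine le_trans ?_ (hH s hs.1.le).1
        exact le_min (mul_nonneg hc1p.le hs.1.le) zero_le_one
      have h2 := hM (left_mem_Icc.mpr hy) (right_mem_Icc.mpr hy) hy
      rw [h0] at h2
      exact h2
    intro y hy
    refine ⟨?_, hlow y hy, ?_⟩
    · by_cases h1 : y ≤ 1 / c1
      · have h2 := hlow y hy
        have h3 := hA.pos
        linarith
      · push Not at h1
        have hM : MonotoneOn (fun s => Fd m g x0 v0 s - s) (Icc (1 / c1) y) := by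
          refine monotoneOn_of_deriv_nonneg (convex_Icc _ y)
            (fun s _ => ((hdv s).continuousAt.sub continuousAt_id).continuousWithinAt)
            (fun s _ => ((hdv s).differentiableAt.sub
              differentiableAt_id).differentiableWithinAt) ?_
          intro s hs
          rw [interior_Icc] at hs
          have e4 : HasDerivAt (fun s => Fd m g x0 v0 s - s) (Fd1 m g x0 v0 s - 1) s :=
            (hdv s).sub (hasDerivAt_id s)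
          rw [e4.deriv]
          have e5 : 0 ≤ s := le_trans (by positivity) hs.1.le
          have e6 := (hH s e5).1
          have e7 : 1 ≤ c1 * s := by
            have := hs.1
            rw [div_lt_iff₀ hc1p] at this
            linarith
          rw [min_eq_right e7] at e6
          linarith
        have h2 := hM (left_mem_Icc.mpr h1.le) (right_mem_Icc.mpr h1.le) h1.le
        have h3 := hlow (1 / c1) (by positivity)
        have h4 := hA.pos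
        simp only at h2
        linarith
    · have hM : MonotoneOn (fun s => 2 * s - Fd m g x0 v0 s) (Icc 0 y) := by
        have hd2 : ∀ s, HasDerivAt (fun s => 2 * s - Fd m g x0 v0 s)
            (2 * 1 - Fd1 m g x0 v0 s) s := fun s =>
          ((hasDerivAt_id s).const_mul 2).sub (hdv s)
        refine monotoneOn_of_deriv_nonneg (convex_Icc 0 y)
          (fun s _ => (hd2 s).continuousAt.continuousWithinAt)
          (fun s _ => (hd2 s).differentiableAt.differentiableWithinAt) ?_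
        intro s hs
        rw [interior_Icc] at hs
        rw [(hd2 s).deriv]
        have := (hH s hs.1.le).2
        linarith
      have h2 := hM (left_mem_Icc.mpr hy) (right_mem_Icc.mpr hy) hy
      simp only [h0] at h2
      linarith
  refine ⟨1 / c1 + 1 / c0, fun g x0 v0 l hA => ⟨?_, ?_, fun y => ?_⟩⟩
  · have h1 := hc1 x0 v0 hA.unit l (hl g x0 v0 l hA)
    have h2 := (JB_ge hX hm (x := x0) hA.unit hA.pos.le).1
    have h3 : 0 < c1 * JB m x0 v0 l := mul_pos hc1p (lt_of_lt_of_le hA.pos h2)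
    rw [trM]
    linarith
  · have h1 := hl g x0 v0 l hA
    have h2 : 1 ≤ 1 / c0 * l := by
      rw [div_mul_eq_mul_div, one_mul, le_div_iff₀ hc0p]
      linarith
    have h3 : 0 ≤ 1 / c1 * l := mul_nonneg (by positivity) hA.pos.le
    nlinarith
  · have hc0' : 0 < 1 / c0 := by positivity
    rcases le_total 0 y with hy | hy
    · obtain ⟨h1, h2, h3⟩ := hpos g x0 v0 l hA y hy
      rw [abs_of_nonneg hy]
      exact ⟨by linarith, h2, h3⟩
    · obtain ⟨h1, h2, h3⟩ := hpos g⁻¹ x0 (-v0) l (Axis_inv hX hO hm hA) (-y)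
        (neg_nonneg.mpr hy)
      rw [(Fd_neg hX hO hm hA (-y)).1, neg_neg] at h1 h2 h3
      rw [abs_of_nonpos hy]
      exact ⟨by linarith, h2, h3⟩

end BR
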