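import Pool.Agent.LibBR73.AN5a
import Pool.Agent.LibBR73.AN3
import Pool.Agent.LibBR70.H1n
import Pool.Agent.LibBR70.H1o
import Pool.Agent.LibBR70.JB6

/-! Row AN5b: the squared displacement and the leading coefficient: exponential bounds. 50 min.
Plan. `B0_deck`: `Vx_deck`, `Rg_smul`; for `Vx m x y = r • u ≠ 0`, `eu u = 1`, `r > 0`:
`dt (mE m (x, r • u)) = (JB m x u r / r) ^ 2` (`mE_dt`) and `JB_deck`; for `Vx = 0`: `mE_zero`.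
`LB_Fd`: at the index `(i, y)`, `i = ((g, (x0, v0)), l)`, let `η = shf hX (Xp m x0 v0 y)`, `p y' = η⁻¹ • Xp m x0 v0 y'`,
`γ = η⁻¹ * g * η`. For all `y'`: `Fd y' ^ 2 = sg (Vx m (p y') (γ • p y'))` (`eu_Vx_deck`, `eu v ^ 2 = sg v`).
`p` is `EB_Xp` pulled back along `(i, y) ↦ ((x0, v0), y)` (`|y| ≤ l + |y|`), and `(x, y) ↦ Vx m x (γ • y)` is `EB_Vx`
pulled back to the points `((p y, p y), γ)`, where `eu (Vx m (p y) (γ • p y)) = Fd y ≤ l + 2 |y|`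
(`Fd_growth`); then `EB_comp`, `EB_prod`, `EB_mul`, `EB_add` (components by `EB_clm`).
`LB_B0`: `B0 m (Xp y') (g • Xp y') = B0 m (p y') (γ • p y') = (wt (Gx m (p y')) V) ^ (-1/2)`,
`V = Vx m (p y') (γ • p y')`, `wt = √(dt (mE m (p y', V))) = dt (..) ^ (1/2)`, so `B0 = dt (..) ^ (-1/4)`
(`mE_pos`: `1 ≤ dt`); `mE` is `RB_mE` with `RB_iff`, pulled back to the points `(p y, V y)`,
`‖V‖ ≤ eu V ≤ l + 2 |y|`; then `EB_comp` and `EB_rpow` (`|dt|⁻¹ ≤ 1`). -/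

open MeasureTheory Set Filter Topology
open scoped ContDiff

namespace BR

open BGS

variable {Γ : Type} [Group Γ] [MulAction Γ Pl] {D : Set Pl}

private theorem AN5b_norm (v : Pl) : ‖v‖ ≤ eu v := by
  unfold eu
  apply Real.le_sqrt_of_sq_le
  rw [Prod.norm_def]
  rcases max_cases ‖v.1‖ ‖v.2‖ with h | h
  · rw [h.1, Real.norm_eq_abs, sq_abs]
    nlinarith [sq_nonneg v.2]
  · rw [h.1, Real.norm_eq_abs, sq_abs]
    nlinarith [sq_nonneg v.1]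

private theorem AN5b_eu_sq (v : Pl) : eu v ^ 2 = ip v v := by
  unfold eu ip
  rw [Real.sq_sqrt (by positivity)]
  ring

private theorem AN5b_eu0 (v : Pl) : 0 ≤ eu v := Real.sqrt_nonneg _

private theorem AN5b_Rg_eu (hX : Surface Γ D) {m : Pl → Co} (hm : HM Γ m) (γ : Γ) (x v : Pl) :
    eu (Rg m γ x v) = eu v := by
  have h1 : eu (Rg m γ x v) ^ 2 = eu v ^ 2 := by
    rw [AN5b_eu_sq, AN5b_eu_sq, Rg_ip hX hm]
  exact (sq_eq_sq₀ (AN5b_eu0 _) (AN5b_eu0 _)).1 h1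

private theorem AN5b_dir {v : Pl} (hv : v ≠ 0) : ∃ (r : ℝ) (u : Pl), 0 < r ∧ eu u = 1 ∧
    v = r • u := by
  have h1 : 0 < eu v := by
    rcases (AN5b_eu0 v).eq_or_lt with h | h
    · exfalso
      apply hv
      have h2 := AN5b_norm v
      rw [← h] at h2
      exact norm_le_zero_iff.1 h2
    · exact h
  refine ⟨eu v, (eu v)⁻¹ • v, h1, ?_, ?_⟩
  · have h3 : eu ((eu v)⁻¹ • v) ^ 2 = 1 := by
      rw [AN5b_eu_sq]
      have h4 : ip ((eu v)⁻¹ • v) ((eu v)⁻¹ • v) = ((eu v)⁻¹) ^ 2 * ip v v := by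
        unfold ip
        simp only [Prod.smul_fst, Prod.smul_snd, smul_eq_mul]
        ring
      rw [h4, ← AN5b_eu_sq, ← mul_pow, inv_mul_cancel₀ h1.ne', one_pow]
    have h5 : eu ((eu v)⁻¹ • v) ^ 2 = 1 ^ 2 := by rw [h3, one_pow]
    exact (sq_eq_sq₀ (AN5b_eu0 _) zero_le_one).1 h5
  · rw [smul_smul, mul_inv_cancel₀ h1.ne', one_smul]

theorem B0_deck (hX : Surface Γ D) (hO : Ori Γ) {m : Pl → Co} (hm : HM Γ m) (γ : Γ) (x y : Pl) :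
    B0 m (γ • x) (γ • y) = B0 m x y := by
  unfold B0 wt Gx
  rw [Vx_deck hX hO hm γ x y]
  have key : dt (mE m (γ • x, Rg m γ x (Vx m x y))) = dt (mE m (x, Vx m x y)) := by
    by_cases hV : Vx m x y = 0
    · have h0 : Rg m γ x (0 : Pl) = 0 := by
        have h1 := Rg_smul hX hm γ x 0 0
        rwa [zero_smul, zero_smul] at h1
      rw [hV, h0, mE_zero hX hm, mE_zero hX hm]
    · obtain ⟨r, u, hr, hu, hV'⟩ := AN5b_dir hV
      rw [hV', Rg_smul hX hm, mE_dt hX hm hu hr,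
        mE_dt hX hm (by rw [AN5b_Rg_eu hX hm, hu]) hr, JB_deck hX hO hm γ hu]
  rw [key]

theorem B0_smooth (hX : Surface Γ D) {m : Pl → Co} (hm : HM Γ m) :
    ContDiff ℝ ∞ (fun p : Pl × Pl => B0 m p.1 p.2) := by
  have h1 : ContDiff ℝ ∞ (fun p : Pl × Pl => mE m (p.1, Vx m p.1 p.2)) :=
    (mE_smooth hX hm).comp (contDiff_fst.prodMk (Vx_smooth hX hm))
  have h2 : ContDiff ℝ ∞ (fun p : Pl × Pl => dt (mE m (p.1, Vx m p.1 p.2))) := by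
    unfold dt
    exact (h1.fst.mul h1.snd.snd).sub (h1.snd.fst.pow 2)
  have h3 : ∀ p : Pl × Pl, dt (mE m (p.1, Vx m p.1 p.2)) ≠ 0 := fun p => by
    have := (mE_pos hX hm (p.1, Vx m p.1 p.2)).2
    linarith
  have h4 : ContDiff ℝ ∞ (fun p : Pl × Pl => √(dt (mE m (p.1, Vx m p.1 p.2)))) := h2.sqrt h3
  exact h4.rpow_const_of_ne fun p => by
    have := (mE_pos hX hm (p.1, Vx m p.1 p.2)).2
    exact (Real.sqrt_pos.2 (by linarith)).ne'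

/-- the deck transformation at an index -/
private noncomputable def AN5b_e (hX : Surface Γ D) {m : Pl → Co} (q : AxI Γ D m × ℝ) : Γ :=
  shf hX (Xp m q.1.1.1.2.1 q.1.1.1.2.2 q.2)

/-- the perpendicular, moved back to `D` -/
private noncomputable def AN5b_p (hX : Surface Γ D) {m : Pl → Co} (q : AxI Γ D m × ℝ)
    (y : ℝ) : Pl := (AN5b_e hX q)⁻¹ • Xp m q.1.1.1.2.1 q.1.1.1.2.2 y

/-- the conjugated deck transformation -/
private noncomputable def AN5b_c (hX : Surface Γ D) {m : Pl → Co} (q : AxI Γ D m × ℝ) : Γ :=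
  (AN5b_e hX q)⁻¹ * q.1.1.1.1 * AN5b_e hX q

/-- the size of an index -/
private noncomputable def AN5b_l {m : Pl → Co} (q : AxI Γ D m × ℝ) : ℝ := q.1.1.2 + |q.2|

private theorem AN5b_l0 {m : Pl → Co} (q : AxI Γ D m × ℝ) : 0 ≤ AN5b_l q := by
  have := q.1.2.1.pos
  unfold AN5b_l
  positivity

private theorem AN5b_act (hX : Surface Γ D) {m : Pl → Co} (q : AxI Γ D m × ℝ) (y : ℝ) :
    AN5b_c hX q • AN5b_p hX q y =
      (AN5b_e hX q)⁻¹ • (q.1.1.1.1 • Xp m q.1.1.1.2.1 q.1.1.1.2.2 y) := by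
  unfold AN5b_c AN5b_p
  rw [smul_smul, mul_assoc, mul_inv_cancel, mul_one, mul_smul]

private theorem AN5b_mem (hX : Surface Γ D) {m : Pl → Co} (q : AxI Γ D m × ℝ) :
    AN5b_p hX q q.2 ∈ closure D := shf_mem' hX _

private theorem AN5b_Fd (hX : Surface Γ D) (hO : Ori Γ) {m : Pl → Co} (hm : HM Γ m)
    (q : AxI Γ D m × ℝ) (y : ℝ) :
    eu (Vx m (AN5b_p hX q y) (AN5b_c hX q • AN5b_p hX q y)) =
      Fd m q.1.1.1.1 q.1.1.1.2.1 q.1.1.1.2.2 y := by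
  rw [AN5b_act]
  unfold AN5b_p Fd ds
  rw [eu_Vx_deck hX hO hm]

private theorem AN5b_EBp (hX : Surface Γ D) (hO : Ori Γ) {m : Pl → Co} (hm : HM Γ m) :
    EB (AN5b_l : AxI Γ D m × ℝ → ℝ) (fun q y => AN5b_p hX q y) (fun q => q.2) := by
  have h1 := EB_pull (fun i : U1 D × ℝ => abs_nonneg i.2) (EB_Xp hX hO hm)
    (fun q : AxI Γ D m × ℝ => ((⟨q.1.1.1.2, q.1.2.2, q.1.2.1.unit⟩ : U1 D), q.2))
    (ℓ' := AN5b_l) AN5b_l0 (A := 1) (fun q => by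
      have := q.1.2.1.pos
      unfold AN5b_l
      simp only []
      linarith)
  exact h1

private theorem AN5b_Fle (hX : Surface Γ D) (hO : Ori Γ) {m : Pl → Co} (hm : HM Γ m)
    (q : AxI Γ D m × ℝ) : eu (Vx m (AN5b_p hX q q.2) (AN5b_c hX q • AN5b_p hX q q.2)) ≤
      2 * (1 + AN5b_l q) := by
  obtain ⟨C, hC⟩ := Fd_growth hX hO hm
  rw [AN5b_Fd hX hO hm]
  have h1 := ((hC _ _ _ _ q.1.2.1).2.2 q.2).2.2
  have h2 := q.1.2.1.pos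
  unfold AN5b_l
  linarith

private theorem AN5b_EBV (hX : Surface Γ D) (hO : Ori Γ) {m : Pl → Co} (hm : HM Γ m) :
    EB (AN5b_l : AxI Γ D m × ℝ → ℝ)
      (fun q y => Vx m (AN5b_p hX q y) (AN5b_c hX q • AN5b_p hX q y)) (fun q => q.2) := by
  have h1 := EB_pull (fun i => AN5b_eu0 _) (EB_Vx hX hO hm)
    (fun q : AxI Γ D m × ℝ => ⟨((AN5b_p hX q q.2, AN5b_p hX q q.2), AN5b_c hX q),
      AN5b_mem hX q, AN5b_mem hX q⟩) (ℓ' := AN5b_l) AN5b_l0 (A := 2)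
    (fun q => AN5b_Fle hX hO hm q)
  have h2 := EB_prod AN5b_l0 (AN5b_EBp hX hO hm) (AN5b_EBp hX hO hm)
  exact EB_comp AN5b_l0 (f := fun q y => (AN5b_p hX q y, AN5b_p hX q y)) h1 h2

theorem LB_Fd (hX : Surface Γ D) (hO : Ori Γ) {m : Pl → Co} (hm : HM Γ m) :
    LB (fun i : AxI Γ D m => i.1.2)
      (fun i y => Fd m i.1.1.1 i.1.1.2.1 i.1.1.2.2 y ^ 2) := by
  unfold LB
  have h1 := AN5b_EBV hX hO hm
  have hf := EB_clm AN5b_l0 h1 (ContinuousLinearMap.fst ℝ ℝ ℝ)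
  have hs := EB_clm AN5b_l0 h1 (ContinuousLinearMap.snd ℝ ℝ ℝ)
  have h2 := EB_add AN5b_l0 (EB_mul AN5b_l0 hf hf) (EB_mul AN5b_l0 hs hs)
  have h3 : (fun (q : AxI Γ D m × ℝ) (y : ℝ) =>
      (ContinuousLinearMap.fst ℝ ℝ ℝ) (Vx m (AN5b_p hX q y) (AN5b_c hX q • AN5b_p hX q y)) *
        (ContinuousLinearMap.fst ℝ ℝ ℝ) (Vx m (AN5b_p hX q y) (AN5b_c hX q • AN5b_p hX q y)) +
      (ContinuousLinearMap.snd ℝ ℝ ℝ) (Vx m (AN5b_p hX q y) (AN5b_c hX q • AN5b_p hX q y)) *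
        (ContinuousLinearMap.snd ℝ ℝ ℝ) (Vx m (AN5b_p hX q y) (AN5b_c hX q • AN5b_p hX q y))) =
      fun q y => Fd m q.1.1.1.1 q.1.1.1.2.1 q.1.1.1.2.2 y ^ 2 := by
    funext q y
    rw [← AN5b_Fd hX hO hm q y, AN5b_eu_sq]
    rfl
  rw [h3] at h2
  exact h2

theorem LB_B0 (hX : Surface Γ D) (hO : Ori Γ) {m : Pl → Co} (hm : HM Γ m) :
    LB (fun i : AxI Γ D m => i.1.2) (fun i y => B0 m (Xp m i.1.1.2.1 i.1.1.2.2 y)
      (i.1.1.1 • Xp m i.1.1.2.1 i.1.1.2.2 y)) := by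
  unfold LB
  have h1 := AN5b_EBV hX hO hm
  have hp := AN5b_EBp hX hO hm
  have hmE := EB_pull (fun i => norm_nonneg _) (RB_iff.1 (RB_mE hX hO hm)).2
    (fun q : AxI Γ D m × ℝ => ⟨(AN5b_p hX q q.2,
      Vx m (AN5b_p hX q q.2) (AN5b_c hX q • AN5b_p hX q q.2)), AN5b_mem hX q⟩)
    (ℓ' := AN5b_l) AN5b_l0 (A := 2)
    (fun q => (AN5b_norm _).trans (AN5b_Fle hX hO hm q))
  have h2 := EB_comp AN5b_l0 (f := fun (q : AxI Γ D m × ℝ) y => (AN5b_p hX q y,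
      Vx m (AN5b_p hX q y) (AN5b_c hX q • AN5b_p hX q y))) hmE (EB_prod AN5b_l0 hp h1)
  have c1 := EB_clm AN5b_l0 h2 (ContinuousLinearMap.fst ℝ ℝ (ℝ × ℝ))
  have c2 := EB_clm AN5b_l0 h2 ((ContinuousLinearMap.fst ℝ ℝ ℝ).comp
    (ContinuousLinearMap.snd ℝ ℝ (ℝ × ℝ)))
  have c3 := EB_clm AN5b_l0 h2 ((ContinuousLinearMap.snd ℝ ℝ ℝ).comp
    (ContinuousLinearMap.snd ℝ ℝ (ℝ × ℝ)))
  have h3 := EB_sub AN5b_l0 (EB_mul AN5b_l0 c1 c3) (EB_mul AN5b_l0 c2 c2)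
  have hdt : ∀ c : Co, dt c = c.1 * c.2.2 - c.2.1 * c.2.1 := fun c => by
    unfold dt
    ring
  have h4 := EB_rpow AN5b_l0 h3 (fun q y => by
      have := (mE_pos hX hm (AN5b_p hX q y,
        Vx m (AN5b_p hX q y) (AN5b_c hX q • AN5b_p hX q y))).2
      rw [hdt] at this
      exact lt_of_lt_of_le one_pos this) (C := 1) (fun q => by
      have := (mE_pos hX hm (AN5b_p hX q q.2,
        Vx m (AN5b_p hX q q.2) (AN5b_c hX q • AN5b_p hX q q.2))).2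
      rw [hdt] at this
      rw [one_mul, one_mul]
      refine le_trans (b := (1 : ℝ)) ?_ (Real.one_le_exp (AN5b_l0 q))
      refine inv_le_one_of_one_le₀ ?_
      exact this.trans (le_abs_self _)) (-(1 / 4))
  have h5 : (fun (q : AxI Γ D m × ℝ) (y : ℝ) => B0 m (Xp m q.1.1.1.2.1 q.1.1.1.2.2 y)
      (q.1.1.1.1 • Xp m q.1.1.1.2.1 q.1.1.1.2.2 y)) =
      fun q y => (dt (mE m (AN5b_p hX q y,
        Vx m (AN5b_p hX q y) (AN5b_c hX q • AN5b_p hX q y)))) ^ (-(1 / 4) : ℝ) := by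
    funext q y
    have e1 := B0_deck hX hO hm (AN5b_e hX q)⁻¹ (Xp m q.1.1.1.2.1 q.1.1.1.2.2 y)
      (q.1.1.1.1 • Xp m q.1.1.1.2.1 q.1.1.1.2.2 y)
    rw [← AN5b_act] at e1
    rw [← e1]
    change (√(dt (mE m (AN5b_p hX q y, Vx m (AN5b_p hX q y)
      (AN5b_c hX q • AN5b_p hX q y))))) ^ (-(1 / 2) : ℝ) = _
    have e2 := (mE_pos hX hm (AN5b_p hX q y,
        Vx m (AN5b_p hX q y) (AN5b_c hX q • AN5b_p hX q y))).2
    rw [Real.sqrt_eq_rpow, ← Real.rpow_mul (by linarith)]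
    congr 1
    norm_num
  have h6 : (fun (q : AxI Γ D m × ℝ) (y : ℝ) => B0 m (Xp m q.1.1.1.2.1 q.1.1.1.2.2 y)
      (q.1.1.1.1 • Xp m q.1.1.1.2.1 q.1.1.1.2.2 y)) = fun q y =>
      ((ContinuousLinearMap.fst ℝ ℝ (ℝ × ℝ)) (mE m (AN5b_p hX q y,
        Vx m (AN5b_p hX q y) (AN5b_c hX q • AN5b_p hX q y))) *
        ((ContinuousLinearMap.snd ℝ ℝ ℝ).comp (ContinuousLinearMap.snd ℝ ℝ (ℝ × ℝ)))
          (mE m (AN5b_p hX q y,
        Vx m (AN5b_p hX q y) (AN5b_c hX q • AN5b_p hX q y))) -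
        ((ContinuousLinearMap.fst ℝ ℝ ℝ).comp (ContinuousLinearMap.snd ℝ ℝ (ℝ × ℝ)))
          (mE m (AN5b_p hX q y,
        Vx m (AN5b_p hX q y) (AN5b_c hX q • AN5b_p hX q y))) *
        ((ContinuousLinearMap.fst ℝ ℝ ℝ).comp (ContinuousLinearMap.snd ℝ ℝ (ℝ × ℝ)))
          (mE m (AN5b_p hX q y,
        Vx m (AN5b_p hX q y) (AN5b_c hX q • AN5b_p hX q y)))) ^ (-(1 / 4) : ℝ) := by
    rw [h5]
    funext q y
    rw [hdt]
    rfl
  change EB AN5b_l (fun (q : AxI Γ D m × ℝ) (y : ℝ) => B0 m (Xp m q.1.1.1.2.1 q.1.1.1.2.2 y)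
      (q.1.1.1.1 • Xp m q.1.1.1.2.1 q.1.1.1.2.2 y)) (fun q => q.2)
  rw [h6]
  exact h4

end BR
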