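import Pool.Agent.LibBR73.AN2
import Pool.Agent.LibBR70.H1g
import Pool.Agent.LibBR70.H1e
import Pool.Agent.LibBGR.Per

/-! Row AN8b: integration over the strip `U = Fm '' ([0, l0) × ℝ)` in Fermi coordinates. 35 min.
Plan. `Fm` is injective and smooth (`Fm_bij`, `Fm_smooth`), so `U` is measurable (image of a measurable set under an
injective continuous map: `MeasurableSet.image_of_continuousOn_injOn`) and
`integral_image_eq_integral_abs_det_fderiv_smul`, `integrableOn_image_iff_integrableOn_abs_det_fderiv_smul` give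
the integral of `|det| • (G (Fm p) * √(dt (m (Fm p))))`; `√dt * det = JA > 0` (`Fm_det`, `JA_ge`; so `det > 0`). The set
`Ico 0 l0 ×ˢ univ` and `volume` is a product: `setIntegral_prod` (`Measure.volume_eq_prod`), and
`∫ s in Ico 0 l0 = ∫ s in 0..l0`. `strip_compact`: the integrand is continuous on `[0, l0] × ℝ` (`J_smooth`,
`gfl_smooth`) and vanishes for `|y| > R`, so it is integrable. -/

open MeasureTheory Set Filter Topology
open scoped ContDiff

namespace BR

open BGS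

variable {Γ : Type} [Group Γ] [MulAction Γ Pl] {D : Set Pl}

theorem AN8b_rho_cont {m : Pl → Co} (hm : HM Γ m) : Continuous fun z => √(dt (m z)) := by
  have h := hm.smooth.continuous
  unfold dt
  fun_prop

theorem AN8b_eu_rot (v : Pl) : eu (rot v) = eu v := by
  unfold eu rot
  congr 1
  simp only
  ring

theorem AN8b_cv (hX : Surface Γ D) {m : Pl → Co} (hm : HM Γ m) {x v : Pl} (hv : eu v = 1)
    {S : Set Pl} (hS : MeasurableSet S) (f : Pl → ℝ) :
    ∫ z in Fm m x v '' S, f z * √(dt (m z)) =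
      ∫ p in S, f (Fm m x v p) * JA m (gfl m p.1 (x, v)).1 (rot (gfl m p.1 (x, v)).2) p.2 := by
  rw [integral_image_eq_integral_abs_det_fderiv_smul volume hS
    (f' := fun z => fderiv ℝ (Fm m x v) z)
    (fun z _ => ((Fm_smooth hX hm x v).differentiable (by simp) z).hasFDerivAt.hasFDerivWithinAt)
    (Fm_bij hX hm hv).1.injOn]
  congr 1
  funext p
  have h1 := Fm_det (x0 := x) hX hm hv p rfl
  have h2 : 1 ≤ JA m (gfl m p.1 (x, v)).1 (rot (gfl m p.1 (x, v)).2) p.2 :=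
    JA_ge hX hm (by rw [AN8b_eu_rot, gfl_eu hX hm, hv]) p.2
  have h3 : 0 ≤ √(dt (m (Fm m x v p))) := Real.sqrt_nonneg _
  have h4 : 0 < (fderiv ℝ (Fm m x v) p).det := by
    by_contra h
    rw [not_lt] at h
    have : √(dt (m (Fm m x v p))) * (fderiv ℝ (Fm m x v) p).det ≤ 0 :=
      mul_nonpos_of_nonneg_of_nonpos h3 h
    linarith
  rw [smul_eq_mul, abs_of_pos h4, ← h1]
  ring

theorem AN8b_JA_cont (hX : Surface Γ D) {m : Pl → Co} (hm : HM Γ m) {x v : Pl} (hv : eu v = 1) :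
    Continuous fun p : Pl =>
      JA m (gfl m p.1 (x, v)).1 (rot (gfl m p.1 (x, v)).2) p.2 := by
  have h1 : (fun p : Pl => JA m (gfl m p.1 (x, v)).1 (rot (gfl m p.1 (x, v)).2) p.2) =
      fun p => √(dt (m (Fm m x v p))) * (fderiv ℝ (Fm m x v) p).det := by
    funext p
    rw [Fm_det (x0 := x) hX hm hv p rfl]
  rw [h1]
  have h2 := Fm_smooth hX hm x v
  have h3 : Continuous fun p => (fderiv ℝ (Fm m x v) p).det :=
    ContinuousLinearMap.continuous_det.comp (h2.continuous_fderiv (by simp))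
  exact ((AN8b_rho_cont hm).comp h2.continuous).mul h3

/-- The strip. -/
noncomputable def Us (m : Pl → Co) (x0 v0 : Pl) (l0 : ℝ) : Set Pl :=
  Fm m x0 v0 '' (Ico 0 l0 ×ˢ univ)

theorem Us_meas (hX : Surface Γ D) {m : Pl → Co} (hm : HM Γ m) {x0 v0 : Pl} (hv : eu v0 = 1)
    (l0 : ℝ) : MeasurableSet (Us m x0 v0 l0) :=
  (measurableSet_Ico.prod MeasurableSet.univ).image_of_continuousOn_injOn
    (Fm_smooth hX hm x0 v0).continuous.continuousOn (Fm_bij hX hm hv).1.injOn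

theorem strip_compact (hX : Surface Γ D) {m : Pl → Co} (hm : HM Γ m) {x0 v0 : Pl}
    (hv : eu v0 = 1) (l0 : ℝ) {G : Pl → ℝ} (hG : Continuous G) {R : ℝ}
    (hR : ∀ s y : ℝ, R < |y| → G (Fm m x0 v0 (s, y)) = 0) :
    IntegrableOn (fun z => G z * √(dt (m z))) (Us m x0 v0 l0) := by
  have hK : IsCompact (Fm m x0 v0 '' (Icc 0 l0 ×ˢ Icc (-R) R)) :=
    (isCompact_Icc.prod isCompact_Icc).image (Fm_smooth hX hm x0 v0).continuous
  have hc : Continuous fun z => G z * √(dt (m z)) := hG.mul (AN8b_rho_cont hm)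
  have h1 : IntegrableOn (fun z => G z * √(dt (m z)))
      (Us m x0 v0 l0 ∩ Fm m x0 v0 '' (Icc 0 l0 ×ˢ Icc (-R) R)) :=
    (hc.continuousOn.integrableOn_compact hK).mono_set inter_subset_right
  have h2 : IntegrableOn (fun z => G z * √(dt (m z)))
      (Us m x0 v0 l0 \ Fm m x0 v0 '' (Icc 0 l0 ×ˢ Icc (-R) R)) := by
    refine (integrableOn_zero).congr_fun (fun z hz => ?_)
      ((Us_meas hX hm hv l0).diff hK.measurableSet)
    obtain ⟨⟨⟨s, y⟩, hp, rfl⟩, hz2⟩ := hz
    show (0 : ℝ) = G (Fm m x0 v0 (s, y)) * _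
    rw [hR s y, zero_mul]
    by_contra h
    rw [not_lt, abs_le] at h
    exact hz2 ⟨(s, y), ⟨⟨hp.1.1, hp.1.2.le⟩, h⟩, rfl⟩
  rw [← inter_union_sdiff (Us m x0 v0 l0) (Fm m x0 v0 '' (Icc 0 l0 ×ˢ Icc (-R) R))]
  exact h1.union h2

theorem strip_int (hX : Surface Γ D) {m : Pl → Co} (hm : HM Γ m) {x0 v0 : Pl}
    (hv : eu v0 = 1) {l0 : ℝ} (hl : 0 ≤ l0) {G : Pl → ℝ} (hG : Continuous G) {R : ℝ}
    (hR : ∀ s y : ℝ, R < |y| → G (Fm m x0 v0 (s, y)) = 0) :
    ∫ z in Us m x0 v0 l0, G z * √(dt (m z)) =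
      ∫ s in (0 : ℝ)..l0, ∫ y, G (Fm m x0 v0 (s, y)) *
        JA m (gfl m s (x0, v0)).1 (rot (gfl m s (x0, v0)).2) y := by
  rename' x0 => x, v0 => v, G => F, hG => hF
  unfold Us
  rw [AN8b_cv hX hm hv (measurableSet_Ico.prod MeasurableSet.univ)]
  set G : Pl → ℝ := fun p => F (Fm m x v p) *
    JA m (gfl m p.1 (x, v)).1 (rot (gfl m p.1 (x, v)).2) p.2 with hG
  have hGc : Continuous G :=
    (hF.comp (Fm_smooth hX hm x v).continuous).mul (AN8b_JA_cont hX hm hv)
  have hG0 : ∀ p : Pl, R < |p.2| → G p = 0 := fun p hp => by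
    show F (Fm m x v p) * _ = 0
    rw [show Fm m x v p = Fm m x v (p.1, p.2) from rfl, hR p.1 p.2 hp, zero_mul]
  have hGi : IntegrableOn G (Ico 0 l0 ×ˢ univ) := by
    have h1 : IntegrableOn G (Icc 0 l0 ×ˢ Icc (-R) R) :=
      hGc.continuousOn.integrableOn_compact (isCompact_Icc.prod isCompact_Icc)
    have h2 : IntegrableOn G ((Ico 0 l0 ×ˢ univ) ∩ (univ ×ˢ Icc (-R) R)) :=
      h1.mono_set fun p hp => ⟨⟨hp.1.1.1, hp.1.1.2.le⟩, hp.2.2⟩
    have h3 : IntegrableOn G ((Ico 0 l0 ×ˢ univ) \ (univ ×ˢ Icc (-R) R)) := by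
      refine (integrableOn_zero).congr_fun (fun p hp => ?_)
        ((measurableSet_Ico.prod MeasurableSet.univ).diff
          (MeasurableSet.univ.prod measurableSet_Icc))
      symm
      refine hG0 p ?_
      by_contra h
      rw [not_lt, abs_le] at h
      exact hp.2 ⟨trivial, h⟩
    rw [← inter_union_sdiff (Ico 0 l0 ×ˢ univ) (univ ×ˢ Icc (-R) R : Set Pl)]
    exact h2.union h3
  rw [intervalIntegral.integral_of_le hl, ← integral_Ico_eq_integral_Ioc]
  have h4 := MeasureTheory.setIntegral_prod (μ := (volume : Measure ℝ))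
    (ν := (volume : Measure ℝ)) (s := Ico 0 l0) (t := univ) G hGi
  rw [show (volume : Measure Pl) = (volume : Measure ℝ).prod volume from rfl, h4]
  simp only [Measure.restrict_univ]
  rfl

end BR
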