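import Pool.Agent.LibBR70.PX7
import Pool.Agent.LibBR73.AN8b

/-! Row AN8c: unfolding the sum over a conjugacy class. 60 min, strong.
(Row AN8a is not needed: only finitely many elements of the group move a point of `D` into the
bounded part of the strip where `f g` does not vanish, so all sums are finite.) -/

open MeasureTheory Set Filter Topology
open scoped ContDiff

namespace BR

open BGS

variable {Γ : Type} [Group Γ] [MulAction Γ Pl] {D : Set Pl}

/-- The area density transforms like a density. -/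
theorem AN8c_rho {m : Pl → Co} (hm : HM Γ m) (γ : Γ) (z : Pl) :
    √(dt (m z)) = |(fderiv ℝ (fun w : Pl => γ • w) z).det| * √(dt (m (γ • z))) := by
  set A := fderiv ℝ (fun w : Pl => γ • w) z with hA
  have hi := hm.inv γ z
  have h10 := hi (1, 0)
  have h01 := hi (0, 1)
  have h11 := hi (1, 1)
  rw [← hA, PER_apply A (1, 1)] at h11
  rw [← hA] at h10 h01
  simp only [qf] at h10 h01 h11
  have hd := PER_algebra (E := (m z).1) (F := (m z).2.1) (G := (m z).2.2)
    (E' := (m (γ • z)).1) (F' := (m (γ • z)).2.1) (G' := (m (γ • z)).2.2)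
    (a := (A (1, 0)).1) (b := (A (0, 1)).1) (c := (A (1, 0)).2) (d := (A (0, 1)).2)
    (by linarith) (by linarith) (by linarith)
  have hd' : dt (m z) = A.det ^ 2 * dt (m (γ • z)) := by
    rw [PER_det A]
    exact hd
  rw [hd', Real.sqrt_mul (sq_nonneg _), Real.sqrt_sq_eq_abs]

/-- Change of variables for one element of the group. -/
theorem AN8c_one (hX : Surface Γ D) {m : Pl → Co} (hm : HM Γ m) (β : Γ) (u : Pl → ℝ) :
    ∫ z in (fun w : Pl => β • w) '' D, u z * √(dt (m z)) =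
      ∫ z in D, u (β • z) * √(dt (m z)) := by
  rw [integral_image_eq_integral_abs_det_fderiv_smul volume hX.meas
    (f' := fun z => fderiv ℝ (fun w : Pl => β • w) z)
    (fun z _ => ((hX.smooth β).differentiable (by simp) z).hasFDerivAt.hasFDerivWithinAt)
    (PER_inj β).injOn]
  congr 1
  funext z
  rw [smul_eq_mul, AN8c_rho hm β z]
  ring

/-- Cutting an integral over a set into translates of the fundamental domain. -/
theorem AN8c_cut (hX : Surface Γ D) {m : Pl → Co} (hm : HM Γ m) {S K : Set Pl}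
    (hS : MeasurableSet S) (hK : IsCompact K) {F : Pl → ℝ} (hF : Continuous F)
    (hz : ∀ z ∈ S, F z ≠ 0 → z ∈ K) {B : Finset Γ}
    (hB : ∀ β : Γ, β ∉ B → ∀ z ∈ D, β • z ∉ K) :
    ∫ z in S, F z * √(dt (m z)) =
      ∑ β ∈ B, ∫ z in D, indicator S F (β • z) * √(dt (m z)) := by
  have hρ := AN8b_rho_cont hm
  have hI : indicator S F = indicator (S ∩ K) F := by
    funext z
    by_cases h1 : z ∈ S
    · by_cases h2 : z ∈ K
      · rw [indicator_of_mem h1, indicator_of_mem (show z ∈ S ∩ K from ⟨h1, h2⟩)]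
      · rw [indicator_of_mem h1, indicator_of_notMem (fun h => h2 h.2)]
        by_contra h3
        exact h2 (hz z h1 h3)
    · rw [indicator_of_notMem h1, indicator_of_notMem (fun h => h1 h.1)]
  have hint : Integrable fun z => indicator S F z * √(dt (m z)) := by
    have h1 : (fun z => indicator S F z * √(dt (m z))) =
        indicator (S ∩ K) (fun z => F z * √(dt (m z))) := by
      funext z
      rw [hI]
      by_cases h : z ∈ S ∩ K
      · rw [indicator_of_mem h, indicator_of_mem h]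
      · rw [indicator_of_notMem h, indicator_of_notMem h, zero_mul]
    rw [h1, integrable_indicator_iff (hS.inter hK.measurableSet)]
    exact ((hF.mul hρ).continuousOn.integrableOn_compact hK).mono_set inter_subset_right
  have h0 : ∫ z in S, F z * √(dt (m z)) = ∫ z, indicator S F z * √(dt (m z)) := by
    rw [← integral_indicator hS]
    congr 1
    funext z
    by_cases h : z ∈ S
    · rw [indicator_of_mem h, indicator_of_mem h]
    · rw [indicator_of_notMem h, indicator_of_notMem h, zero_mul]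
  have h2 : (fun z => indicator S F z * √(dt (m z))) = fun z =>
      ∑ β ∈ B, indicator ((fun w : Pl => β • w) '' D)
        (fun z => indicator S F z * √(dt (m z))) z := by
    funext z
    obtain ⟨γ, hγ, hun⟩ := hX.orbit z
    have hz' : z ∈ (fun w : Pl => γ⁻¹ • w) '' D := ⟨γ • z, hγ, by simp⟩
    have hothers : ∀ δ ∈ B, δ ≠ γ⁻¹ → indicator ((fun w : Pl => δ • w) '' D)
        (fun z => indicator S F z * √(dt (m z))) z = 0 := by
      intro δ _ hδ
      apply indicator_of_notMem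
      rw [PER_image]
      intro h
      apply hδ
      rw [← hun δ⁻¹ h, inv_inv]
    by_cases hmem : γ⁻¹ ∈ B
    · rw [Finset.sum_eq_single_of_mem _ hmem hothers, indicator_of_mem hz']
    · rw [Finset.sum_eq_zero]
      · have h3 := hB γ⁻¹ hmem (γ • z) hγ
        rw [inv_smul_smul] at h3
        rw [hI, indicator_of_notMem (fun h => h3 h.2), zero_mul]
      · intro δ hδ
        exact hothers δ hδ (fun h => hmem (h ▸ hδ))
  rw [h0, h2, integral_finsetSum]
  · refine Finset.sum_congr rfl fun β _ => ?_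
    rw [integral_indicator (PER_meas hX β), AN8c_one hX hm β]
  · intro β _
    exact hint.indicator (PER_meas hX β)

theorem AN8c_class (hX : Surface Γ D) (hO : Ori Γ) {m : Pl → Co} (hm : HM Γ m)
    {g g0 : Γ} {x v : Pl} {l l0 : ℝ} (h : Cls m g g0 x v l l0) {f : Γ → Pl → ℝ}
    (hf : ∀ δ, IsConj g δ → Continuous (f δ)) (heq : ∀ (α δ : Γ) (z : Pl), f (α * δ * α⁻¹) (α • z) = f δ z)
    (hR : ∃ R : ℝ, ∀ s r : ℝ, R < |r| → f g (Fm m x v (s, r)) = 0) :
    ∑ᶠ δ ∈ {δ : Γ | IsConj g δ}, ∫ z in D, f δ z * √(dt (m z)) =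
      ∫ z in Fm m x v '' (Ico 0 l0 ×ˢ univ), f g z * √(dt (m z)) := by
  classical
  obtain ⟨R, hR⟩ := hR
  set S : Set Pl := Fm m x v '' (Ico 0 l0 ×ˢ univ) with hSd
  set K : Set Pl := Fm m x v '' (Icc 0 l0 ×ˢ Icc (-R) R) with hKd
  have hv := h.axis.unit
  have hFc := (Fm_smooth hX hm x v).continuous
  have hK : IsCompact K := (isCompact_Icc.prod isCompact_Icc).image hFc
  have hS : MeasurableSet S := (measurableSet_Ico.prod MeasurableSet.univ).image_of_continuousOn_injOn
    hFc.continuousOn (Fm_bij hX hm hv).1.injOn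
  have hz : ∀ z ∈ S, f g z ≠ 0 → z ∈ K := by
    rintro z ⟨⟨s, r⟩, hp, rfl⟩ hne
    refine ⟨(s, r), ⟨⟨hp.1.1, hp.1.2.le⟩, ?_⟩, rfl⟩
    by_contra h1
    apply hne
    apply hR
    by_contra h2
    rw [not_lt, abs_le] at h2
    exact h1 h2
  have hcD : IsCompact (closure D) := Cmp_compact hX
  have hfin := hX.proper (closure D ∪ K) (hcD.union hK)
  set B : Finset Γ := hfin.toFinset with hBd
  have hB' : ∀ β : Γ, ∀ z ∈ D, β • z ∈ K → β ∈ B := by
    intro β z hz1 hz2
    rw [hBd, Finite.mem_toFinset]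
    exact ⟨z, Or.inl (subset_closure hz1), Or.inr hz2⟩
  have hcut := AN8c_cut hX hm hS hK (hf g (IsConj.refl g)) hz (B := B) fun β hβ z hz1 hz2 => hβ (hB' β z hz1 hz2)
  rw [hcut]
  set c : Γ → Γ := fun β => β⁻¹ * g * β with hc
  have hfc : ∀ (β : Γ) (z : Pl), f (c β) z = f g (β • z) := by
    intro β z
    have := heq β⁻¹ g (β • z)
    rw [inv_smul_smul, inv_inv] at this
    exact this
  -- the structure of the class
  have hcomm : ∀ k : ℤ, ∀ β : Γ, c (g0 ^ k * β) = c β := by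
    intro k β
    have h1 : g0 ^ k * g = g * g0 ^ k := (h.cent (g0 ^ k)).mpr ⟨k, rfl⟩
    show (g0 ^ k * β)⁻¹ * g * (g0 ^ k * β) = β⁻¹ * g * β
    have h2 : (g0 ^ k)⁻¹ * g * g0 ^ k = g := by
      rw [mul_assoc, ← h1, inv_mul_cancel_left]
    calc (g0 ^ k * β)⁻¹ * g * (g0 ^ k * β) = β⁻¹ * ((g0 ^ k)⁻¹ * g * g0 ^ k) * β := by group
      _ = _ := by rw [h2]
  have hcos : ∀ β β0 : Γ, c β = c β0 → ∃ k : ℤ, β = g0 ^ k * β0 := by
    intro β β0 hh
    have h1 : (β * β0⁻¹) * g = g * (β * β0⁻¹) := by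
      have h2 : β⁻¹ * g * β = β0⁻¹ * g * β0 := hh
      calc (β * β0⁻¹) * g = β * (β0⁻¹ * g * β0) * β0⁻¹ := by group
        _ = β * (β⁻¹ * g * β) * β0⁻¹ := by rw [h2]
        _ = g * (β * β0⁻¹) := by group
    obtain ⟨k, hk⟩ := (h.cent _).mp h1
    refine ⟨k, ?_⟩
    have hk' : g0 ^ k = β * β0⁻¹ := hk
    rw [hk']
    group
  have hun : ∀ (β0 : Γ) (z : Pl), ∃! k : ℤ, (g0 ^ k * β0) • z ∈ S := by
    intro β0 z
    have := Fm_unique hX hO hm h.axis0 (β0 • z)
    simpa only [mul_smul] using this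
  -- one summand
  have hterm : ∀ β : Γ, ∀ z : Pl, indicator S (f g) (β • z) * √(dt (m z)) =
      indicator ((fun w : Pl => β • w) ⁻¹' S) (fun w => f (c β) w * √(dt (m w))) z := by
    intro β z
    by_cases h1 : β • z ∈ S
    · rw [indicator_of_mem h1, indicator_of_mem (show z ∈ (fun w : Pl => β • w) ⁻¹' S from h1), hfc]
    · rw [indicator_of_notMem h1,
        indicator_of_notMem (show z ∉ (fun w : Pl => β • w) ⁻¹' S from h1), zero_mul]
  have hρ := AN8b_rho_cont hm
  have hpm : ∀ β : Γ, MeasurableSet ((fun w : Pl => β • w) ⁻¹' S) := fun β =>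
    (hX.smooth β).continuous.measurable hS
  have hsum : ∑ β ∈ B, ∫ z in D, indicator S (f g) (β • z) * √(dt (m z)) =
      ∑ δ ∈ B.image c, ∫ z in D, f δ z * √(dt (m z)) := by
    rw [← Finset.sum_fiberwise_of_maps_to (s := B) (t := B.image c) (g := c)
      (fun β hβ => Finset.mem_image_of_mem c hβ)]
    refine Finset.sum_congr rfl fun δ hδ => ?_
    rw [Finset.mem_image] at hδ
    obtain ⟨β0, hβ0, hβ0δ⟩ := hδ
    have hδc : IsConj g δ := by
      rw [isConj_iff]
      refine ⟨β0⁻¹, ?_⟩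
      rw [inv_inv]
      exact hβ0δ
    have h1 : ∀ β ∈ B.filter (fun β => c β = δ),
        ∫ z in D, indicator S (f g) (β • z) * √(dt (m z)) =
        ∫ z in D, indicator ((fun w : Pl => β • w) ⁻¹' S) (fun w => f δ w * √(dt (m w))) z := by
      intro β hβ
      rw [Finset.mem_filter] at hβ
      congr 1
      funext z
      rw [hterm β z, hβ.2]
    rw [Finset.sum_congr rfl h1, ← integral_finsetSum]
    · apply setIntegral_congr_fun hX.meas
      intro z hzD
      show ∑ β ∈ B.filter (fun β => c β = δ),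
        indicator ((fun w : Pl => β • w) ⁻¹' S) (fun w => f δ w * √(dt (m w))) z =
        f δ z * √(dt (m z))
      by_cases h0 : f δ z = 0
      · rw [h0, zero_mul]
        refine Finset.sum_eq_zero fun β _ => ?_
        by_cases h2 : z ∈ (fun w : Pl => β • w) ⁻¹' S
        · rw [indicator_of_mem h2, h0, zero_mul]
        · rw [indicator_of_notMem h2]
      · obtain ⟨k, hk, hku⟩ := hun β0 z
        have hcβ : c (g0 ^ k * β0) = δ := by rw [hcomm, hβ0δ]
        have hmem : g0 ^ k * β0 ∈ B.filter (fun β => c β = δ) := by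
          rw [Finset.mem_filter]
          refine ⟨hB' _ z hzD (hz _ hk ?_), hcβ⟩
          rw [← hfc, hcβ]
          exact h0
        rw [Finset.sum_eq_single_of_mem _ hmem]
        · rw [indicator_of_mem (show z ∈ (fun w : Pl => (g0 ^ k * β0) • w) ⁻¹' S from hk)]
        · intro β hβ hne
          rw [Finset.mem_filter] at hβ
          apply indicator_of_notMem
          intro h2
          obtain ⟨k', hk'⟩ := hcos β β0 (by rw [hβ.2, hβ0δ])
          apply hne
          rw [hk']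
          have h3 : (g0 ^ k' * β0) • z ∈ S := by
            rw [← hk']
            exact h2
          rw [hku k' h3]
    · intro β _
      exact (Cmp_int hX ((hf δ hδc).mul hρ)).indicator (hpm β)
  rw [hsum]
  refine finsum_mem_eq_sum_of_inter_support_eq _ ?_
  ext δ
  simp only [mem_inter_iff, mem_ofPred_eq, Finset.coe_image, mem_image, Finset.mem_coe]
  constructor
  · rintro ⟨h1, h2⟩
    refine ⟨?_, h2⟩
    obtain ⟨α, hα⟩ := isConj_iff.mp h1
    have hδ : c α⁻¹ = δ := by
      show α⁻¹⁻¹ * g * α⁻¹ = δ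
      rw [inv_inv, hα]
    have h3 : ∃ z ∈ D, f δ z ≠ 0 := by
      by_contra h4
      push Not at h4
      apply h2
      refine setIntegral_eq_zero_of_forall_eq_zero fun z hz1 => ?_
      rw [h4 z hz1, zero_mul]
    obtain ⟨z, hzD, hzf⟩ := h3
    obtain ⟨k, hk, -⟩ := hun α⁻¹ z
    have hcβ : c (g0 ^ k * α⁻¹) = δ := by rw [hcomm, hδ]
    refine ⟨g0 ^ k * α⁻¹, hB' _ z hzD (hz _ hk ?_), hcβ⟩
    rw [← hfc, hcβ]
    exact hzf
  · rintro ⟨⟨β, -, hβ⟩, h2⟩
    refine ⟨?_, h2⟩
    rw [isConj_iff]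
    refine ⟨β⁻¹, ?_⟩
    rw [inv_inv]
    exact hβ

open Classical in
theorem unfold (hX : Surface Γ D) (hO : Ori Γ) (m : Mt Γ D) {g g0 : Γ} {x0 v0 : Pl} {l l0 : ℝ}
    (hc : Cls m.1.1 g g0 x0 v0 l l0) {f : Γ → Pl → ℝ} (hf : ∀ γ, IsConj g γ → Continuous (f γ))
    (hinv : ∀ (δ γ : Γ) (x : Pl), f (δ * γ * δ⁻¹) (δ • x) = f γ x) {S : Finset Γ}
    (hS : ∀ γ, IsConj g γ → γ ∉ S → ∀ x ∈ D, f γ x = 0) {R : ℝ}
    (hR : ∀ s y : ℝ, R < |y| → f g (Fm m.1.1 x0 v0 (s, y)) = 0) :
    ∑ γ ∈ S.filter (IsConj g), ∫ x in D, f γ x * √(dt (m.1.1 x)) =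
      ∫ s in (0 : ℝ)..l0, ∫ y, f g (Fm m.1.1 x0 v0 (s, y)) *
        JA m.1.1 (gfl m.1.1 s (x0, v0)).1 (rot (gfl m.1.1 s (x0, v0)).2) y := by
  have hm := hm_of_Mt m
  rw [← strip_int hX hm hc.axis.unit hc.axis0.pos.le (hf g (IsConj.refl g)) hR]
  have h1 := AN8c_class hX hO hm hc hf hinv ⟨R, hR⟩
  show _ = ∫ z in Fm m.1.1 x0 v0 '' (Ico 0 l0 ×ˢ univ), f g z * √(dt (m.1.1 z))
  rw [← h1]
  symm
  refine finsum_mem_eq_sum_of_inter_support_eq _ ?_
  ext δ
  simp only [mem_inter_iff, mem_ofPred_eq, Finset.coe_filter, Function.mem_support]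
  constructor
  · rintro ⟨h2, h3⟩
    refine ⟨⟨?_, h2⟩, h3⟩
    by_contra h4
    apply h3
    refine setIntegral_eq_zero_of_forall_eq_zero fun z hz1 => ?_
    rw [hS δ h2 h4 z hz1, zero_mul]
  · rintro ⟨⟨-, h2⟩, h3⟩
    exact ⟨h2, h3⟩

end BR
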