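import Pool.Agent.LibBR73.AN_Defs
import Pool.Agent.LibBR70.H1g
import Pool.Agent.LibBR70.H1j
import Pool.Agent.LibBR70.H1l

/-! Row AN0: first variation of the geodesic between two moving points. -/

open MeasureTheory Set Filter Topology
open scoped ContDiff

namespace BR

open BGS

variable {Γ : Type} [Group Γ] [MulAction Γ Pl] {D : Set Pl}

theorem AN0_eu_smul (c : ℝ) (v : Pl) : eu (c • v) = |c| * eu v := by
  unfold eu
  rw [show (c • v).1 ^ 2 + (c • v).2 ^ 2 = c ^ 2 * (v.1 ^ 2 + v.2 ^ 2) by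
    change (c * v.1) ^ 2 + (c * v.2) ^ 2 = _
    ring]
  rw [Real.sqrt_mul (sq_nonneg c), Real.sqrt_sq_eq_abs]

theorem AN0_eu_neg (v : Pl) : eu (-v) = eu v := by
  have h := AN0_eu_smul (-1) v
  rw [neg_one_smul] at h
  rw [h]
  simp

theorem AN0_sq {v : Pl} (h : eu v = 1) : v.1 ^ 2 + v.2 ^ 2 = 1 := by
  have h1 : √(v.1 ^ 2 + v.2 ^ 2) = 1 := h
  have h2 := Real.sq_sqrt (show 0 ≤ v.1 ^ 2 + v.2 ^ 2 by positivity)
  rw [h1] at h2
  linarith

theorem ds_pos (hX : Surface Γ D) {m : Pl → Co} (hm : HM Γ m) {x y : Pl} (h : x ≠ y) :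
    0 < ds m x y := eu_Vx_pos hX hm h

theorem ds_comm (hX : Surface Γ D) {m : Pl → Co} (hm : HM Γ m) (x y : Pl) :
    ds m x y = ds m y x := eu_Vx_comm hX hm x y

theorem dr_unit (hX : Surface Γ D) {m : Pl → Co} (hm : HM Γ m) {x y : Pl} (h : x ≠ y) :
    eu (dr m x y) = 1 := by
  have h1 := ds_pos hX hm h
  unfold dr
  rw [AN0_eu_smul, abs_of_pos (inv_pos.2 h1)]
  exact inv_mul_cancel₀ h1.ne'

theorem ar_unit (hX : Surface Γ D) {m : Pl → Co} (hm : HM Γ m) {x y : Pl} (h : x ≠ y) :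
    eu (ar m x y) = 1 := by
  unfold ar
  rw [AN0_eu_neg]
  exact dr_unit hX hm h.symm

theorem AN0_smul (hX : Surface Γ D) {m : Pl → Co} (hm : HM Γ m) {x y : Pl} (h : x ≠ y) :
    ds m x y • dr m x y = Vx m x y := by
  unfold dr
  rw [smul_smul, mul_inv_cancel₀ (ds_pos hX hm h).ne', one_smul]

theorem gfl_dr (hX : Surface Γ D) {m : Pl → Co} (hm : HM Γ m) {x y : Pl} (h : x ≠ y) :
    gfl m (ds m x y) (x, dr m x y) = (y, ar m x y) := by
  have hpos := ds_pos hX hm h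
  refine Prod.ext ?_ ?_
  · rw [← Ex_ray hX hm, AN0_smul hX hm h, Ex_Vx hX hm]
  · have h1 := Vx_rev hX hm x (Vx m x y)
    rw [Ex_Vx hX hm] at h1
    have h2 := gfl_homog hX hm (ds m x y) 1 x (dr m x y)
    rw [AN0_smul hX hm h, mul_one] at h2
    rw [h2] at h1
    change (gfl m (ds m x y) (x, dr m x y)).2 = -((ds m y x)⁻¹ • Vx m y x)
    rw [h1, ds_comm hX hm y x, smul_neg, neg_neg, smul_smul, inv_mul_cancel₀ hpos.ne', one_smul]

/-- Uniqueness of the segment. -/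
theorem ds_eq (hX : Surface Γ D) {m : Pl → Co} (hm : HM Γ m) {x v : Pl} (hv : eu v = 1) {t : ℝ}
    (ht : 0 < t) : ds m x (gfl m t (x, v)).1 = t ∧ dr m x (gfl m t (x, v)).1 = v ∧
      ar m x (gfl m t (x, v)).1 = (gfl m t (x, v)).2 := by
  have h1 : Vx m x (gfl m t (x, v)).1 = t • v := by
    rw [← Ex_ray hX hm, Vx_Ex hX hm]
  have h2 : ds m x (gfl m t (x, v)).1 = t := by
    unfold ds
    rw [h1, AN0_eu_smul, hv, mul_one, abs_of_pos ht]
  have h3 : dr m x (gfl m t (x, v)).1 = v := by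
    unfold dr
    rw [h2, h1, smul_smul, inv_mul_cancel₀ ht.ne', one_smul]
  have hne : x ≠ (gfl m t (x, v)).1 := by
    intro h
    have h4 := h2
    rw [← h] at h4
    unfold ds at h4
    rw [Vx_self hX hm] at h4
    have h5 : eu (0 : Pl) = 0 := by
      have := AN0_eu_smul 0 (0 : Pl)
      rw [zero_smul, abs_zero, zero_mul] at this
      exact this
    rw [h5] at h4
    exact ht.ne h4
  refine ⟨h2, h3, ?_⟩
  have h6 := gfl_dr hX hm hne
  rw [h2, h3] at h6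
  exact (congrArg Prod.snd h6).symm

theorem AN0_ds_smooth (hX : Surface Γ D) {m : Pl → Co} (hm : HM Γ m) {p : Pl × Pl}
    (h : p.1 ≠ p.2) : ContDiffAt ℝ ∞ (fun q : Pl × Pl => ds m q.1 q.2) p := by
  have hV := (Vx_smooth hX hm).contDiffAt (x := p)
  have h1 : ContDiffAt ℝ ∞ (fun q : Pl × Pl => (Vx m q.1 q.2).1) p := contDiff_fst.contDiffAt.comp p hV
  have h2 : ContDiffAt ℝ ∞ (fun q : Pl × Pl => (Vx m q.1 q.2).2) p := contDiff_snd.contDiffAt.comp p hV
  have h3 := ds_pos hX hm h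
  unfold ds eu at h3 ⊢
  refine ((h1.pow 2).add (h2.pow 2)).sqrt ?_
  exact (Real.sqrt_pos.1 h3).ne'

theorem AN0_dr_smooth (hX : Surface Γ D) {m : Pl → Co} (hm : HM Γ m) {p : Pl × Pl}
    (h : p.1 ≠ p.2) : ContDiffAt ℝ ∞ (fun q : Pl × Pl => dr m q.1 q.2) p := by
  have hV := (Vx_smooth hX hm).contDiffAt (x := p)
  unfold dr
  exact ((AN0_ds_smooth hX hm h).inv (ds_pos hX hm h).ne').smul hV

theorem ds_smoothAt (hX : Surface Γ D) {m : Pl → Co} (hm : HM Γ m) {p : Pl × Pl}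
    (h : p.1 ≠ p.2) : ContDiffAt ℝ ∞ (fun q : Pl × Pl => ds m q.1 q.2) p ∧
      ContDiffAt ℝ ∞ (fun q : Pl × Pl => dr m q.1 q.2) p ∧
      ContDiffAt ℝ ∞ (fun q : Pl × Pl => ar m q.1 q.2) p := by
  refine ⟨AN0_ds_smooth hX hm h, AN0_dr_smooth hX hm h, ?_⟩
  have h1 := AN0_dr_smooth hX hm (p := (p.2, p.1)) h.symm
  have h2 : ContDiffAt ℝ ∞ (fun q : Pl × Pl => (q.2, q.1)) p :=
    (contDiff_snd.prodMk contDiff_fst).contDiffAt
  have h3 : ContDiffAt ℝ ∞ ((fun q : Pl × Pl => dr m q.1 q.2) ∘ fun q : Pl × Pl => (q.2, q.1)) p :=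
    ContDiffAt.comp p h1 h2
  exact h3.neg

theorem ds_deck (hX : Surface Γ D) (hO : Ori Γ) {m : Pl → Co} (hm : HM Γ m) (γ : Γ) (x y : Pl) :
    ds m (γ • x) (γ • y) = ds m x y ∧ dr m (γ • x) (γ • y) = Rg m γ x (dr m x y) ∧
      ar m (γ • x) (γ • y) = Rg m γ y (ar m x y) := by
  have h1 : ∀ x y : Pl, ds m (γ • x) (γ • y) = ds m x y := eu_Vx_deck hX hO hm γ
  have h2 : ∀ x y : Pl, dr m (γ • x) (γ • y) = Rg m γ x (dr m x y) := by
    intro x y
    unfold dr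
    rw [h1, Vx_deck hX hO hm, Rg_smul hX hm]
  refine ⟨h1 x y, h2 x y, ?_⟩
  unfold ar
  rw [h2, ← neg_one_smul ℝ (dr m y x), Rg_smul hX hm, neg_one_smul]

theorem AN0_fr_add (c : Co) (a b : Pl) : fr c (a + b) = fr c a + fr c b := by
  unfold fr
  rw [Prod.fst_add, Prod.snd_add, add_smul, add_smul]
  abel

theorem AN0_fr_smul (c : Co) (r : ℝ) (a : Pl) : fr c (r • a) = r • fr c a := by
  unfold fr
  rw [smul_add, smul_smul, smul_smul]
  rfl

theorem AN0_om_add (m : Pl → Co) (z a b : Pl) : om m z (a + b) = om m z a + om m z b := by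
  unfold om
  rw [Prod.fst_add, Prod.snd_add]
  ring

theorem AN0_om_smul (m : Pl → Co) (z : Pl) (r : ℝ) (a : Pl) : om m z (r • a) = r * om m z a := by
  unfold om
  change cA m z * (r * a.1) + cB m z * (r * a.2) = _
  ring

theorem AN0_flow (hX : Surface Γ D) {m : Pl → Co} (hm : HM Γ m) (t : ℝ) (p : Pl × Pl) (r : ℝ)
    (ξ : Pl × Pl) : fderiv ℝ (fun q : ℝ × (Pl × Pl) => gfl m q.1 q.2) (t, p) (r, ξ) =
      r • gf m (gfl m t p) + dgf m t p ξ := by
  have hG : DifferentiableAt ℝ (fun q : ℝ × (Pl × Pl) => gfl m q.1 q.2) (t, p) :=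
    ((gfl_smooth hX hm).differentiable (by simp)) _
  have e1 : fderiv ℝ (fun q : ℝ × (Pl × Pl) => gfl m q.1 q.2) (t, p) (1, 0) =
      gf m (gfl m t p) := by
    have h1 : HasDerivAt (fun s : ℝ => ((s, p) : ℝ × (Pl × Pl))) (1, 0) t :=
      (hasDerivAt_id t).prodMk (hasDerivAt_const t p)
    have h2 := hG.hasFDerivAt.comp_hasDerivAt t h1
    exact h2.unique ((gfl_isFlow hX hm).deriv p t)
  have e2 : fderiv ℝ (fun q : ℝ × (Pl × Pl) => gfl m q.1 q.2) (t, p) (0, ξ) = dgf m t p ξ := by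
    have h1 : HasFDerivAt (fun q : Pl × Pl => ((t, q) : ℝ × (Pl × Pl)))
        (ContinuousLinearMap.inr ℝ ℝ (Pl × Pl)) p := hasFDerivAt_prodMk_right t p
    have h2 := hG.hasFDerivAt.comp p h1
    have h3 : fderiv ℝ (gfl m t) p = _ := h2.fderiv
    unfold dgf
    rw [h3]
    rfl
  have e3 : ((r, ξ) : ℝ × (Pl × Pl)) = r • ((1, 0) : ℝ × (Pl × Pl)) + (0, ξ) := by
    refine Prod.ext ?_ ?_
    · change r = r * 1 + 0
      ring
    · change ξ = r • (0 : Pl × Pl) + ξ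
      rw [smul_zero, zero_add]
  rw [e3, map_add, map_smul, e1, e2]

theorem AN0_perp {V : ℝ → Pl} {V' : Pl} {s : ℝ} (hV : HasDerivAt V V' s)
    (h1 : ∀ᶠ r in 𝓝 s, eu (V r) = 1) : ip (V s) V' = 0 := by
  have ha : HasDerivAt (fun r => (V r).1) V'.1 s := hV.fst
  have hb : HasDerivAt (fun r => (V r).2) V'.2 s := hV.snd
  have hc := (ha.pow 2).add (hb.pow 2)
  have hd : HasDerivAt (fun _ : ℝ => (1 : ℝ)) 0 s := hasDerivAt_const s 1
  have he : (fun _ : ℝ => (1 : ℝ)) =ᶠ[𝓝 s] fun r => (V r).1 ^ 2 + (V r).2 ^ 2 := by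
    filter_upwards [h1] with r hr
    exact (AN0_sq hr).symm
  have hf := (hc.congr_of_eventuallyEq he).unique hd
  unfold ip
  norm_num at hf
  linarith

theorem AN0_rot {v v' : Pl} (h : eu v = 1) (h' : ip v v' = 0) : v' = wd v v' • rot v := by
  have h1 := AN0_sq h
  unfold ip at h'
  unfold wd rot
  refine Prod.ext ?_ ?_
  · change v'.1 = (v.1 * v'.2 - v.2 * v'.1) * (-v.2)
    linear_combination (-v'.1) * h1 + v.1 * h'
  · change v'.2 = (v.1 * v'.2 - v.2 * v'.1) * v.1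
    linear_combination (-v'.2) * h1 + v.2 * h'

theorem var_end (hX : Surface Γ D) {m : Pl → Co} (hm : HM Γ m) {x y : ℝ → Pl} {x' y' : Pl}
    {s : ℝ} (hx : HasDerivAt x x' s) (hy : HasDerivAt y y' s) (hne : x s ≠ y s) {d b b1 : ℝ}
    {v w u0 u1 : Pl} (hd : d = ds m (x s) (y s)) (hv : v = dr m (x s) (y s))
    (hw : w = ar m (x s) (y s)) (hu0 : u0 = ifr (m (x s)) x') (hu1 : u1 = ifr (m (y s)) y')
    (hb : b = (ip u1 (rot w) - ip u0 (rot v) * JA m (x s) v d) / JB m (x s) v d)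
    (hb1 : b1 = ip u0 (rot v) * deriv (JA m (x s) v) d + b * deriv (JB m (x s) v) d) :
    HasDerivAt (fun r => ds m (x r) (y r)) (ip u1 w - ip u0 v) s ∧
      HasDerivAt (fun r => dr m (x r) (y r)) ((b - om m (x s) x') • rot v) s ∧
      HasDerivAt (fun r => ar m (x r) (y r)) ((b1 - om m (y s) y') • rot w) s := by
  have hev : ∀ᶠ r in 𝓝 s, x r ≠ y r := by
    have h1 : Tendsto (fun r => (x r, y r)) (𝓝 s) (𝓝 (x s, y s)) :=
      (hx.continuousAt.prodMk hy.continuousAt)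
    exact h1.eventually ((isOpen_ne_fun continuous_fst continuous_snd).mem_nhds hne)
  have hxy : HasDerivAt (fun r => (x r, y r)) (x', y') s := hx.prodMk hy
  obtain ⟨hS1, hS2, hS3⟩ := ds_smoothAt hX hm (p := (x s, y s)) hne
  have hD1 := (hS1.differentiableAt (by simp)).hasFDerivAt.comp_hasDerivAt s hxy
  have hD2 := (hS2.differentiableAt (by simp)).hasFDerivAt.comp_hasDerivAt s hxy
  have hD3 := (hS3.differentiableAt (by simp)).hasFDerivAt.comp_hasDerivAt s hxy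
  obtain ⟨d', hd'⟩ : ∃ d', HasDerivAt (fun r => ds m (x r) (y r)) d' s := ⟨_, hD1⟩
  obtain ⟨v', hv'⟩ : ∃ v', HasDerivAt (fun r => dr m (x r) (y r)) v' s := ⟨_, hD2⟩
  obtain ⟨w', hw'⟩ : ∃ w', HasDerivAt (fun r => ar m (x r) (y r)) w' s := ⟨_, hD3⟩
  have hvu : eu v = 1 := by rw [hv]; exact dr_unit hX hm hne
  have hwu : eu w = 1 := by rw [hw]; exact ar_unit hX hm hne
  have hdpos : 0 < d := by rw [hd]; exact ds_pos hX hm hne
  have hgfl : gfl m d (x s, v) = (y s, w) := by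
    rw [hd, hv, hw]
    exact gfl_dr hX hm hne
  -- the perpendicularity
  have hvp : ip v v' = 0 := by
    rw [hv]
    exact AN0_perp (V := fun r => dr m (x r) (y r)) (s := s) hv'
      (hev.mono fun r hr => dr_unit hX hm hr)
  -- differentiate the identity
  have hG : DifferentiableAt ℝ (fun q : ℝ × (Pl × Pl) => gfl m q.1 q.2)
      (ds m (x s) (y s), (x s, dr m (x s) (y s))) :=
    ((gfl_smooth hX hm).differentiable (by simp)) _
  have hc : HasDerivAt (fun r => ((ds m (x r) (y r), (x r, dr m (x r) (y r))) : ℝ × (Pl × Pl)))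
      (d', (x', v')) s := hd'.prodMk (hx.prodMk hv')
  have hL := hG.hasFDerivAt.comp_hasDerivAt s hc
  rw [AN0_flow hX hm] at hL
  have hR : HasDerivAt (fun r => ((y r, ar m (x r) (y r)) : Pl × Pl)) (y', w') s := hy.prodMk hw'
  have hE : (fun r => ((y r, ar m (x r) (y r)) : Pl × Pl)) =ᶠ[𝓝 s]
      ((fun q : ℝ × (Pl × Pl) => gfl m q.1 q.2) ∘
        fun r => ((ds m (x r) (y r), (x r, dr m (x r) (y r))) : ℝ × (Pl × Pl))) := by
    filter_upwards [hev] with r hr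
    exact (gfl_dr hX hm hr).symm
  have hkey := (hL.congr_of_eventuallyEq hE).unique hR
  rw [← hd, ← hv, hgfl] at hkey
  -- the variation in terms of the Jacobi fields
  obtain ⟨p, hp⟩ : ∃ p, p = ip u0 v := ⟨_, rfl⟩
  obtain ⟨q, hq⟩ : ∃ q, q = ip u0 (rot v) := ⟨_, rfl⟩
  obtain ⟨β, hβ⟩ : ∃ β, β = wd v v' + om m (x s) x' := ⟨_, rfl⟩
  have hlift : lift m (x s) v p q β = (x', v') := by
    have h1 := lift_eq hm.pos hvu (x := x s) (ξ := (x', v')) hvp
    rw [hp, hq, hβ, hu0]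
    exact h1
  have hsplit := dgf_split hX hm hvu (x := x s) d p q β
  rw [hlift, hgfl] at hsplit
  obtain ⟨Q, hQ⟩ : ∃ Q, Q = q * JA m (x s) v d + β * JB m (x s) v d := ⟨_, rfl⟩
  obtain ⟨B, hB⟩ : ∃ B, B = q * deriv (JA m (x s) v) d + β * deriv (JB m (x s) v) d := ⟨_, rfl⟩
  rw [← hQ, ← hB] at hsplit
  rw [hsplit] at hkey
  have hk1 := congrArg Prod.fst hkey
  have hk2 := congrArg Prod.snd hkey
  have hk1' : d' • fr (m (y s)) w + fr (m (y s)) (p • w + Q • rot w) = y' := hk1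
  have hk2' : d' • (om m (y s) (fr (m (y s)) w) • ((w.2, -w.1) : Pl)) +
      (B - om m (y s) (fr (m (y s)) (p • w + Q • rot w))) • rot w = w' := hk2
  -- first components
  have hw2 := AN0_sq hwu
  have hu1' : u1 = (d' + p) • w + Q • rot w := by
    rw [hu1, ← hk1', ← AN0_fr_smul, ← AN0_fr_add, ifr_fr (hm.pos _).1 (hm.pos _).2, add_smul,
      add_assoc]
  have hd'' : d' = ip u1 w - ip u0 v := by
    rw [hu1', ← hp]
    unfold ip rot
    change d' = ((d' + p) * w.1 + Q * (-w.2)) * w.1 + ((d' + p) * w.2 + Q * w.1) * w.2 - p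
    linear_combination (-(d' + p)) * hw2
  have hQ' : ip u1 (rot w) = Q := by
    rw [hu1']
    unfold ip rot
    change ((d' + p) * w.1 + Q * (-w.2)) * (-w.2) + ((d' + p) * w.2 + Q * w.1) * w.1 = Q
    linear_combination Q * hw2
  have hJB : 0 < JB m (x s) v d := lt_of_lt_of_le hdpos (JB_ge hX hm hvu hdpos.le).1
  have hβb : β = b := by
    rw [hb, hQ', ← hq, hQ, eq_div_iff hJB.ne']
    ring
  have hBb : B = b1 := by
    rw [hb1, hB, ← hq, hβb]
  have hv'' : v' = (b - om m (x s) x') • rot v := by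
    rw [← hβb, hβ, add_sub_cancel_right]
    exact AN0_rot hvu hvp
  have hw'' : w' = (b1 - om m (y s) y') • rot w := by
    rw [← hk2', ← hBb, ← hk1', AN0_om_add, AN0_om_smul]
    have h1 : ((w.2, -w.1) : Pl) = (-1 : ℝ) • rot w := by
      unfold rot
      refine Prod.ext ?_ ?_
      · change w.2 = -1 * (-w.2)
        ring
      · change -w.1 = -1 * w.1
        ring
    rw [h1, smul_smul, smul_smul, ← add_smul]
    congr 1
    ring
  refine ⟨?_, ?_, ?_⟩
  · rw [← hd'']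
    exact hd'
  · rw [← hv'']
    exact hv'
  · rw [← hw'']
    exact hw'

end BR
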