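import Pool.Agent.LibBR73.AN_Defs
import Pool.Agent.LibBR70.H1g
import Pool.Agent.LibBR70.H1i
import Pool.Agent.LibBR70.H1l

/-! Row AN1: Fermi coordinates along a geodesic are a diffeomorphism of the plane. 50 min.
Plan. `JA_ge`: for `t ≥ 0` this is `JB_ge`. For `t < 0` the function `f t = JA m x u (-t)` satisfies
`f'' = k f`, `k = -curv > 0`, `f 0 = 1`, `f' 0 = 0` (`JA_ode`, `J_zero`), and the argument of `JB_ge`
(`(f'^2)' ..`, or: `f` is `≥ 1` and nondecreasing on `[0, ∞)`: as long as `f > 0` one has `f'' > 0`) applies.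
Write `c s = (gfl m s (x0, v0)).1`, `v s = (gfl m s (x0, v0)).2`, so `Fm (s, y) = (gfl m y (c s, rot (v s))).1`
(`Ex_ray`). `Fm_smooth`: composition of smooth maps. `Fm_fderiv`: derivative in `y`: `qf_gfl`. Derivative in
`s`: the curve `s ↦ (c s, rot (v s))` has the derivative `(fr (m c) v, om m c (fr (m c) v) • v)`
(`gf`, `rot (rot v) = -v`), which is `lift m c (rot v) 0 (-1) 0` (check both components: `-1 • rot (rot v) = v`,
`(0 - om ..) • rot (rot v) = om • v`), so by `dgf_split` its image under `gfl m y` has the first component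
`fr (m (Fm (s,y))) (-(JA m c (rot v) y) • rot e)`, `e = (gfl m y (c, rot v)).2`. `Fm_expand`: `qf_fr` and
`eu (w.2 • e - (w.1 * JA) • rot e) ^ 2 = w.2^2 + JA^2 w.1^2` for `eu e = 1` (`gfl_eu`). `Fm_bij`: `hadamard` with
`k = 1`. `Fm_det`: `wd_ifr` applied to `fderiv (Fm) p (1,0)` and `(0,1)`:
`wd (-(JA) • rot e) e = JA`; `det` of the derivative is `wd` of these two vectors. -/

open MeasureTheory Set Filter Topology
open scoped ContDiff

namespace BR

open BGS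

variable {Γ : Type} [Group Γ] [MulAction Γ Pl] {D : Set Pl}

theorem JA_ge (hX : Surface Γ D) {m : Pl → Co} (hm : HM Γ m) {x u : Pl} (hu : eu u = 1) (t : ℝ) :
    1 ≤ JA m x u t := by
  have h1 := fun t => (JA_ode hX hm (x := x) (u := u) hu t).1
  have h2 := fun t => (JA_ode hX hm (x := x) (u := u) hu t).2
  have h0 := J_zero hX hm (x := x) (u := u) hu
  have hcont : Continuous (JA m x u) :=
    continuous_iff_continuousAt.2 fun t => (h1 t).continuousAt
  -- the product of the field and its derivative is monotone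
  have hh : ∀ t, HasDerivAt (fun t => JA m x u t * deriv (JA m x u) t)
      (deriv (JA m x u) t * deriv (JA m x u) t +
        JA m x u t * (-curv m (gfl m t (x, u)).1 * JA m x u t)) t := fun t => (h1 t).mul (h2 t)
  have hmono : Monotone fun t => JA m x u t * deriv (JA m x u) t := by
    refine monotone_of_deriv_nonneg (fun t => (hh t).differentiableAt) fun t => ?_
    rw [(hh t).deriv]
    have h3 := hm.neg (gfl m t (x, u)).1
    have h4 : 0 ≤ JA m x u t ^ 2 * (-curv m (gfl m t (x, u)).1) :=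
      mul_nonneg (sq_nonneg _) (by linarith)
    nlinarith [mul_self_nonneg (deriv (JA m x u) t)]
  have hz : JA m x u 0 * deriv (JA m x u) 0 = 0 := by
    rw [h0.2.1, mul_zero]
  -- the square
  have hg : ∀ t, HasDerivAt (fun t => JA m x u t ^ 2)
      (2 * (JA m x u t * deriv (JA m x u) t)) t := by
    intro t
    have h3 := (h1 t).pow 2
    have e : ((2 : ℕ) : ℝ) * JA m x u t ^ (2 - 1) * deriv (JA m x u) t =
        2 * (JA m x u t * deriv (JA m x u) t) := by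
      push_cast
      ring
    rw [e] at h3
    exact h3
  have hgc : Continuous fun t => JA m x u t ^ 2 := hcont.pow 2
  have hsq : ∀ t, 1 ≤ JA m x u t ^ 2 := by
    intro t
    have e0 : JA m x u 0 ^ 2 = 1 := by
      rw [h0.1]
      norm_num
    rw [← e0]
    rcases le_total 0 t with ht | ht
    · refine monotoneOn_of_deriv_nonneg (convex_Ici (0 : ℝ)) hgc.continuousOn
        (fun s _ => (hg s).differentiableAt.differentiableWithinAt) (fun s hs => ?_)
        (mem_Ici.2 le_rfl) (mem_Ici.2 ht) ht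
      rw [interior_Ici] at hs
      rw [(hg s).deriv]
      have h3 := hmono (le_of_lt hs)
      simp only [hz] at h3
      linarith
    · refine antitoneOn_of_deriv_nonpos (convex_Iic (0 : ℝ)) hgc.continuousOn
        (fun s _ => (hg s).differentiableAt.differentiableWithinAt) (fun s hs => ?_)
        (mem_Iic.2 ht) (mem_Iic.2 le_rfl) ht
      rw [interior_Iic] at hs
      rw [(hg s).deriv]
      have h3 := hmono (le_of_lt hs)
      simp only [hz] at h3
      linarith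
  -- the sign
  by_contra hcon
  push Not at hcon
  have h3 : JA m x u t ≤ 0 := by
    by_contra h4
    push Not at h4
    have := hsq t
    nlinarith
  have h4 : (0 : ℝ) ∈ uIcc (JA m x u t) (JA m x u 0) := by
    rw [h0.1]
    exact mem_uIcc_of_le h3 zero_le_one
  obtain ⟨s, -, hs⟩ := intermediate_value_uIcc hcont.continuousOn h4
  have h5 := hsq s
  rw [hs] at h5
  norm_num at h5

private theorem AN1_rot_smooth : ContDiff ℝ ∞ rot :=
  contDiff_snd.neg.prodMk contDiff_fst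

private theorem AN1_fr_lin (c : Co) (a b : ℝ) (v w : Pl) :
    fr c (a • v + b • w) = a • fr c v + b • fr c w := by
  unfold fr
  simp only [Prod.fst_add, Prod.snd_add, Prod.smul_fst, Prod.smul_snd, smul_eq_mul]
  rw [smul_add, smul_add, smul_smul, smul_smul, smul_smul, smul_smul, add_smul, add_smul]
  abel

private theorem AN1_eu_sq (v : Pl) : eu v ^ 2 = v.1 ^ 2 + v.2 ^ 2 := by
  unfold eu
  exact Real.sq_sqrt (by positivity)

private theorem AN1_eu_rot (v : Pl) : eu (rot v) = eu v := by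
  unfold eu rot
  congr 1
  show (-v.2) ^ 2 + v.1 ^ 2 = v.1 ^ 2 + v.2 ^ 2
  ring

theorem Fm_smooth (hX : Surface Γ D) {m : Pl → Co} (hm : HM Γ m) (x0 v0 : Pl) :
    ContDiff ℝ ∞ (Fm m x0 v0) := by
  have h1 : ContDiff ℝ ∞ fun p : Pl => gfl m p.1 (x0, v0) :=
    (gfl_smooth hX hm).comp (contDiff_fst.prodMk contDiff_const)
  have h2 : ContDiff ℝ ∞ fun p : Pl => ((gfl m p.1 (x0, v0)).1, p.2 • rot (gfl m p.1 (x0, v0)).2) :=
    h1.fst.prodMk (contDiff_snd.smul (AN1_rot_smooth.comp h1.snd))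
  exact (Ex_smooth hX hm).comp h2

private theorem AN1_e_unit (hX : Surface Γ D) {m : Pl → Co} (hm : HM Γ m) {x0 v0 : Pl}
    (hv : eu v0 = 1) (s y : ℝ) :
    eu (gfl m s (x0, v0)).2 = 1 ∧
      eu (gfl m y ((gfl m s (x0, v0)).1, rot (gfl m s (x0, v0)).2)).2 = 1 := by
  have h1 : eu (gfl m s (x0, v0)).2 = 1 := by
    rw [gfl_eu hX hm]
    exact hv
  refine ⟨h1, ?_⟩
  rw [gfl_eu hX hm]
  show eu (rot (gfl m s (x0, v0)).2) = 1
  rw [AN1_eu_rot, h1]

theorem Fm_fderiv (hX : Surface Γ D) {m : Pl → Co} (hm : HM Γ m) {x0 v0 : Pl} (hv : eu v0 = 1)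
    (p w : Pl) {z : Pl × Pl} {e : Pl} (hz : z = gfl m p.1 (x0, v0))
    (he : e = (gfl m p.2 (z.1, rot z.2)).2) :
    fderiv ℝ (Fm m x0 v0) p w =
      fr (m (Fm m x0 v0 p)) (w.2 • e - (w.1 * JA m z.1 (rot z.2) p.2) • rot e) := by
  obtain ⟨s, y⟩ := p
  simp only at hz he
  have hFs := Fm_smooth hX hm x0 v0
  have hFd : HasFDerivAt (Fm m x0 v0) (fderiv ℝ (Fm m x0 v0) (s, y)) (s, y) :=
    ((hFs.differentiable (by simp)) (s, y)).hasFDerivAt
  have hzu : eu (rot z.2) = 1 := by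
    rw [AN1_eu_rot, hz]
    exact (AN1_e_unit hX hm hv s y).1
  have hF : Fm m x0 v0 (s, y) = Ex m z.1 (y • rot z.2) := by
    rw [hz]
    rfl
  -- the derivative in `y`
  have hy : fderiv ℝ (Fm m x0 v0) (s, y) (0, 1) = fr (m (Fm m x0 v0 (s, y))) e := by
    have h1 : HasDerivAt (fun r : ℝ => ((s, r) : Pl)) ((0, 1) : Pl) y :=
      (hasDerivAt_const y s).prodMk (hasDerivAt_id y)
    have h2 : HasDerivAt (fun r : ℝ => Fm m x0 v0 (s, r))
        (fderiv ℝ (Fm m x0 v0) (s, y) (0, 1)) y := hFd.comp_hasDerivAt y h1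
    have h3 := (qf_gfl hX hm y z.1 (rot z.2)).1
    have h4 : (fun r : ℝ => Fm m x0 v0 (s, r)) = fun r : ℝ => Ex m z.1 (r • rot z.2) := by
      funext r
      rw [hz]
      rfl
    rw [h4] at h2
    rw [hF, he]
    exact h2.unique h3
  -- the derivative in `s`
  have hs : fderiv ℝ (Fm m x0 v0) (s, y) (1, 0) =
      fr (m (Fm m x0 v0 (s, y))) (-(JA m z.1 (rot z.2) y) • rot e) := by
    have h1 : HasDerivAt (fun r : ℝ => ((r, y) : Pl)) ((1, 0) : Pl) s :=
      (hasDerivAt_id s).prodMk (hasDerivAt_const s y)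
    have h2 : HasDerivAt (fun r : ℝ => Fm m x0 v0 (r, y))
        (fderiv ℝ (Fm m x0 v0) (s, y) (1, 0)) s := by
      have h2a : HasFDerivAt (Fm m x0 v0) (fderiv ℝ (Fm m x0 v0) (s, y))
        ((fun r : ℝ => ((r, y) : Pl)) s) := hFd
      exact h2a.comp_hasDerivAt s h1
    -- the curve of the unit normals
    have h3 := (gfl_isFlow hX hm).deriv (x0, v0) s
    rw [← hz] at h3
    have h4 : HasDerivAt (fun r : ℝ => (gfl m r (x0, v0)).1) (fr (m z.1) z.2) s :=
      h3.fst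
    have h5 : HasDerivAt (fun r : ℝ => (gfl m r (x0, v0)).2)
        (om m z.1 (fr (m z.1) z.2) • ((z.2.2, -z.2.1) : Pl)) s := h3.snd
    have h6 : HasDerivAt (fun r : ℝ => rot (gfl m r (x0, v0)).2)
        (om m z.1 (fr (m z.1) z.2) • z.2) s := by
      have h7 : HasDerivAt (fun r : ℝ => (gfl m r (x0, v0)).2.1)
          (om m z.1 (fr (m z.1) z.2) * z.2.2) s := h5.fst
      have h8 : HasDerivAt (fun r : ℝ => (gfl m r (x0, v0)).2.2)
          (om m z.1 (fr (m z.1) z.2) * -z.2.1) s := h5.snd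
      have h9 : HasDerivAt (fun r : ℝ => ((-(gfl m r (x0, v0)).2.2, (gfl m r (x0, v0)).2.1) : Pl))
          ((-(om m z.1 (fr (m z.1) z.2) * -z.2.1), om m z.1 (fr (m z.1) z.2) * z.2.2) : Pl) s :=
        h8.neg.prodMk h7
      have e1 : ((-(om m z.1 (fr (m z.1) z.2) * -z.2.1),
          om m z.1 (fr (m z.1) z.2) * z.2.2) : Pl) = om m z.1 (fr (m z.1) z.2) • z.2 := by
        refine Prod.ext ?_ ?_
        · show -(om m z.1 (fr (m z.1) z.2) * -z.2.1) = om m z.1 (fr (m z.1) z.2) * z.2.1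
          ring
        · rfl
      rw [e1] at h9
      exact h9
    have h10 : HasDerivAt (fun r : ℝ => ((gfl m r (x0, v0)).1, rot (gfl m r (x0, v0)).2))
        ((fr (m z.1) z.2, om m z.1 (fr (m z.1) z.2) • z.2) : Pl × Pl) s := h4.prodMk h6
    have e2 : ((fr (m z.1) z.2, om m z.1 (fr (m z.1) z.2) • z.2) : Pl × Pl) =
        lift m z.1 (rot z.2) 0 (-1) 0 := by
      have e3 : (0 : ℝ) • rot z.2 + (-1 : ℝ) • rot (rot z.2) = z.2 := by
        refine Prod.ext ?_ ?_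
        · show (0 : ℝ) * (rot z.2).1 + (-1) * (-(rot z.2).2) = z.2.1
          show (0 : ℝ) * (-z.2.2) + (-1) * (-z.2.1) = z.2.1
          ring
        · show (0 : ℝ) * (rot z.2).2 + (-1) * (rot z.2).1 = z.2.2
          show (0 : ℝ) * z.2.1 + (-1) * (-z.2.2) = z.2.2
          ring
      have e4 : rot (rot z.2) = -z.2 := rfl
      unfold lift
      rw [e3, e4, zero_sub, smul_neg, neg_smul, neg_neg]
    rw [e2] at h10
    have hgs : ContDiff ℝ ∞ (gfl m y) :=
      (gfl_smooth hX hm).comp (contDiff_const.prodMk contDiff_id)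
    have hzr : ((gfl m s (x0, v0)).1, rot (gfl m s (x0, v0)).2) = (z.1, rot z.2) := by
      rw [hz]
    have h11 : HasFDerivAt (gfl m y) (fderiv ℝ (gfl m y) (z.1, rot z.2))
        ((gfl m s (x0, v0)).1, rot (gfl m s (x0, v0)).2) := by
      rw [hzr]
      exact ((hgs.differentiable (by simp)) (z.1, rot z.2)).hasFDerivAt
    have h12 := h11.comp_hasDerivAt s h10
    have h13 : fderiv ℝ (gfl m y) (z.1, rot z.2) (lift m z.1 (rot z.2) 0 (-1) 0) =
        lift m (gfl m y (z.1, rot z.2)).1 (gfl m y (z.1, rot z.2)).2 0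
          (-1 * JA m z.1 (rot z.2) y + 0 * JB m z.1 (rot z.2) y)
          (-1 * deriv (JA m z.1 (rot z.2)) y + 0 * deriv (JB m z.1 (rot z.2)) y) :=
      dgf_split hX hm hzu y 0 (-1) 0
    rw [h13] at h12
    have h14 : HasDerivAt (fun r : ℝ => Fm m x0 v0 (r, y))
        (lift m (gfl m y (z.1, rot z.2)).1 (gfl m y (z.1, rot z.2)).2 0
          (-1 * JA m z.1 (rot z.2) y + 0 * JB m z.1 (rot z.2) y)
          (-1 * deriv (JA m z.1 (rot z.2)) y + 0 * deriv (JB m z.1 (rot z.2)) y)).1 s := by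
      have h15 : (fun r : ℝ => Fm m x0 v0 (r, y)) = fun r : ℝ =>
          (gfl m y ((gfl m r (x0, v0)).1, rot (gfl m r (x0, v0)).2)).1 := by
        funext r
        exact Ex_ray hX hm y _ _
      rw [h15]
      exact h12.fst
    rw [h2.unique h14, he, hF, Ex_ray hX hm y z.1 (rot z.2)]
    have h16 : (0 : ℝ) • (gfl m y (z.1, rot z.2)).2 +
        (-1 * JA m z.1 (rot z.2) y + 0 * JB m z.1 (rot z.2) y) •
          rot (gfl m y (z.1, rot z.2)).2 =
        -(JA m z.1 (rot z.2) y) • rot (gfl m y (z.1, rot z.2)).2 := by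
      rw [zero_smul, zero_add, zero_mul, add_zero, neg_one_mul]
    unfold lift
    rw [h16]
  -- the sum
  have hw : w = w.1 • ((1, 0) : Pl) + w.2 • ((0, 1) : Pl) := by
    refine Prod.ext ?_ ?_
    · show w.1 = w.1 * 1 + w.2 * 0
      ring
    · show w.2 = w.1 * 0 + w.2 * 1
      ring
  have hsum : fderiv ℝ (Fm m x0 v0) (s, y) w =
      w.1 • fderiv ℝ (Fm m x0 v0) (s, y) (1, 0) + w.2 • fderiv ℝ (Fm m x0 v0) (s, y) (0, 1) := by
    rw [← map_smul, ← map_smul, ← map_add, ← hw]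
  rw [hsum, hs, hy, ← AN1_fr_lin]
  congr 1
  show w.1 • (-(JA m z.1 (rot z.2) y) • rot e) + w.2 • e =
    w.2 • e - (w.1 * JA m z.1 (rot z.2) y) • rot e
  rw [smul_smul, mul_neg, neg_smul]
  abel

private theorem AN1_comb {e : Pl} (he : eu e = 1) (a b : ℝ) :
    eu (a • e - b • rot e) ^ 2 = a ^ 2 + b ^ 2 := by
  have h1 := AN1_eu_sq e
  rw [he] at h1
  rw [AN1_eu_sq]
  show (a * e.1 - b * (-e.2)) ^ 2 + (a * e.2 - b * e.1) ^ 2 = a ^ 2 + b ^ 2
  have h2 : (a * e.1 - b * (-e.2)) ^ 2 + (a * e.2 - b * e.1) ^ 2 =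
      (a ^ 2 + b ^ 2) * (e.1 ^ 2 + e.2 ^ 2) := by ring
  rw [h2, ← h1]
  ring

theorem Fm_expand (hX : Surface Γ D) {m : Pl → Co} (hm : HM Γ m) {x0 v0 : Pl} (hv : eu v0 = 1)
    (p w : Pl) : 1 * eu w ^ 2 ≤ qf (m (Fm m x0 v0 p)) (fderiv ℝ (Fm m x0 v0) p w) := by
  obtain ⟨hu, heu⟩ := AN1_e_unit hX hm hv p.1 p.2
  rw [Fm_fderiv hX hm hv p w rfl rfl, qf_fr (hm.pos _).1 (hm.pos _).2, AN1_comb heu,
    AN1_eu_sq, one_mul]
  have hu' : eu (rot (gfl m p.1 (x0, v0)).2) = 1 := by rw [AN1_eu_rot, hu]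
  have h1 := JA_ge hX hm (x := (gfl m p.1 (x0, v0)).1) hu' p.2
  have h2 : 1 ≤ JA m (gfl m p.1 (x0, v0)).1 (rot (gfl m p.1 (x0, v0)).2) p.2 ^ 2 :=
    one_le_pow₀ h1
  rw [mul_pow]
  have h3 : w.1 ^ 2 * 1 ≤
      w.1 ^ 2 * JA m (gfl m p.1 (x0, v0)).1 (rot (gfl m p.1 (x0, v0)).2) p.2 ^ 2 :=
    mul_le_mul_of_nonneg_left h2 (sq_nonneg _)
  linarith

theorem Fm_bij (hX : Surface Γ D) {m : Pl → Co} (hm : HM Γ m) {x0 v0 : Pl} (hv : eu v0 = 1) :
    Function.Bijective (Fm m x0 v0) :=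
  hadamard hX hm (Fm_smooth hX hm x0 v0) one_pos fun p w => Fm_expand hX hm hv p w

private theorem AN1_det (A : Pl →L[ℝ] Pl) : A.det = wd (A (1, 0)) (A (0, 1)) := by
  have h1 : A.det = LinearMap.det (A : Pl →ₗ[ℝ] Pl) := rfl
  rw [h1, ← LinearMap.det_toMatrix (Module.Basis.finTwoProd ℝ), Matrix.det_fin_two]
  simp only [LinearMap.toMatrix_apply, Module.Basis.finTwoProd_zero,
    Module.Basis.finTwoProd_one, Module.Basis.coe_finTwoProd_repr,
    ContinuousLinearMap.coe_coe, Matrix.cons_val_zero, Matrix.cons_val_one]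
  unfold wd
  ring

theorem Fm_det (hX : Surface Γ D) {m : Pl → Co} (hm : HM Γ m) {x0 v0 : Pl} (hv : eu v0 = 1)
    (p : Pl) {z : Pl × Pl} (hz : z = gfl m p.1 (x0, v0)) :
    √(dt (m (Fm m x0 v0 p))) * (fderiv ℝ (Fm m x0 v0) p).det = JA m z.1 (rot z.2) p.2 := by
  obtain ⟨hu, heu⟩ := AN1_e_unit hX hm hv p.1 p.2
  rw [← hz] at heu hu
  rw [AN1_det, ← wd_ifr (hm.pos _).1 (hm.pos _).2, Fm_fderiv hX hm hv p (1, 0) hz rfl,
    Fm_fderiv hX hm hv p (0, 1) hz rfl, ifr_fr (hm.pos _).1 (hm.pos _).2,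
    ifr_fr (hm.pos _).1 (hm.pos _).2]
  obtain ⟨e, he⟩ : ∃ e : Pl, e = (gfl m p.2 (z.1, rot z.2)).2 := ⟨_, rfl⟩
  rw [← he] at heu ⊢
  have h1 := AN1_eu_sq e
  rw [heu] at h1
  obtain ⟨j, hj⟩ : ∃ j : ℝ, j = JA m z.1 (rot z.2) p.2 := ⟨_, rfl⟩
  rw [← hj]
  show ((0 : ℝ) * e.1 - (1 * j) * (-e.2)) * ((1 : ℝ) * e.2 - (0 * j) * e.1) -
    ((0 : ℝ) * e.2 - (1 * j) * e.1) * ((1 : ℝ) * e.1 - (0 * j) * (-e.2)) = j
  have h2 : ((0 : ℝ) * e.1 - (1 * j) * (-e.2)) * ((1 : ℝ) * e.2 - (0 * j) * e.1) -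
      ((0 : ℝ) * e.2 - (1 * j) * e.1) * ((1 : ℝ) * e.1 - (0 * j) * (-e.2)) =
      j * (e.1 ^ 2 + e.2 ^ 2) := by ring
  rw [h2, ← h1]
  ring

end BR
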