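import Pool.Agent.LibBR73.AN4_Defs

/-! Row AN4r: the class `LB` of families of functions on the line. 40 min.
Plan. `LB_iff`: unfold `EB`; `norm_iteratedFDeriv_eq_norm_iteratedDeriv`. `LB_const` .. `LB_rpow` are `EB_const`,
`EB_id`, `EB_add`, `EB_sub`, `EB_mul`, `EB_inv`, `EB_rpow` (`LibBR70/JB1-JB3`) with `ℓ p = l p.1 + |p.2| ≥ 0`
(`|y| ≤ exp |y|`). `LB_deriv`: `iteratedDeriv_succ'`. `LB_rad`: with `g i y = ∫ t in 0..1, t ^ n * f i (t * y)`
prove by induction on `k`, for all `n` and `f`, that `g i` is `C^k` and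
`iteratedDeriv k (g i) y = ∫ t in 0..1, t ^ (n + k) * iteratedDeriv k (f i) (t * y)`: one step is
`HasDerivAt (g i) (∫ t in 0..1, t ^ (n + 1) * deriv (f i) (t * y)) y`
(`intervalIntegral.hasDerivAt_integral_of_dominated_loc_of_deriv_le`; the derivative of the integrand is
continuous in `(t, y)`, so it is bounded for `t ∈ [0, 1]`, `|y' - y| ≤ 1`). The bound follows from
`|iteratedDeriv k (f i) (t y)| ≤ C exp (C (l i + |t y|)) ≤ C exp (C (l i + |y|))` (`C ≥ 0`: `EB_bound'`).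
`LB_pull`: change of the index. -/

open MeasureTheory Set Filter Topology
open scoped ContDiff

namespace BR

variable {ι : Type} {l : ι → ℝ}

private theorem AN4r_mono {C C' a b : ℝ} (hC : C ≤ C') (h0 : 0 ≤ C') (ha : 0 ≤ a) (hab : a ≤ b) :
    C * Real.exp (C * a) ≤ C' * Real.exp (C' * b) := by
  rcases le_total C 0 with h | h
  · have h1 : C * Real.exp (C * a) ≤ 0 := mul_nonpos_of_nonpos_of_nonneg h (Real.exp_pos _).le
    have h2 : 0 ≤ C' * Real.exp (C' * b) := mul_nonneg h0 (Real.exp_pos _).le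
    linarith
  · apply mul_le_mul hC _ (Real.exp_pos _).le h0
    apply Real.exp_le_exp.2
    exact mul_le_mul hC hab ha h0

theorem LB_iff {f : ι → ℝ → ℝ} : LB l f ↔ (∀ i, ContDiff ℝ ∞ (f i)) ∧
    ∀ k : ℕ, ∃ C : ℝ, ∀ i y, |iteratedDeriv k (f i) y| ≤ C * Real.exp (C * (l i + |y|)) := by
  constructor
  · intro h
    refine ⟨fun i => h.smooth (i, 0), fun k => ?_⟩
    obtain ⟨C, hC⟩ := h.bound k
    refine ⟨C, fun i y => ?_⟩
    have := hC (i, y)
    rw [norm_iteratedFDeriv_eq_norm_iteratedDeriv, Real.norm_eq_abs] at this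
    exact this
  · rintro ⟨h1, h2⟩
    refine ⟨fun p => h1 p.1, fun k => ?_⟩
    obtain ⟨C, hC⟩ := h2 k
    refine ⟨C, fun p => ?_⟩
    rw [norm_iteratedFDeriv_eq_norm_iteratedDeriv, Real.norm_eq_abs]
    exact hC p.1 p.2

private theorem AN4r_nn (hl : ∀ i, 0 ≤ l i) : ∀ p : ι × ℝ, 0 ≤ l p.1 + |p.2| :=
  fun p => add_nonneg (hl p.1) (abs_nonneg _)

theorem LB_const (hl : ∀ i, 0 ≤ l i) {c : ι → ℝ} {C : ℝ} (hc : ∀ i, |c i| ≤ C * Real.exp (C * l i)) :
    LB l (fun i _ => c i) := by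
  refine EB_const (c := fun p : ι × ℝ => c p.1) (C := max C 0) (AN4r_nn hl) fun p => ?_
  exact (hc p.1).trans (AN4r_mono (le_max_left _ _) (le_max_right _ _) (hl p.1)
    (by have := abs_nonneg p.2; linarith))

theorem LB_id (hl : ∀ i, 0 ≤ l i) : LB l (fun _ y => y) := by
  refine EB_id (C := 1) (AN4r_nn hl) fun p => ?_
  show |p.2| ≤ 1 * Real.exp (1 * (l p.1 + |p.2|))
  rw [one_mul, one_mul]
  have h1 := Real.add_one_le_exp (l p.1 + |p.2|)
  have h2 := hl p.1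
  linarith

theorem LB_add (hl : ∀ i, 0 ≤ l i) {f g : ι → ℝ → ℝ} (hf : LB l f) (hg : LB l g) :
    LB l (fun i y => f i y + g i y) :=
  EB_add (AN4r_nn hl) hf hg

theorem LB_sub (hl : ∀ i, 0 ≤ l i) {f g : ι → ℝ → ℝ} (hf : LB l f) (hg : LB l g) :
    LB l (fun i y => f i y - g i y) :=
  EB_sub (AN4r_nn hl) hf hg

theorem LB_mul (hl : ∀ i, 0 ≤ l i) {f g : ι → ℝ → ℝ} (hf : LB l f) (hg : LB l g) :
    LB l (fun i y => f i y * g i y) :=
  EB_mul (AN4r_nn hl) hf hg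

theorem LB_deriv {f : ι → ℝ → ℝ} (hf : LB l f) : LB l (fun i => deriv (f i)) := by
  obtain ⟨h1, h2⟩ := LB_iff.1 hf
  refine LB_iff.2 ⟨fun i => (contDiff_infty_iff_deriv.1 (h1 i)).2, fun k => ?_⟩
  obtain ⟨C, hC⟩ := h2 (k + 1)
  refine ⟨C, fun i y => ?_⟩
  rw [← iteratedDeriv_succ']
  exact hC i y

theorem LB_inv (hl : ∀ i, 0 ≤ l i) {f : ι → ℝ → ℝ} (hf : LB l f) (h0 : ∀ i y, f i y ≠ 0) {C : ℝ}
    (hC : ∀ i y, |f i y|⁻¹ ≤ C * Real.exp (C * (l i + |y|))) : LB l (fun i y => (f i y)⁻¹) :=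
  EB_inv (AN4r_nn hl) hf (fun p y => h0 p.1 y) (C := C) fun p => hC p.1 p.2

theorem LB_rpow (hl : ∀ i, 0 ≤ l i) {f : ι → ℝ → ℝ} (hf : LB l f) (h0 : ∀ i y, 0 < f i y) {C : ℝ}
    (hC : ∀ i y, |f i y|⁻¹ ≤ C * Real.exp (C * (l i + |y|))) (p : ℝ) :
    LB l (fun i y => f i y ^ p) :=
  EB_rpow (AN4r_nn hl) hf (fun p y => h0 p.1 y) (C := C) (fun p => hC p.1 p.2) p

private theorem AN4r_step {h : ℝ → ℝ} (hh : ContDiff ℝ ∞ h) (n : ℕ) (y : ℝ) :
    HasDerivAt (fun y => ∫ t in (0 : ℝ)..1, t ^ n * h (t * y))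
      (∫ t in (0 : ℝ)..1, t ^ (n + 1) * deriv h (t * y)) y := by
  have hc : Continuous h := hh.continuous
  have hd : ContDiff ℝ ∞ (deriv h) := (contDiff_infty_iff_deriv.1 hh).2
  have hdc : Continuous (deriv h) := hd.continuous
  have hF' : Continuous fun q : ℝ × ℝ => q.2 ^ (n + 1) * deriv h (q.2 * q.1) := by fun_prop
  obtain ⟨B, hB⟩ := ((isCompact_closedBall y 1).prod (isCompact_Icc (a := (0 : ℝ)) (b := 1))).exists_bound_of_continuousOn
    hF'.continuousOn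
  refine (intervalIntegral.hasDerivAt_integral_of_dominated_loc_of_deriv_le
    (F := fun y t => t ^ n * h (t * y)) (F' := fun y t => t ^ (n + 1) * deriv h (t * y))
    (s := Metric.closedBall y 1) (bound := fun _ => B) (Metric.closedBall_mem_nhds y one_pos)
    ?_ ?_ ?_ ?_ ?_ ?_).2
  · refine Filter.Eventually.of_forall fun x => ?_
    have : Continuous fun t : ℝ => t ^ n * h (t * x) := by fun_prop
    exact this.aestronglyMeasurable
  · have : Continuous fun t : ℝ => t ^ n * h (t * y) := by fun_prop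
    exact this.intervalIntegrable 0 1
  · have : Continuous fun t : ℝ => t ^ (n + 1) * deriv h (t * y) := by fun_prop
    exact this.aestronglyMeasurable
  · refine ae_of_all _ fun t ht x hx => ?_
    rw [uIoc_of_le zero_le_one] at ht
    exact hB (x, t) ⟨hx, Ioc_subset_Icc_self ht⟩
  · exact intervalIntegrable_const
  · refine ae_of_all _ fun t _ x _ => ?_
    have h1 : HasDerivAt (fun x => t * x) t x := by simpa using (hasDerivAt_id x).const_mul t
    have h2 : HasDerivAt h (deriv h (t * x)) (t * x) :=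
      ((contDiff_infty_iff_deriv.1 hh).1 (t * x)).hasDerivAt
    have h3 := (h2.comp x h1).const_mul (t ^ n)
    have h4 : t ^ (n + 1) * deriv h (t * x) = t ^ n * (deriv h (t * x) * t) := by ring
    show HasDerivAt (fun x => t ^ n * h (t * x)) (t ^ (n + 1) * deriv h (t * x)) x
    rw [h4]
    exact h3

private theorem AN4r_deriv {h : ℝ → ℝ} (hh : ContDiff ℝ ∞ h) (n : ℕ) :
    deriv (fun y => ∫ t in (0 : ℝ)..1, t ^ n * h (t * y)) =
      fun y => ∫ t in (0 : ℝ)..1, t ^ (n + 1) * deriv h (t * y) :=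
  funext fun y => (AN4r_step hh n y).deriv

private theorem AN4r_contDiff (k : ℕ) : ∀ (h : ℝ → ℝ), ContDiff ℝ ∞ h → ∀ n : ℕ,
    ContDiff ℝ k (fun y => ∫ t in (0 : ℝ)..1, t ^ n * h (t * y)) := by
  induction k with
  | zero =>
    intro h hh n
    have : Differentiable ℝ (fun y => ∫ t in (0 : ℝ)..1, t ^ n * h (t * y)) :=
      fun y => (AN4r_step hh n y).differentiableAt
    exact contDiff_zero.2 this.continuous
  | succ k ih =>
    intro h hh n
    have h1 : ((k + 1 : ℕ) : WithTop ℕ∞) = (k : WithTop ℕ∞) + 1 := by push_cast; rfl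
    rw [h1, contDiff_succ_iff_deriv]
    refine ⟨fun y => (AN4r_step hh n y).differentiableAt, by simp, ?_⟩
    rw [AN4r_deriv hh n]
    exact ih _ (contDiff_infty_iff_deriv.1 hh).2 (n + 1)

private theorem AN4r_iter (k : ℕ) : ∀ (h : ℝ → ℝ), ContDiff ℝ ∞ h → ∀ n : ℕ,
    iteratedDeriv k (fun y => ∫ t in (0 : ℝ)..1, t ^ n * h (t * y)) =
      fun y => ∫ t in (0 : ℝ)..1, t ^ (n + k) * iteratedDeriv k h (t * y) := by
  induction k with
  | zero =>
    intro h _ n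
    simp [iteratedDeriv_zero]
  | succ k ih =>
    intro h hh n
    rw [iteratedDeriv_succ', AN4r_deriv hh n, ih _ (contDiff_infty_iff_deriv.1 hh).2 (n + 1),
      iteratedDeriv_succ']
    funext y
    congr 1
    funext t
    rw [show n + 1 + k = n + (k + 1) by ring]

theorem LB_rad (hl : ∀ i, 0 ≤ l i) {f : ι → ℝ → ℝ} (hf : LB l f) (n : ℕ) :
    LB l (fun i y => ∫ t in (0 : ℝ)..1, t ^ n * f i (t * y)) := by
  obtain ⟨h1, h2⟩ := LB_iff.1 hf
  refine LB_iff.2 ⟨fun i => contDiff_infty.2 fun k => AN4r_contDiff k _ (h1 i) n, fun k => ?_⟩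
  obtain ⟨C, hC⟩ := h2 k
  refine ⟨max C 0, fun i y => ?_⟩
  rw [AN4r_iter k _ (h1 i) n]
  have hb : ∀ t ∈ Set.uIoc (0 : ℝ) 1, ‖t ^ (n + k) * iteratedDeriv k (f i) (t * y)‖ ≤
      max C 0 * Real.exp (max C 0 * (l i + |y|)) := by
    intro t ht
    rw [uIoc_of_le zero_le_one] at ht
    have ht1 : |t ^ (n + k)| ≤ 1 := by
      rw [abs_of_nonneg (pow_nonneg ht.1.le _)]
      exact pow_le_one₀ ht.1.le ht.2
    have hty : |t * y| ≤ |y| := by
      rw [abs_mul, abs_of_pos ht.1]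
      have := abs_nonneg y
      nlinarith [ht.2]
    rw [Real.norm_eq_abs, abs_mul]
    calc |t ^ (n + k)| * |iteratedDeriv k (f i) (t * y)| ≤ 1 * |iteratedDeriv k (f i) (t * y)| :=
          mul_le_mul_of_nonneg_right ht1 (abs_nonneg _)
      _ = |iteratedDeriv k (f i) (t * y)| := one_mul _
      _ ≤ C * Real.exp (C * (l i + |t * y|)) := hC i (t * y)
      _ ≤ max C 0 * Real.exp (max C 0 * (l i + |y|)) :=
          AN4r_mono (le_max_left _ _) (le_max_right _ _)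
            (add_nonneg (hl i) (abs_nonneg _)) (by linarith)
  have := intervalIntegral.norm_integral_le_of_norm_le_const hb
  rw [Real.norm_eq_abs, sub_zero, abs_one, mul_one] at this
  exact this

theorem LB_pull {ι' : Type} {l' : ι' → ℝ} (φ : ι' → ι) {A : ℝ} (hl : ∀ i, 0 ≤ l i)
    (hl' : ∀ i, 0 ≤ l' i) (h : ∀ i, l (φ i) ≤ A * (1 + l' i)) {f : ι → ℝ → ℝ} (hf : LB l f) :
    LB l' (fun i => f (φ i)) := by
  obtain ⟨h1, h2⟩ := LB_iff.1 hf
  refine LB_iff.2 ⟨fun i => h1 (φ i), fun k => ?_⟩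
  obtain ⟨C, hC⟩ := h2 k
  set C0 : ℝ := max C 0 with hC0
  set A0 : ℝ := max A 1 with hA0
  have hC0n : 0 ≤ C0 := le_max_right _ _
  have hA0n : 1 ≤ A0 := le_max_right _ _
  refine ⟨C0 * Real.exp (C0 * A0) + C0 * A0, fun i y => ?_⟩
  have hli := hl' i
  have hy := abs_nonneg y
  have e1 : |iteratedDeriv k (f (φ i)) y| ≤ C0 * Real.exp (C0 * (A0 + A0 * (l' i + |y|))) := by
    refine (hC (φ i) y).trans (AN4r_mono (le_max_left _ _) hC0n (add_nonneg (hl _) hy) ?_)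
    have h3 : A * (1 + l' i) ≤ A0 * (1 + l' i) :=
      mul_le_mul_of_nonneg_right (le_max_left _ _) (by linarith)
    have h4 := h i
    nlinarith
  have e2 : C0 * Real.exp (C0 * (A0 + A0 * (l' i + |y|))) =
      (C0 * Real.exp (C0 * A0)) * Real.exp (C0 * A0 * (l' i + |y|)) := by
    rw [mul_assoc C0 (Real.exp (C0 * A0)), ← Real.exp_add]
    ring_nf
  have e3 : 0 ≤ C0 * Real.exp (C0 * A0) := mul_nonneg hC0n (Real.exp_pos _).le
  have e4 : 0 ≤ C0 * A0 := mul_nonneg hC0n (by linarith)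
  rw [e2] at e1
  refine e1.trans ?_
  apply mul_le_mul (by linarith) _ (Real.exp_pos _).le (by linarith)
  apply Real.exp_le_exp.2
  apply mul_le_mul_of_nonneg_right (by linarith) (by linarith)

end BR
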