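import Pool.Agent.LibBR73.AN5_Defs
import Pool.Agent.LibBR73.AN1
import Pool.Agent.LibBR73.AN4r
import Pool.Agent.LibBR70.JB4
import Pool.Agent.LibBR70.H1m

/-! Row AN5a: the perpendicular geodesic and its Jacobi field: exponential bounds. 50 min.
Plan. `EB_pull`: `C exp (C ℓ) ≤ C' exp (C' ℓ')` with `C' = |C| exp (|C| A')+ |C| A'`, `A' = |A|`.
`EB_Xp`: pull `EB_Ex` back along `(q, y) ↦ ((q.1, y • rot q.2), shf hX (Xp m q.1 q.2 y))`
(`‖y • rot v‖ ≤ |y|` for `eu v = 1`; `Xp m x v y = Ex m x (y • rot v)`; `shf_mem'`) and compose (`EB_comp`) with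
`y' ↦ (q.1, y' • rot q.2)` (`EB_prod`, `EB_const`, `EB_smul`, `EB_id`; `closure D` is bounded).
`JA_qf`: `p ↦ (gfl m t p).1` and `p ↦ Ex m p.1 (t • p.2)` are the same function (`Ex_ray`); its derivative at
`(x, u)` in the direction `ξ = lift m x u 0 1 0` is, by `dgf_split`, the first component of
`lift m z e 0 (JA ..) (deriv JA ..)`, `(z, e) = gfl m t (x, u)`, i.e. `fr (m z) (JA • rot e)`; by the chain
rule it is `fderiv (fun p => Ex m p.1 p.2) (x, t • u) (ξ.1, t • ξ.2)`. Take `qf` (`qf_fr`, `gfl_eu`).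
`LB_JA`: at the index `(i, y)` let `η = shf hX (Xp .. y)`, `g p = η⁻¹ • Ex m p.1 p.2`. For all `y'`
`JA y' ^ 2 = qf (m (g (x0, y' • u))) (fderiv g (x0, y' • u) (ξ.1, y' • ξ.2))` (`hm.inv` and the chain rule),
`u = rot v0`. `g (x0, y • u) ∈ closure D` is compact, so `m` is handled by `EB_compact`, `fderiv g` by `EB_fderiv`
of `EB_Ex` (pulled back) and `EB_clm_apply`; `ξ` is bounded (continuous on the compact set
`closure D × unit circle`). `qf` is a polynomial. Finally `JA = (JA ^ 2) ^ (1/2)` (`EB_rpow`, `JA_ge`). -/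

open MeasureTheory Set Filter Topology
open scoped ContDiff

namespace BR

open BGS

theorem EB_pull {ι ι' : Type} {E F : Type} [NormedAddCommGroup E] [NormedSpace ℝ E]
    [NormedAddCommGroup F] [NormedSpace ℝ F] {ℓ : ι → ℝ} {x : ι → E} {f : ι → E → F}
    (hℓ : ∀ i, 0 ≤ ℓ i) (hf : EB ℓ f x) (φ : ι' → ι) {ℓ' : ι' → ℝ} (hℓ' : ∀ i, 0 ≤ ℓ' i) {A : ℝ}
    (h : ∀ i, ℓ (φ i) ≤ A * (1 + ℓ' i)) : EB ℓ' (fun i => f (φ i)) (fun i => x (φ i)) := by
  refine ⟨fun i => hf.smooth (φ i), fun k => ?_⟩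
  obtain ⟨C, hC⟩ := hf.bound k
  refine ⟨|C| * Real.exp (|C| * |A|) + |C| * |A|, fun i => (hC (φ i)).trans ?_⟩
  have hC0 : 0 ≤ |C| := abs_nonneg C
  have hA0 : 0 ≤ |A| := abs_nonneg A
  have h1 : ℓ (φ i) ≤ |A| * (1 + ℓ' i) :=
    (h i).trans (mul_le_mul_of_nonneg_right (le_abs_self A) (by linarith [hℓ' i]))
  have h2 : C * ℓ (φ i) ≤ |C| * |A| + |C| * |A| * ℓ' i := by
    calc C * ℓ (φ i) ≤ |C| * ℓ (φ i) := mul_le_mul_of_nonneg_right (le_abs_self C) (hℓ _)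
      _ ≤ |C| * (|A| * (1 + ℓ' i)) := mul_le_mul_of_nonneg_left h1 hC0
      _ = _ := by ring
  calc C * Real.exp (C * ℓ (φ i)) ≤ |C| * Real.exp (|C| * |A| + |C| * |A| * ℓ' i) :=
        mul_le_mul (le_abs_self C) (Real.exp_le_exp.2 h2) (Real.exp_pos _).le hC0
    _ = |C| * Real.exp (|C| * |A|) * Real.exp (|C| * |A| * ℓ' i) := by
        rw [Real.exp_add]
        ring
    _ ≤ (|C| * Real.exp (|C| * |A|) + |C| * |A|) *
        Real.exp ((|C| * Real.exp (|C| * |A|) + |C| * |A|) * ℓ' i) := by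
        have h3 : 0 ≤ |C| * |A| := mul_nonneg hC0 hA0
        have h4 : 0 ≤ |C| * Real.exp (|C| * |A|) := mul_nonneg hC0 (Real.exp_pos _).le
        refine mul_le_mul (by linarith) (Real.exp_le_exp.2 ?_) (Real.exp_pos _).le (by linarith)
        exact mul_le_mul_of_nonneg_right (by linarith) (hℓ' i)

private theorem AN5a_le {M t : ℝ} (hM : 0 ≤ M) (ht : 0 ≤ t) : M ≤ M * Real.exp (M * t) := by
  have h1 : 1 ≤ Real.exp (M * t) := Real.one_le_exp (mul_nonneg hM ht)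
  calc M = M * 1 := (mul_one M).symm
    _ ≤ M * Real.exp (M * t) := mul_le_mul_of_nonneg_left h1 hM

private theorem AN5a_rot {v : Pl} (hv : eu v = 1) : ‖rot v‖ ≤ 1 := by
  have h1 : v.1 ^ 2 + v.2 ^ 2 = 1 := by
    have h2 : eu v ^ 2 = v.1 ^ 2 + v.2 ^ 2 := Real.sq_sqrt (by positivity)
    rw [hv] at h2
    linarith
  have h2 : |v.1| ≤ 1 := abs_le_one_iff_mul_self_le_one.2 (by nlinarith [sq_nonneg v.2])
  have h3 : |v.2| ≤ 1 := abs_le_one_iff_mul_self_le_one.2 (by nlinarith [sq_nonneg v.1])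
  unfold rot
  rw [Prod.norm_def, max_le_iff, Real.norm_eq_abs, Real.norm_eq_abs, abs_neg]
  exact ⟨h3, h2⟩

private theorem AN5a_eu_rot (v : Pl) : eu (rot v) = eu v := by
  unfold eu rot
  congr 1
  ring

private theorem AN5a_eu_smul (c : ℝ) (v : Pl) : eu (c • v) ^ 2 = c ^ 2 * eu v ^ 2 := by
  have h1 : ∀ w : Pl, eu w ^ 2 = w.1 ^ 2 + w.2 ^ 2 := fun w => Real.sq_sqrt (by positivity)
  rw [h1, h1, Prod.smul_fst, Prod.smul_snd, smul_eq_mul, smul_eq_mul]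
  ring

variable {Γ : Type} [Group Γ] [MulAction Γ Pl] {D : Set Pl}

/-- The maps `p ↦ η⁻¹ • Ex p`, pulled back. -/
private theorem AN5a_g (hX : Surface Γ D) (hO : Ori Γ) {m : Pl → Co} (hm : HM Γ m) :
    EB (fun i : U1 D × ℝ => |i.2|)
      (fun i (p : Pl × Pl) => (shf hX (Xp m i.1.1.1 i.1.1.2 i.2))⁻¹ • Ex m p.1 p.2)
      (fun i => (i.1.1.1, i.2 • rot i.1.1.2)) := by
  refine EB_pull (fun i => norm_nonneg _) (EB_Ex hX hO hm)
    (fun i : U1 D × ℝ => (⟨((i.1.1.1, i.2 • rot i.1.1.2), shf hX (Xp m i.1.1.1 i.1.1.2 i.2)),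
      i.1.2.1, shf_mem' hX _⟩ : {q : (Pl × Pl) × Γ // q.1.1 ∈ closure D ∧
        q.2⁻¹ • Ex m q.1.1 q.1.2 ∈ closure D})) (fun i => abs_nonneg i.2) (A := 1) fun i => ?_
  show ‖i.2 • rot i.1.1.2‖ ≤ 1 * (1 + |i.2|)
  rw [norm_smul, Real.norm_eq_abs]
  have h1 := AN5a_rot i.1.2.2
  nlinarith [abs_nonneg i.2]

private theorem AN5a_f (hX : Surface Γ D) :
    EB (fun i : U1 D × ℝ => |i.2|)
      (fun i y => ((i.1.1.1, y • rot i.1.1.2) : Pl × Pl)) (fun i => i.2) := by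
  have hl : ∀ i : U1 D × ℝ, 0 ≤ |i.2| := fun i => abs_nonneg i.2
  obtain ⟨M, hM⟩ := hX.bdd.closure.exists_norm_le
  have hM0 : ∀ i : U1 D × ℝ, 0 ≤ M := fun i => (norm_nonneg _).trans (hM _ i.1.2.1)
  refine EB_prod hl (EB_const hl (C := M) fun i => ?_)
    (EB_smul hl (EB_id hl (C := 1) fun i => ?_) (EB_const hl (C := 1) fun i => ?_))
  · exact (hM _ i.1.2.1).trans (AN5a_le (hM0 i) (hl i))
  · rw [one_mul, one_mul, Real.norm_eq_abs]
    linarith [Real.add_one_le_exp |i.2|]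
  · exact (AN5a_rot i.1.2.2).trans (AN5a_le zero_le_one (hl i))

theorem EB_Xp (hX : Surface Γ D) (hO : Ori Γ) {m : Pl → Co} (hm : HM Γ m) :
    EB (fun i : U1 D × ℝ => |i.2|)
      (fun i y => (shf hX (Xp m i.1.1.1 i.1.1.2 i.2))⁻¹ • Xp m i.1.1.1 i.1.1.2 y)
      (fun i => i.2) :=
  EB_comp (g := fun (i : U1 D × ℝ) (p : Pl × Pl) =>
      (shf hX (Xp m i.1.1.1 i.1.1.2 i.2))⁻¹ • Ex m p.1 p.2)
    (f := fun (i : U1 D × ℝ) (y : ℝ) => ((i.1.1.1, y • rot i.1.1.2) : Pl × Pl))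
    (fun i : U1 D × ℝ => abs_nonneg i.2) (AN5a_g hX hO hm) (AN5a_f hX)

theorem JA_qf (hX : Surface Γ D) {m : Pl → Co} (hm : HM Γ m) {x u : Pl} (hu : eu u = 1) (t : ℝ) :
    JA m x u t ^ 2 = qf (m (Ex m x (t • u))) (fderiv ℝ (fun p : Pl × Pl => Ex m p.1 p.2)
      (x, t • u) ((lift m x u 0 1 0).1, t • (lift m x u 0 1 0).2)) := by
  set ξ : Pl × Pl := lift m x u 0 1 0 with hξ
  set L : Pl × Pl →L[ℝ] Pl × Pl :=
    (ContinuousLinearMap.fst ℝ Pl Pl).prod (t • ContinuousLinearMap.snd ℝ Pl Pl) with hL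
  have hLa : ∀ p : Pl × Pl, L p = (p.1, t • p.2) := fun _ => rfl
  have hEx : Differentiable ℝ (fun p : Pl × Pl => Ex m p.1 p.2) :=
    (Ex_smooth hX hm).differentiable (by simp)
  have hgt : Differentiable ℝ (gfl m t) := by
    have h1 : ContDiff ℝ ∞ (fun p : Pl × Pl => gfl m t p) :=
      (gfl_smooth hX hm).comp (contDiff_const.prodMk contDiff_id)
    exact h1.differentiable (by simp)
  have h1 : HasFDerivAt (fun p : Pl × Pl => (gfl m t p).1)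
      ((ContinuousLinearMap.fst ℝ Pl Pl).comp (fderiv ℝ (gfl m t) (x, u))) (x, u) :=
    (hgt (x, u)).hasFDerivAt.fst
  have h2 : HasFDerivAt (fun p : Pl × Pl => (gfl m t p).1)
      ((fderiv ℝ (fun p : Pl × Pl => Ex m p.1 p.2) (L (x, u))).comp L) (x, u) := by
    have h3 : (fun p : Pl × Pl => (gfl m t p).1) = (fun p : Pl × Pl => Ex m p.1 p.2) ∘ L := by
      funext p
      rw [Function.comp_apply, hLa]
      exact (Ex_ray hX hm t p.1 p.2).symm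
    rw [h3]
    exact (hEx (L (x, u))).hasFDerivAt.comp (x, u) L.hasFDerivAt
  have h3 := congrArg (fun T : Pl × Pl →L[ℝ] Pl => T ξ) (h1.unique h2)
  simp only [ContinuousLinearMap.comp_apply, ContinuousLinearMap.coe_fst', hLa] at h3
  rw [← h3]
  have h4 : fderiv ℝ (gfl m t) (x, u) ξ = dgf m t (x, u) ξ := rfl
  rw [h4, hξ, dgf_split hX hm hu t 0 1 0]
  show JA m x u t ^ 2 = qf (m (Ex m x (t • u))) (fr (m (gfl m t (x, u)).1)
    ((0 : ℝ) • (gfl m t (x, u)).2 + (1 * JA m x u t + 0 * JB m x u t) • rot (gfl m t (x, u)).2))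
  rw [Ex_ray hX hm, zero_smul, zero_add, zero_mul, add_zero, one_mul,
    qf_fr (hm.pos _).1 (hm.pos _).2, AN5a_eu_smul, AN5a_eu_rot, gfl_eu hX hm, hu]
  ring

private theorem AN5a_xib (hX : Surface Γ D) {m : Pl → Co} (hm : HM Γ m) :
    ∃ C : ℝ, 0 ≤ C ∧ ∀ x ∈ closure D, ∀ u : Pl, ‖u‖ ≤ 1 → ‖lift m x u 0 1 0‖ ≤ C := by
  have h1 : Continuous (fun p : Pl × Pl => lift m p.1 p.2 0 1 0) := by
    have hf := (fr_smooth hm.smooth hm.pos).continuous
    have ho := (om_smooth hm.smooth hm.pos).continuous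
    have hr0 : Continuous (fun p : Pl × Pl => rot p.2) := by
      unfold rot
      fun_prop
    have hr : Continuous (fun p : Pl × Pl => (0 : ℝ) • p.2 + (1 : ℝ) • rot p.2) :=
      (continuous_snd.const_smul (0 : ℝ)).add (hr0.const_smul (1 : ℝ))
    have h2 : Continuous (fun p : Pl × Pl => fr (m p.1) ((0 : ℝ) • p.2 + (1 : ℝ) • rot p.2)) :=
      hf.comp (continuous_fst.prodMk hr)
    have h3 : Continuous (fun p : Pl × Pl => om m p.1 (fr (m p.1) ((0 : ℝ) • p.2 +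
        (1 : ℝ) • rot p.2))) := ho.comp (continuous_fst.prodMk h2)
    exact h2.prodMk ((continuous_const.sub h3).smul hr0)
  obtain ⟨C, hC⟩ := (hX.bdd.isCompact_closure.prod
    (isCompact_closedBall (0 : Pl) 1)).exists_bound_of_continuousOn h1.continuousOn
  exact ⟨max C 0, le_max_right _ _, fun x hx u hu =>
    (hC (x, u) ⟨hx, by simpa using hu⟩).trans (le_max_left _ _)⟩

/-- The square of the Jacobi field in the shifted picture. -/
private theorem AN5a_sq (hX : Surface Γ D) {m : Pl → Co} (hm : HM Γ m) (i : U1 D × ℝ) (y : ℝ) :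
    JA m i.1.1.1 (rot i.1.1.2) y ^ 2 =
      qf (m ((shf hX (Xp m i.1.1.1 i.1.1.2 i.2))⁻¹ • Xp m i.1.1.1 i.1.1.2 y))
        (fderiv ℝ (fun p : Pl × Pl => (shf hX (Xp m i.1.1.1 i.1.1.2 i.2))⁻¹ • Ex m p.1 p.2)
          (i.1.1.1, y • rot i.1.1.2) ((lift m i.1.1.1 (rot i.1.1.2) 0 1 0).1,
            y • (lift m i.1.1.1 (rot i.1.1.2) 0 1 0).2)) := by
  have hu : eu (rot i.1.1.2) = 1 := by
    rw [AN5a_eu_rot]
    exact i.1.2.2
  set η : Γ := (shf hX (Xp m i.1.1.1 i.1.1.2 i.2))⁻¹ with hη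
  rw [JA_qf hX hm hu, ← hm.inv η]
  have h1 : fderiv ℝ (fun p : Pl × Pl => η • Ex m p.1 p.2) (i.1.1.1, y • rot i.1.1.2) =
      (fderiv ℝ (fun w : Pl => η • w) (Ex m i.1.1.1 (y • rot i.1.1.2))).comp
        (fderiv ℝ (fun p : Pl × Pl => Ex m p.1 p.2) (i.1.1.1, y • rot i.1.1.2)) := by
    have h2 : DifferentiableAt ℝ (fun w : Pl => η • w)
        ((fun p : Pl × Pl => Ex m p.1 p.2) (i.1.1.1, y • rot i.1.1.2)) :=
      ((hX.smooth η).differentiable (by simp)) _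
    have h3 : DifferentiableAt ℝ (fun p : Pl × Pl => Ex m p.1 p.2)
        (i.1.1.1, y • rot i.1.1.2) := ((Ex_smooth hX hm).differentiable (by simp)) _
    exact (HasFDerivAt.comp (f := fun p : Pl × Pl => Ex m p.1 p.2)
      ((i.1.1.1, y • rot i.1.1.2) : Pl × Pl) h2.hasFDerivAt h3.hasFDerivAt).fderiv
  rw [h1]
  rfl

private theorem AN5a_W (hX : Surface Γ D) (hO : Ori Γ) {m : Pl → Co} (hm : HM Γ m) :
    EB (fun i : U1 D × ℝ => |i.2|)
      (fun i y => fderiv ℝ (fun p : Pl × Pl =>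
          (shf hX (Xp m i.1.1.1 i.1.1.2 i.2))⁻¹ • Ex m p.1 p.2)
          (i.1.1.1, y • rot i.1.1.2) ((lift m i.1.1.1 (rot i.1.1.2) 0 1 0).1,
            y • (lift m i.1.1.1 (rot i.1.1.2) 0 1 0).2))
      (fun i => i.2) := by
  have hl : ∀ i : U1 D × ℝ, 0 ≤ |i.2| := fun i => abs_nonneg i.2
  obtain ⟨C, hC0, hC⟩ := AN5a_xib hX hm
  have hb : ∀ i : U1 D × ℝ, ‖lift m i.1.1.1 (rot i.1.1.2) 0 1 0‖ ≤ C * Real.exp (C * |i.2|) :=
    fun i => (hC _ i.1.2.1 _ (AN5a_rot i.1.2.2)).trans (AN5a_le hC0 (hl i))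
  have hv : EB (fun i : U1 D × ℝ => |i.2|) (fun i y =>
      (((lift m i.1.1.1 (rot i.1.1.2) 0 1 0).1, y • (lift m i.1.1.1 (rot i.1.1.2) 0 1 0).2) :
        Pl × Pl)) (fun i => i.2) := by
    refine EB_prod hl (EB_const hl (C := C) fun i => ?_)
      (EB_smul hl (EB_id hl (C := 1) fun i => ?_) (EB_const hl (C := C) fun i => ?_))
    · exact (norm_fst_le _).trans (hb i)
    · rw [one_mul, one_mul, Real.norm_eq_abs]
      linarith [Real.add_one_le_exp |i.2|]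
    · exact (norm_snd_le _).trans (hb i)
  have hd := EB_comp (g := fun (i : U1 D × ℝ) => fderiv ℝ (fun p : Pl × Pl =>
        (shf hX (Xp m i.1.1.1 i.1.1.2 i.2))⁻¹ • Ex m p.1 p.2))
    (f := fun (i : U1 D × ℝ) (y : ℝ) => ((i.1.1.1, y • rot i.1.1.2) : Pl × Pl))
    hl (EB_fderiv (AN5a_g hX hO hm)) (AN5a_f hX)
  exact EB_clm_apply hl hd hv

private theorem AN5a_m (hX : Surface Γ D) (hO : Ori Γ) {m : Pl → Co} (hm : HM Γ m) :
    EB (fun i : U1 D × ℝ => |i.2|)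
      (fun i y => m ((shf hX (Xp m i.1.1.1 i.1.1.2 i.2))⁻¹ • Xp m i.1.1.1 i.1.1.2 y))
      (fun i => i.2) := by
  have hl : ∀ i : U1 D × ℝ, 0 ≤ |i.2| := fun i => abs_nonneg i.2
  refine EB_comp (g := fun _ : U1 D × ℝ => m)
    (f := fun (i : U1 D × ℝ) (y : ℝ) =>
      (shf hX (Xp m i.1.1.1 i.1.1.2 i.2))⁻¹ • Xp m i.1.1.1 i.1.1.2 y) hl ?_ (EB_Xp hX hO hm)
  exact EB_compact hl hm.smooth hX.bdd.isCompact_closure fun i => shf_mem' hX _

theorem LB_JA (hX : Surface Γ D) (hO : Ori Γ) {m : Pl → Co} (hm : HM Γ m) :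
    LB (fun _ : U1 D => (0 : ℝ)) (fun i y => JA m i.1.1 (rot i.1.2) y) := by
  have hl : ∀ i : U1 D × ℝ, 0 ≤ |i.2| := fun i => abs_nonneg i.2
  have hM := AN5a_m hX hO hm
  have hW := AN5a_W hX hO hm
  have hE := EB_clm hl hM (ContinuousLinearMap.fst ℝ ℝ (ℝ × ℝ))
  have hFG := EB_clm hl hM (ContinuousLinearMap.snd ℝ ℝ (ℝ × ℝ))
  have hF := EB_clm hl hFG (ContinuousLinearMap.fst ℝ ℝ ℝ)
  have hG := EB_clm hl hFG (ContinuousLinearMap.snd ℝ ℝ ℝ)
  have h1 := EB_clm hl hW (ContinuousLinearMap.fst ℝ ℝ ℝ)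
  have h2 := EB_clm hl hW (ContinuousLinearMap.snd ℝ ℝ ℝ)
  have hq := EB_add hl (EB_add hl (EB_mul hl hE (EB_mul hl h1 h1))
    (EB_add hl (EB_mul hl hF (EB_mul hl h1 h2)) (EB_mul hl hF (EB_mul hl h1 h2))))
    (EB_mul hl hG (EB_mul hl h2 h2))
  have hsq : EB (fun i : U1 D × ℝ => |i.2|)
      (fun i y => JA m i.1.1.1 (rot i.1.1.2) y ^ 2) (fun i => i.2) := by
    convert hq using 3 with i y
    rw [AN5a_sq hX hm i y]
    simp only [ContinuousLinearMap.coe_fst', ContinuousLinearMap.coe_snd', qf]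
    ring
  have hge : ∀ (i : U1 D × ℝ) (y : ℝ), 1 ≤ JA m i.1.1.1 (rot i.1.1.2) y := by
    intro i y
    refine JA_ge hX hm ?_ y
    rw [AN5a_eu_rot]
    exact i.1.2.2
  have hr := EB_rpow hl hsq (fun i y => by have := hge i y; positivity) (C := 1) (fun i => by
    have h3 := hge i i.2
    have h4 : 1 ≤ JA m i.1.1.1 (rot i.1.1.2) i.2 ^ 2 := by nlinarith
    rw [abs_of_nonneg (by linarith), one_mul, one_mul]
    exact (inv_le_one_of_one_le₀ h4).trans (Real.one_le_exp (abs_nonneg _))) (1 / 2)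
  unfold LB
  convert hr using 3 with i i y
  · ring
  · rw [← Real.sqrt_eq_rpow, Real.sqrt_sq (by linarith [hge i y])]

end BR
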