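import Pool.Agent.LibBR73.AN4b
import Pool.Agent.LibBR73.AN5b
import Pool.Agent.LibBR70.AB2
import Pool.Agent.LibBR70.AB5

/-! Row AN6: the integral over one perpendicular to the axis. 50 min.
Plan. `Disp_ax`: `pos` from `Axis`, `lb` = `LB_Fd`, `zero` = `Fd_zero`. `low`: the derivative of `Fd ^ 2` is
`2 Fd Fd1` (`Fd_deriv`), `Fd ≥ l` and `1 ≤ C l` (`Fd_growth`), `|Fd1| ≥ min (c |y|) 1` with the sign of `y`
(`Fd_low`), and `|y| min (c |y|) 1 ≥ min c 1 * y ^ 2 / (1 + |y|)`. `grow`: `√(Fd ^ 2) = Fd ≥ |y| - C` (`Fd_growth`).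
`val_B0`: `Vx m x0 (g • x0) = l • v0` (`Axis.per`, `Ex_ray`, `Vx_Ex`), `mE_dt`. `val_Fd2`: the derivative of
`2 Fd Fd1` at `0` is `2 Fd1 0 ^ 2 + 2 l (trM - 2) / JB` (`Fd_zero`, `Fd_second`; `deriv (Fd ^ 2) = 2 Fd Fd1` as
functions). `val_main`: `(JB / l) ^ (-1/2) = √(l / JB)`, `√(2 / (2 l (trM - 2) / JB)) = √(JB / (l (trM - 2)))`;
`JB ≥ l > 0` (`JB_ge`), `trM > 2` (`Fd_growth`).
`perp_int`: (1) `x0 ∈ closure D`, `l ≤ ρ`: `abel_line` with `Disp_ax`, `β = B0 * JA` (`LB_B0`, `LB_JA` pulled back by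
`LB_pull`, `LB_mul`), `AbPair (Ab 0 q) (Ab 1 q) ρ E l (q l)` (`Ab_deriv` with `j = 0`, `Ab_contDiffOn`, `Ab_supp`,
`Ab_inv`), `β 0 = B0 m x0 (g • x0)` (`Ex_zero`, `J_zero`). (2) `ρ < l`: `q l = 0` and the integrand vanishes
(`Fd ≥ l > ρ`, `Ab_supp`); `E ≥ 0`. (3) general `x0`: `δ = (shf hX x0)⁻¹`, `Axis_conj`; nothing changes: `Fd_conj`,
`B0_deck`, `JA_deck`, `JB_deck`, `Rg_rot` (`trM_conj`). -/

open MeasureTheory Set Filter Topology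
open scoped ContDiff

namespace BR

open BGS

variable {Γ : Type} [Group Γ] [MulAction Γ Pl] {D : Set Pl}

private theorem AN6_eu_rot {v : Pl} (hv : eu v = 1) : eu (rot v) = 1 := by
  unfold eu at hv ⊢
  unfold rot
  rw [← hv]
  congr 1
  ring

theorem trM_conj (hX : Surface Γ D) (hO : Ori Γ) {m : Pl → Co} (hm : HM Γ m) (δ : Γ)
    {x0 v0 : Pl} (hv : eu v0 = 1) (l : ℝ) :
    trM m (δ • x0) (Rg m δ x0 v0) l = trM m x0 v0 l := by
  unfold trM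
  rw [JA_deck hX hO hm δ hv l, show JB m (δ • x0) (Rg m δ x0 v0) = JB m x0 v0 from
    funext fun t => JB_deck hX hO hm δ hv t]

private theorem AN6_dsq (hX : Surface Γ D) (hO : Ori Γ) {m : Pl → Co} (hm : HM Γ m) {g : Γ}
    {x0 v0 : Pl} {l : ℝ} (hA : Axis m g x0 v0 l) :
    deriv (fun y => Fd m g x0 v0 y ^ 2) = fun y => 2 * (Fd m g x0 v0 y * Fd1 m g x0 v0 y) := by
  funext y
  have h := ((Fd_deriv hX hO hm hA y).pow 2).deriv
  have h2 : deriv (fun y => Fd m g x0 v0 y ^ 2) y = _ := h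
  rw [h2]
  push_cast
  ring

theorem Disp_ax (hX : Surface Γ D) (hO : Ori Γ) {m : Pl → Co} (hm : HM Γ m) :
    Disp (fun i : AxI Γ D m => i.1.2) (fun i y => Fd m i.1.1.1 i.1.1.2.1 i.1.1.2.2 y ^ 2) := by
  obtain ⟨c1, hc1, hlow⟩ := Fd_low hX hO hm
  obtain ⟨C, hC⟩ := Fd_growth hX hO hm
  refine ⟨fun i => i.2.1.pos, LB_Fd hX hO hm, fun i => ?_, ?_, ⟨C, fun i y => ?_⟩⟩
  · show Fd m i.1.1.1 i.1.1.2.1 i.1.1.2.2 0 ^ 2 = i.1.2 ^ 2
    rw [(Fd_zero hX hO hm i.2.1).1]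
  · refine ⟨(max C 1)⁻¹ * min c1 1, by positivity, fun i y => ?_⟩
    show (max C 1)⁻¹ * min c1 1 * y ^ 2 ≤
      (1 + |y|) * (y * deriv (fun y => Fd m i.1.1.1 i.1.1.2.1 i.1.1.2.2 y ^ 2) y)
    rw [AN6_dsq hX hO hm i.2.1]
    obtain ⟨-, h1, h2⟩ := hC _ _ _ _ i.2.1
    obtain ⟨-, h3, -⟩ := h2 y
    set Fv := Fd m i.1.1.1 i.1.1.2.1 i.1.1.2.2 y with hFv
    set F1 := Fd1 m i.1.1.1 i.1.1.2.1 i.1.1.2.2 y with hF1
    have hlpos : 0 < i.1.2 := i.2.1.pos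
    have hM : 0 < max C 1 := lt_of_lt_of_le one_pos (le_max_right _ _)
    have h4 : (max C 1)⁻¹ ≤ Fv := by
      rw [inv_le_iff_one_le_mul₀ hM]
      have : C * i.1.2 ≤ max C 1 * i.1.2 := mul_le_mul_of_nonneg_right (le_max_left _ _) hlpos.le
      nlinarith
    have h5 : |y| * min (c1 * |y|) 1 ≤ y * F1 := by
      rcases le_total 0 y with hy | hy
      · have := (hlow _ _ _ _ i.2.1 y).1 hy
        rw [abs_of_nonneg hy]
        exact mul_le_mul_of_nonneg_left this hy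
      · have := (hlow _ _ _ _ i.2.1 y).2 hy
        rw [abs_of_nonpos hy]
        have h6 : (-y) * min (c1 * -y) 1 ≤ (-y) * (-F1) :=
          mul_le_mul_of_nonneg_left (by linarith) (by linarith)
        linarith
    have h6 : min c1 1 * |y| ≤ (1 + |y|) * min (c1 * |y|) 1 := by
      have ha := abs_nonneg y
      have hmc : min c1 1 ≤ c1 := min_le_left _ _
      have hm1 : min c1 1 ≤ 1 := min_le_right _ _
      have hm0 : 0 < min c1 1 := lt_min hc1 one_pos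
      rcases le_total (c1 * |y|) 1 with h | h
      · rw [min_eq_left h]
        nlinarith [mul_nonneg hc1.le ha, mul_nonneg (mul_nonneg hc1.le ha) ha]
      · rw [min_eq_right h]
        nlinarith
    have h7 : 0 ≤ |y| * min (c1 * |y|) 1 :=
      mul_nonneg (abs_nonneg _) (le_min (by positivity) zero_le_one)
    have h8 : min c1 1 * y ^ 2 ≤ (1 + |y|) * (y * F1) := by
      have e1 : y ^ 2 = |y| * |y| := by rw [← sq, sq_abs]
      calc min c1 1 * y ^ 2 = |y| * (min c1 1 * |y|) := by rw [e1]; ring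
        _ ≤ |y| * ((1 + |y|) * min (c1 * |y|) 1) := mul_le_mul_of_nonneg_left h6 (abs_nonneg _)
        _ = (1 + |y|) * (|y| * min (c1 * |y|) 1) := by ring
        _ ≤ (1 + |y|) * (y * F1) := mul_le_mul_of_nonneg_left h5 (by positivity)
    have h9 : 0 ≤ min c1 1 * y ^ 2 := by positivity
    have h10 : 0 ≤ (1 + |y|) * (y * F1) := le_trans h9 h8
    calc (max C 1)⁻¹ * min c1 1 * y ^ 2 = (max C 1)⁻¹ * (min c1 1 * y ^ 2) := by ring
      _ ≤ Fv * ((1 + |y|) * (y * F1)) :=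
        mul_le_mul h4 h8 h9 (le_trans (by positivity) h4)
      _ ≤ 2 * (Fv * ((1 + |y|) * (y * F1))) := by
        have : 0 ≤ Fv * ((1 + |y|) * (y * F1)) :=
          mul_nonneg (le_trans (by positivity) h4) h10
        linarith
      _ = (1 + |y|) * (y * (2 * (Fv * F1))) := by ring
  · show |y| ≤ √(Fd m i.1.1.1 i.1.1.2.1 i.1.1.2.2 y ^ 2) + C
    obtain ⟨-, -, h2⟩ := hC _ _ _ _ i.2.1
    obtain ⟨h3, h4, -⟩ := h2 y
    rw [Real.sqrt_sq (le_trans i.2.1.pos.le h4)]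
    exact h3

theorem val_B0 (hX : Surface Γ D) (hO : Ori Γ) {m : Pl → Co} (hm : HM Γ m) {g : Γ}
    {x0 v0 : Pl} {l : ℝ} (hA : Axis m g x0 v0 l) :
    B0 m x0 (g • x0) = (JB m x0 v0 l / l) ^ (-(1 / 2) : ℝ) := by
  have _ := hO
  have h1 : g • x0 = Ex m x0 (l • v0) := by
    rw [Ex_ray hX hm, hA.per]
  have h2 : Vx m x0 (g • x0) = l • v0 := by
    rw [h1, Vx_Ex hX hm]
  unfold B0 wt Gx
  rw [h2, mE_dt hX hm hA.unit hA.pos, Real.sqrt_sq]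
  have := (JB_ge hX hm (x := x0) hA.unit hA.pos.le).1
  exact div_nonneg (le_trans hA.pos.le this) hA.pos.le

theorem val_Fd2 (hX : Surface Γ D) (hO : Ori Γ) {m : Pl → Co} (hm : HM Γ m) {g : Γ}
    {x0 v0 : Pl} {l : ℝ} (hA : Axis m g x0 v0 l) :
    deriv (deriv (fun y => Fd m g x0 v0 y ^ 2)) 0 =
      2 * l * ((trM m x0 v0 l - 2) / JB m x0 v0 l) := by
  rw [AN6_dsq hX hO hm hA]
  obtain ⟨h0, h1, -⟩ := Fd_zero hX hO hm hA
  have h := (((Fd_deriv hX hO hm hA 0).mul (Fd_second hX hO hm hA)).const_mul 2).deriv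
  have h2 : deriv (fun y => 2 * (Fd m g x0 v0 y * Fd1 m g x0 v0 y)) 0 = _ := h
  rw [h2, h0, h1]
  ring

theorem val_main (hX : Surface Γ D) (hO : Ori Γ) {m : Pl → Co} (hm : HM Γ m) {g : Γ}
    {x0 v0 : Pl} {l : ℝ} (hA : Axis m g x0 v0 l) :
    B0 m x0 (g • x0) * √(2 / deriv (deriv (fun y => Fd m g x0 v0 y ^ 2)) 0) =
      1 / √(trM m x0 v0 l - 2) := by
  obtain ⟨C, hC⟩ := Fd_growth hX hO hm
  have hT : 0 < trM m x0 v0 l - 2 := by linarith [(hC _ _ _ _ hA).1]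
  have hl := hA.pos
  have hJ : 0 < JB m x0 v0 l := lt_of_lt_of_le hl (JB_ge hX hm (x := x0) hA.unit hl.le).1
  rw [val_B0 hX hO hm hA, val_Fd2 hX hO hm hA]
  set J := JB m x0 v0 l
  set T := trM m x0 v0 l - 2
  have hq : 0 < J / l := div_pos hJ hl
  have e1 : 2 / (2 * l * (T / J)) = (J / l) / T := by
    field_simp
  rw [e1, Real.sqrt_div hq.le, Real.rpow_neg hq.le, ← Real.sqrt_eq_rpow]
  have hs : √(J / l) ≠ 0 := (Real.sqrt_pos.mpr hq).ne'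
  have hs2 : √T ≠ 0 := (Real.sqrt_pos.mpr hT).ne'
  field_simp

private theorem AN6_beta (hX : Surface Γ D) (hO : Ori Γ) {m : Pl → Co} (hm : HM Γ m) :
    LB (fun i : AxI Γ D m => i.1.2) (fun i y => B0 m (Xp m i.1.1.2.1 i.1.1.2.2 y)
      (i.1.1.1 • Xp m i.1.1.2.1 i.1.1.2.2 y) * JA m i.1.1.2.1 (rot i.1.1.2.2) y) := by
  have hl : ∀ i : AxI Γ D m, 0 ≤ i.1.2 := fun i => i.2.1.pos.le
  refine LB_mul hl (LB_B0 hX hO hm) ?_
  have h := LB_pull (l := fun _ : U1 D => (0 : ℝ)) (l' := fun i : AxI Γ D m => i.1.2)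
    (fun i : AxI Γ D m => (⟨(i.1.1.2.1, i.1.1.2.2), i.2.2, i.2.1.unit⟩ : U1 D)) (A := 0)
    (fun _ => le_refl _) hl (fun i => by simp) (LB_JA hX hO hm)
  exact h

private theorem AN6_pair {q : ℝ → ℝ} {ρ E l : ℝ} (hρ : 0 ≤ ρ) (hq : Tl q ρ) (hl : 0 < l)
    (hE : ∀ σ, 0 < σ → |Ab 1 q σ| ≤ E) : AbPair (Ab 0 q) (Ab 1 q) ρ E l (q l) := by
  refine ⟨fun σ hσ => ?_, ?_, hE, fun σ hσ h => ⟨?_, ?_⟩, ?_, ?_⟩
  · exact Ab_deriv hρ hq 0 hσ
  · exact (Ab_contDiffOn hρ hq 0).continuousOn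
  · exact Ab_supp hρ hq 0 hσ h
  · exact Ab_supp hρ hq 1 hσ h
  · exact (Ab_inv hρ hq hl).1
  · exact (Ab_inv hρ hq hl).2

theorem perp_int (hX : Surface Γ D) (hO : Ori Γ) {m : Pl → Co} (hm : HM Γ m) :
    ∃ C : ℝ, ∀ (g : Γ) (x0 v0 : Pl) (l : ℝ), Axis m g x0 v0 l → ∀ (q : ℝ → ℝ) (ρ E : ℝ), 0 ≤ ρ →
      Tl q ρ → (∀ σ, 0 < σ → |Ab 1 q σ| ≤ E) →
      Integrable (fun y => B0 m (Xp m x0 v0 y) (g • Xp m x0 v0 y) *
        Ab 0 q (Fd m g x0 v0 y ^ 2) * JA m x0 (rot v0) y) ∧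
      |(∫ y, B0 m (Xp m x0 v0 y) (g • Xp m x0 v0 y) *
        Ab 0 q (Fd m g x0 v0 y ^ 2) * JA m x0 (rot v0) y) - q l / √(trM m x0 v0 l - 2)| ≤
        C * Real.exp (C * ρ) * E := by
  obtain ⟨C0, hC0⟩ := abel_line (Disp_ax hX hO hm) (AN6_beta hX hO hm)
  obtain ⟨C1, hC1⟩ := Fd_growth hX hO hm
  refine ⟨2 * |C0|, ?_⟩
  intro g x0 v0 l hA q ρ E hρ hq hE
  have hE0 : 0 ≤ E := le_trans (abs_nonneg _) (hE 1 one_pos)
  have hl := hA.pos
  rcases le_or_gt l ρ with hlρ | hlρ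
  · -- conjugate into the closure of the domain
    set δ : Γ := (shf hX x0)⁻¹ with hδ
    have hmem : δ • x0 ∈ closure D := shf_mem' hX x0
    have hA' := Axis_conj hX hO hm hA δ
    let i : AxI Γ D m := ⟨((δ * g * δ⁻¹, (δ • x0, Rg m δ x0 v0)), l), hA', hmem⟩
    have hpair := AN6_pair hρ hq hl hE
    obtain ⟨hint, hval⟩ := hC0 i (Ab 0 q) (Ab 1 q) ρ E (q l) hρ hpair
    have hXp : ∀ y, Xp m (δ • x0) (Rg m δ x0 v0) y = δ • Xp m x0 v0 y :=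
      fun y => (Fd_conj hX hO hm g δ x0 v0 y).1
    have hFd : ∀ y, Fd m (δ * g * δ⁻¹) (δ • x0) (Rg m δ x0 v0) y = Fd m g x0 v0 y :=
      fun y => (Fd_conj hX hO hm g δ x0 v0 y).2
    have hB : ∀ y, B0 m (Xp m (δ • x0) (Rg m δ x0 v0) y)
        ((δ * g * δ⁻¹) • Xp m (δ • x0) (Rg m δ x0 v0) y) =
        B0 m (Xp m x0 v0 y) (g • Xp m x0 v0 y) := by
      intro y
      rw [hXp y, mul_smul, mul_smul, inv_smul_smul, B0_deck hX hO hm]
    have hJ : ∀ y, JA m (δ • x0) (rot (Rg m δ x0 v0)) y = JA m x0 (rot v0) y := by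
      intro y
      rw [← Rg_rot hX hO hm δ x0 v0, JA_deck hX hO hm δ (AN6_eu_rot hA.unit)]
    have hfun : (fun y => B0 m (Xp m x0 v0 y) (g • Xp m x0 v0 y) *
        Ab 0 q (Fd m g x0 v0 y ^ 2) * JA m x0 (rot v0) y) =
        fun y => (B0 m (Xp m i.1.1.2.1 i.1.1.2.2 y)
          (i.1.1.1 • Xp m i.1.1.2.1 i.1.1.2.2 y) * JA m i.1.1.2.1 (rot i.1.1.2.2) y) *
          Ab 0 q (Fd m i.1.1.1 i.1.1.2.1 i.1.1.2.2 y ^ 2) := by
      funext y
      show _ = (B0 m (Xp m (δ • x0) (Rg m δ x0 v0) y)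
        ((δ * g * δ⁻¹) • Xp m (δ • x0) (Rg m δ x0 v0) y) *
        JA m (δ • x0) (rot (Rg m δ x0 v0)) y) *
        Ab 0 q (Fd m (δ * g * δ⁻¹) (δ • x0) (Rg m δ x0 v0) y ^ 2)
      rw [hB y, hJ y, hFd y]
      ring
    have hXp0 : Xp m (δ • x0) (Rg m δ x0 v0) 0 = δ • x0 := by
      unfold Xp
      rw [zero_smul, Ex_zero hX hm]
    have hb0 : (B0 m (Xp m (δ • x0) (Rg m δ x0 v0) 0)
        ((δ * g * δ⁻¹) • Xp m (δ • x0) (Rg m δ x0 v0) 0) *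
        JA m (δ • x0) (rot (Rg m δ x0 v0)) 0) = B0 m (δ • x0) ((δ * g * δ⁻¹) • (δ • x0)) := by
      rw [hXp0, (J_zero hX hm (x := δ • x0) (AN6_eu_rot hA'.unit)).1, mul_one]
    have hmain := val_main hX hO hm hA'
    rw [trM_conj hX hO hm δ hA.unit l] at hmain
    have hval' : |(∫ y, B0 m (Xp m x0 v0 y) (g • Xp m x0 v0 y) *
        Ab 0 q (Fd m g x0 v0 y ^ 2) * JA m x0 (rot v0) y) - q l / √(trM m x0 v0 l - 2)| ≤
        C0 * Real.exp (C0 * (l + ρ)) * E := by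
      rw [hfun]
      have e : q l / √(trM m x0 v0 l - 2) = (B0 m (Xp m (δ • x0) (Rg m δ x0 v0) 0)
        ((δ * g * δ⁻¹) • Xp m (δ • x0) (Rg m δ x0 v0) 0) *
        JA m (δ • x0) (rot (Rg m δ x0 v0)) 0) *
        √(2 / deriv (deriv (fun y => Fd m (δ * g * δ⁻¹) (δ • x0) (Rg m δ x0 v0) y ^ 2)) 0) *
        q l := by
        rw [hb0, hmain]
        ring
      rw [e]
      exact hval
    refine ⟨?_, le_trans hval' ?_⟩
    · rw [hfun]
      exact hint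
    · refine mul_le_mul_of_nonneg_right ?_ hE0
      have h1 : C0 * Real.exp (C0 * (l + ρ)) ≤ |C0| * Real.exp (2 * |C0| * ρ) := by
        refine mul_le_mul (le_abs_self _) ?_ (Real.exp_pos _).le (abs_nonneg _)
        apply Real.exp_le_exp.mpr
        calc C0 * (l + ρ) ≤ |C0| * (l + ρ) :=
              mul_le_mul_of_nonneg_right (le_abs_self _) (by linarith)
          _ ≤ |C0| * (2 * ρ) := mul_le_mul_of_nonneg_left (by linarith) (abs_nonneg _)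
          _ = 2 * |C0| * ρ := by ring
      refine le_trans h1 ?_
      refine mul_le_mul_of_nonneg_right ?_ (Real.exp_pos _).le
      linarith [abs_nonneg C0]
  · have hz : ∀ y, B0 m (Xp m x0 v0 y) (g • Xp m x0 v0 y) *
        Ab 0 q (Fd m g x0 v0 y ^ 2) * JA m x0 (rot v0) y = 0 := by
      intro y
      have h1 := ((hC1 _ _ _ _ hA).2.2 y).2.1
      have h2 : ρ < Fd m g x0 v0 y := lt_of_lt_of_le hlρ h1
      have h3 : ρ ^ 2 < Fd m g x0 v0 y ^ 2 := by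
        exact pow_lt_pow_left₀ h2 hρ two_ne_zero
      rw [Ab_supp hρ hq 0 (lt_of_le_of_lt (by positivity) h3) h3]
      ring
    have hfun : (fun y => B0 m (Xp m x0 v0 y) (g • Xp m x0 v0 y) *
        Ab 0 q (Fd m g x0 v0 y ^ 2) * JA m x0 (rot v0) y) = fun _ => (0 : ℝ) := funext hz
    rw [hfun]
    refine ⟨integrable_zero _ _ _, ?_⟩
    rw [integral_zero, hq.supp l hlρ, zero_div, sub_zero, abs_zero]
    positivity

end BR
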