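import Pool.Agent.LibBR73.AN4a

/-! Row AN4b: division by `F'`, and the integral over the line. 50 min.
Plan. `Disp_c`: `b0 i = β i 0 / dW1 (F i) 0` is a constant of exponential growth (`Disp_LB`), `n i = β i - b0 i * dW1 (F i)`
is in `LB`, `n i 0 = 0`, `M i y = ∫ t in 0..1, deriv (n i) (t * y)` is in `LB` (`LB_deriv`, `LB_rad` with `n = 0`),
`n i y = y * M i y`; `c i = M i * (dP (F i))⁻¹`, and `c i y * deriv (F i) y = M * (dP)⁻¹ * (y * dP) = n i y`.
`abel_line`: split the integrand by `Disp_c`. (1) `∫ dW1 y * A0 (l ^ 2 + dW y ^ 2) dy = ∫ A0 (l ^ 2 + r ^ 2) dr = Q`: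
`integral_image_eq_integral_abs_deriv_smul` on `univ` with `dW` (injective, image `univ`: `Disp_bij`, derivative
`dW1 > 0`), integrability by `integrableOn_image_iff_integrableOn_abs_deriv_smul`; the factor is
`β i 0 / √(F'' 0 / 2) = β i 0 * √(2 / F'' 0)`. (2) `u y = A1 (F i y)` has the derivative
`-(A0 (F i y)) * deriv (F i) y` (`F i y ≥ l ^ 2 > 0`), so `∫ c F' A0 (F) = -∫ c u'`. For `|y| > ρ + C0` (`grow`)
`√(F y) > ρ`, so `A0 (F y) = A1 (F y) = 0`. With `Y = ρ + |C0| + 1`: `∫ over the line = ∫ -Y..Y`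
(`intervalIntegral`, the function vanishes outside), integrate by parts
(`intervalIntegral.integral_mul_deriv_eq_deriv_mul`): the boundary terms vanish, and
`|∫ -Y..Y, c' u| ≤ 2 Y * sup |c'| * E ≤ 2 Y C exp (C (l i + Y)) E`. (`E ≥ 0` from `bd` at `σ = 1`.) -/

open MeasureTheory Set Filter Topology
open scoped ContDiff

namespace BR

variable {ι : Type} {l : ι → ℝ} {F β : ι → ℝ → ℝ}

/-- Enlarging the constant. -/
private theorem AN4b_up {a C D x : ℝ} (hx : 0 ≤ x) (h : a ≤ C * Real.exp (C * x)) (hD : |C| ≤ D) :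
    a ≤ D * Real.exp (D * x) := by
  have h1 : C ≤ D := (le_abs_self C).trans hD
  have h0 : 0 ≤ D := (abs_nonneg C).trans hD
  have h2 : Real.exp (C * x) ≤ Real.exp (D * x) := Real.exp_le_exp.2 (mul_le_mul_of_nonneg_right h1 hx)
  calc a ≤ C * Real.exp (C * x) := h
    _ ≤ D * Real.exp (C * x) := mul_le_mul_of_nonneg_right h1 (Real.exp_pos _).le
    _ ≤ D * Real.exp (D * x) := mul_le_mul_of_nonneg_left h2 h0

/-- The mean value form of division by `y`. -/
private theorem AN4b_rad {f : ℝ → ℝ} (hf : ContDiff ℝ ∞ f) (h0 : f 0 = 0) (y : ℝ) :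
    f y = y * ∫ t in (0 : ℝ)..1, t ^ 0 * deriv f (t * y) := by
  have hd : ∀ x, HasDerivAt f (deriv f x) x := fun x =>
    ((hf.differentiable (by simp)) x).hasDerivAt
  have hc : Continuous (deriv f) := hf.continuous_deriv (by simp)
  have h1 : ∀ t ∈ uIcc (0 : ℝ) 1, HasDerivAt (fun t => f (t * y)) (y * (t ^ 0 * deriv f (t * y))) t := by
    intro t _
    have h2 : HasDerivAt (fun t : ℝ => t * y) (1 * y) t := (hasDerivAt_id t).mul_const y
    have h3 := (hd (t * y)).comp t h2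
    have h4 : y * (t ^ 0 * deriv f (t * y)) = deriv f (t * y) * (1 * y) := by ring
    rw [h4]
    exact h3
  have h2 := intervalIntegral.integral_eq_sub_of_hasDerivAt h1
    (by
      apply Continuous.intervalIntegrable
      fun_prop)
  rw [intervalIntegral.integral_const_mul] at h2
  rw [h2]
  simp [h0]

theorem Disp_c (h : Disp l F) (hβ : LB l β) : ∃ c : ι → ℝ → ℝ, LB l c ∧
    ∀ i y, β i y = β i 0 / dW1 (F i) 0 * dW1 (F i) y + c i y * deriv (F i) y := by
  have hl : ∀ i, 0 ≤ l i := fun i => (h.pos i).le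
  obtain ⟨-, hPi, hW, C1, hC1⟩ := Disp_LB h
  obtain ⟨C2, hC2⟩ := (LB_iff.1 hβ).2 0
  have hb : ∀ i, |β i 0 / dW1 (F i) 0| ≤
      (|C1| * |C2| + |C1| + |C2|) * Real.exp ((|C1| * |C2| + |C1| + |C2|) * l i) := by
    intro i
    have h1 : 0 < dW1 (F i) 0 := (Disp_W h i 0).2.2
    have h2 : |β i 0| ≤ |C2| * Real.exp (|C2| * l i) := by
      have h3 := hC2 i 0
      rw [iteratedDeriv_zero, abs_zero, add_zero] at h3
      exact AN4b_up (hl i) h3 le_rfl
    have h3 : (dW1 (F i) 0)⁻¹ ≤ |C1| * Real.exp (|C1| * l i) := AN4b_up (hl i) (hC1 i) le_rfl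
    rw [abs_div, abs_of_pos h1, div_eq_mul_inv]
    have hCC : 0 ≤ |C1| * |C2| := by positivity
    have hD : 0 ≤ |C1| * |C2| + |C1| + |C2| := by positivity
    calc |β i 0| * (dW1 (F i) 0)⁻¹ ≤ (|C2| * Real.exp (|C2| * l i)) * (|C1| * Real.exp (|C1| * l i)) :=
          mul_le_mul h2 h3 (inv_nonneg.2 h1.le) (by positivity)
      _ = |C1| * |C2| * Real.exp ((|C1| + |C2|) * l i) := by
          rw [add_mul, Real.exp_add]
          ring
      _ ≤ (|C1| * |C2| + |C1| + |C2|) * Real.exp ((|C1| * |C2| + |C1| + |C2|) * l i) := by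
          apply mul_le_mul _ _ (Real.exp_pos _).le hD
          · have := abs_nonneg C1
            have := abs_nonneg C2
            linarith
          · apply Real.exp_le_exp.2
            apply mul_le_mul_of_nonneg_right _ (hl i)
            linarith
  have hn : LB l (fun i y => β i y - β i 0 / dW1 (F i) 0 * dW1 (F i) y) :=
    LB_sub hl hβ (LB_mul hl (LB_const hl hb) hW)
  have hM := LB_rad hl (LB_deriv hn) 0
  refine ⟨_, LB_mul hl hM hPi, ?_⟩
  intro i y
  have h1 : 0 < dW1 (F i) 0 := (Disp_W h i 0).2.2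
  obtain ⟨h2, h3, -⟩ := Disp_P h i y
  have h4 := AN4b_rad ((LB_iff.1 hn).1 i) (by
    show β i 0 - β i 0 / dW1 (F i) 0 * dW1 (F i) 0 = 0
    rw [div_mul_cancel₀ _ h1.ne', sub_self]) y
  rw [h2]
  set J := ∫ t in (0 : ℝ)..1, t ^ 0 * deriv (fun y => β i y - β i 0 / dW1 (F i) 0 * dW1 (F i) y) (t * y)
    with hJ
  have h5 : J * (dP (F i) y)⁻¹ * (y * dP (F i) y) = y * J := by
    field_simp
  show β i y = β i 0 / dW1 (F i) 0 * dW1 (F i) y + J * (dP (F i) y)⁻¹ * (y * dP (F i) y)
  rw [h5, ← h4]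
  ring

/-- The part with `dW1`. -/
private theorem AN4b_main (h : Disp l F) (i : ι) {A0 : ℝ → ℝ} {Q : ℝ}
    (hint : Integrable (fun r : ℝ => A0 (l i ^ 2 + r ^ 2)))
    (hval : ∫ r : ℝ, A0 (l i ^ 2 + r ^ 2) = Q) :
    Integrable (fun y => dW1 (F i) y * A0 (F i y)) ∧ ∫ y, dW1 (F i) y * A0 (F i y) = Q := by
  have hd : ∀ x ∈ (univ : Set ℝ), HasDerivWithinAt (dW (F i)) (dW1 (F i) x) univ x := fun x _ =>
    (Disp_W h i x).2.1.hasDerivWithinAt
  have hinj : InjOn (dW (F i)) univ := (Disp_bij h i).1.injOn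
  have him : dW (F i) '' univ = univ := by
    rw [image_univ]
    exact (Disp_bij h i).2.range_eq
  have hfun : (fun x => |dW1 (F i) x| • (fun r : ℝ => A0 (l i ^ 2 + r ^ 2)) (dW (F i) x)) =
      fun y => dW1 (F i) y * A0 (F i y) := by
    funext y
    obtain ⟨h1, -, h3⟩ := Disp_W h i y
    rw [abs_of_pos h3, smul_eq_mul]
    show dW1 (F i) y * A0 (l i ^ 2 + dW (F i) y ^ 2) = _
    rw [← h1]
  have e1 := integrableOn_image_iff_integrableOn_abs_deriv_smul MeasurableSet.univ hd hinj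
    (fun r : ℝ => A0 (l i ^ 2 + r ^ 2))
  have e2 := integral_image_eq_integral_abs_deriv_smul MeasurableSet.univ hd hinj
    (fun r : ℝ => A0 (l i ^ 2 + r ^ 2))
  rw [him, integrableOn_univ, integrableOn_univ, hfun] at e1
  rw [him, setIntegral_univ, setIntegral_univ, hfun] at e2
  exact ⟨e1.1 hint, e2.symm.trans hval⟩

/-- The part with `F'`. -/
private theorem AN4b_rest (h : Disp l F) {c : ι → ℝ → ℝ} (hc : LB l c) :
    ∃ C : ℝ, ∀ (i : ι) (A0 A1 : ℝ → ℝ) (ρ E Q : ℝ),
    0 ≤ ρ → AbPair A0 A1 ρ E (l i) Q →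
      Integrable (fun y => c i y * deriv (F i) y * A0 (F i y)) ∧
      |∫ y, c i y * deriv (F i) y * A0 (F i y)| ≤ C * Real.exp (C * (l i + ρ)) * E := by
  have hl : ∀ i, 0 ≤ l i := fun i => (h.pos i).le
  obtain ⟨C0, hC0⟩ := h.grow
  obtain ⟨C1, hC1⟩ := (LB_iff.1 hc).2 1
  set D : ℝ := |C1| with hD
  have hD0 : 0 ≤ D := abs_nonneg C1
  set G : ℝ := 2 * D * Real.exp ((D + 1) * (|C0| + 1)) with hG
  have hG0 : 0 ≤ G := by positivity
  refine ⟨G + (D + 1), ?_⟩
  intro i A0 A1 ρ E Q hρ hA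
  have hE : 0 ≤ E := (abs_nonneg _).trans (hA.bd 1 one_pos)
  have hli := h.pos i
  have hFs : ContDiff ℝ ∞ (F i) := (LB_iff.1 h.lb).1 i
  have hcs : ContDiff ℝ ∞ (c i) := (LB_iff.1 hc).1 i
  have hFpos : ∀ y, 0 < F i y := by
    intro y
    rw [(Disp_W h i y).1]
    positivity
  have hFd : ∀ y, HasDerivAt (F i) (deriv (F i) y) y := fun y =>
    ((hFs.differentiable (by simp)) y).hasDerivAt
  have hcd : ∀ y, HasDerivAt (c i) (deriv (c i) y) y := fun y =>
    ((hcs.differentiable (by simp)) y).hasDerivAt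
  have hF' : Continuous (deriv (F i)) := hFs.continuous_deriv (by simp)
  have hc' : Continuous (deriv (c i)) := hcs.continuous_deriv (by simp)
  have hA0c : Continuous (fun y => A0 (F i y)) :=
    hA.cont.comp_continuous hFs.continuous (fun y => hFpos y)
  have hu : ∀ y, HasDerivAt (fun y => A1 (F i y)) (-(A0 (F i y)) * deriv (F i) y) y := fun y =>
    (hA.der _ (hFpos y)).comp y (hFd y)
  set Y : ℝ := ρ + |C0| + 1 with hY
  have hY0 : 0 < Y := by positivity
  -- vanishing outside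
  have hvan : ∀ y, Y ≤ |y| → A0 (F i y) = 0 ∧ A1 (F i y) = 0 := by
    intro y hy
    apply hA.supp _ (hFpos y)
    have h1 := hC0 i y
    have h2 : ρ < √(F i y) := by
      have := le_abs_self C0
      linarith
    have h3 : √(F i y) ^ 2 = F i y := Real.sq_sqrt (hFpos y).le
    rw [← h3]
    exact pow_lt_pow_left₀ h2 hρ (by norm_num)
  have hgc : Continuous (fun y => c i y * deriv (F i) y * A0 (F i y)) :=
    (hcs.continuous.mul hF').mul hA0c
  have hsupp : Function.support (fun y => c i y * deriv (F i) y * A0 (F i y)) ⊆ Ioc (-Y) Y := by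
    intro y hy
    by_contra hn
    apply hy
    have h1 : Y ≤ |y| := by
      by_contra h2
      push Not at h2
      rw [abs_lt] at h2
      exact hn ⟨h2.1, h2.2.le⟩
    show c i y * deriv (F i) y * A0 (F i y) = 0
    rw [(hvan y h1).1, mul_zero]
  have hint : Integrable (fun y => c i y * deriv (F i) y * A0 (F i y)) := by
    apply hgc.integrable_of_hasCompactSupport
    apply HasCompactSupport.intro (isCompact_Icc (a := -Y) (b := Y))
    intro y hy
    by_contra hn
    exact hy (Ioc_subset_Icc_self (hsupp hn))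
  refine ⟨hint, ?_⟩
  have e1 : ∫ y, c i y * deriv (F i) y * A0 (F i y) =
      ∫ y in (-Y)..Y, c i y * deriv (F i) y * A0 (F i y) :=
    (intervalIntegral.integral_eq_integral_of_support_subset hsupp).symm
  have e2 := intervalIntegral.integral_mul_deriv_eq_deriv_mul (a := -Y) (b := Y)
    (u := c i) (v := fun y => A1 (F i y)) (u' := deriv (c i))
    (v' := fun y => -(A0 (F i y)) * deriv (F i) y)
    (fun y _ => hcd y) (fun y _ => hu y) (hc'.intervalIntegrable _ _)
    ((hA0c.neg.mul hF').intervalIntegrable _ _)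
  have hYa : Y ≤ |Y| := le_abs_self Y
  have hYb : Y ≤ |-Y| := by rw [abs_neg]; exact le_abs_self Y
  rw [(hvan Y hYa).2, (hvan (-Y) hYb).2, mul_zero, mul_zero, sub_self, zero_sub] at e2
  have e3 : ∫ y in (-Y)..Y, c i y * deriv (F i) y * A0 (F i y) =
      ∫ y in (-Y)..Y, deriv (c i) y * A1 (F i y) := by
    have e4 : ∫ y in (-Y)..Y, c i y * deriv (F i) y * A0 (F i y) =
        -∫ y in (-Y)..Y, c i y * (-(A0 (F i y)) * deriv (F i) y) := by
      rw [← intervalIntegral.integral_neg]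
      apply intervalIntegral.integral_congr
      intro y _
      show c i y * deriv (F i) y * A0 (F i y) = -(c i y * (-(A0 (F i y)) * deriv (F i) y))
      ring
    rw [e4, e2, neg_neg]
  rw [e1, e3]
  have e5 : ∀ y ∈ uIoc (-Y) Y, ‖deriv (c i) y * A1 (F i y)‖ ≤ D * Real.exp (D * (l i + Y)) * E := by
    intro y hy
    rw [uIoc_of_le (by linarith)] at hy
    have hyY : |y| ≤ Y := abs_le.2 ⟨hy.1.le, hy.2⟩
    rw [norm_mul, Real.norm_eq_abs, Real.norm_eq_abs]
    have h1 := hC1 i y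
    rw [iteratedDeriv_one] at h1
    have h2 := AN4b_up (add_nonneg (hl i) (abs_nonneg y)) h1 (le_refl |C1|)
    have h3 : D * Real.exp (D * (l i + |y|)) ≤ D * Real.exp (D * (l i + Y)) := by
      apply mul_le_mul_of_nonneg_left _ hD0
      apply Real.exp_le_exp.2
      apply mul_le_mul_of_nonneg_left _ hD0
      linarith
    exact mul_le_mul (h2.trans h3) (hA.bd _ (hFpos y)) (abs_nonneg _) (by positivity)
  have e6 := intervalIntegral.norm_integral_le_of_norm_le_const e5
  rw [Real.norm_eq_abs] at e6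
  have e7 : |Y - -Y| = 2 * Y := by
    rw [abs_of_pos (by linarith)]
    ring
  rw [e7] at e6
  have e8 : Y ≤ Real.exp (l i + Y) := by
    have := Real.add_one_le_exp (l i + Y)
    linarith
  calc |∫ y in (-Y)..Y, deriv (c i) y * A1 (F i y)|
      ≤ D * Real.exp (D * (l i + Y)) * E * (2 * Y) := e6
    _ ≤ D * Real.exp (D * (l i + Y)) * E * (2 * Real.exp (l i + Y)) := by
        apply mul_le_mul_of_nonneg_left _ (by positivity)
        linarith
    _ = G * Real.exp ((D + 1) * (l i + ρ)) * E := by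
        rw [hG]
        have h1 : Real.exp (D * (l i + Y)) * Real.exp (l i + Y) =
            Real.exp ((D + 1) * (|C0| + 1)) * Real.exp ((D + 1) * (l i + ρ)) := by
          rw [← Real.exp_add, ← Real.exp_add]
          congr 1
          rw [hY]
          ring
        calc D * Real.exp (D * (l i + Y)) * E * (2 * Real.exp (l i + Y))
            = 2 * D * (Real.exp (D * (l i + Y)) * Real.exp (l i + Y)) * E := by ring
          _ = _ := by rw [h1]; ring
    _ ≤ (G + (D + 1)) * Real.exp ((G + (D + 1)) * (l i + ρ)) * E := by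
        apply mul_le_mul_of_nonneg_right _ hE
        apply mul_le_mul _ _ (Real.exp_pos _).le (by positivity)
        · linarith
        · apply Real.exp_le_exp.2
          apply mul_le_mul_of_nonneg_right _ (by linarith)
          linarith

theorem abel_line (h : Disp l F) (hβ : LB l β) : ∃ C : ℝ, ∀ (i : ι) (A0 A1 : ℝ → ℝ) (ρ E Q : ℝ),
    0 ≤ ρ → AbPair A0 A1 ρ E (l i) Q →
      Integrable (fun y => β i y * A0 (F i y)) ∧
      |(∫ y, β i y * A0 (F i y)) - β i 0 * √(2 / deriv (deriv (F i)) 0) * Q| ≤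
        C * Real.exp (C * (l i + ρ)) * E := by
  obtain ⟨c, hc, hcβ⟩ := Disp_c h hβ
  obtain ⟨C, hC⟩ := AN4b_rest h hc
  refine ⟨C, ?_⟩
  intro i A0 A1 ρ E Q hρ hA
  obtain ⟨h1, h2⟩ := hC i A0 A1 ρ E Q hρ hA
  obtain ⟨h3, h4⟩ := AN4b_main h i hA.int hA.val
  have hfun : (fun y => β i y * A0 (F i y)) = fun y =>
      β i 0 / dW1 (F i) 0 * (dW1 (F i) y * A0 (F i y)) + c i y * deriv (F i) y * A0 (F i y) := by
    funext y
    rw [hcβ i y]
    ring
  have h5 : Integrable (fun y => β i 0 / dW1 (F i) 0 * (dW1 (F i) y * A0 (F i y))) := h3.const_mul _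
  refine ⟨?_, ?_⟩
  · rw [hfun]
    exact h5.add h1
  · rw [hfun, integral_add h5 h1, integral_const_mul, h4]
    have h6 : β i 0 / dW1 (F i) 0 = β i 0 * √(2 / deriv (deriv (F i)) 0) := by
      rw [Disp_W0 h i, div_eq_mul_inv, ← Real.sqrt_inv, inv_div]
    rw [h6, add_sub_cancel_left]
    exact h2

end BR
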