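import Pool.Agent.LibBR73.AN2
import Pool.Agent.LibBR70.H1g

/-! Row AN7: the trace of the monodromy does not depend on the point of the axis. 35 min.
Plan. `J_add`: `gfl m (s + t) = gfl m t ∘ gfl m s` (`gfl_add`), so `dgf m (s + t) (x, u) ξ = dgf m t (gfl m s (x, u)) (dgf m s (x, u) ξ)`
(chain rule, `gfl_smooth`); apply `dgf_split` to `ξ = lift m x u 0 1 0` and `lift m x u 0 0 1` and read off the
second component `cq` (`lift_spec`, `gfl_eu`); the formulas for the derivatives follow by differentiating in `t`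
(or read off `cb`). `trM_along`: write `M(x, u, t) = [[JA, JB], [JA', JB']]`; by `J_add`
`M(x_s, v_s, l) M(x0, v0, s) = M(x0, v0, s + l) = M(x_l, v_l, s) M(x0, v0, l)` and `(x_l, v_l) = (g • x0, Rg m g x0 v0)`
(`Axis.per`), `M(g • x0, Rg .., s) = M(x0, v0, s)` (`JA_deck`, `JB_deck`); so the two matrices of length `l` are
conjugate by `M(x0, v0, s)`, whose determinant is `1` (`wronski`): compare the traces (a computation with
`2 × 2` entries; `linear_combination` or `Matrix.trace_mul_comm`). `Cls_len`: `g ∈ zpowers g0` (`cent g`),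
`g = g0 ^ k`; by `Fm_shift` for `g0` (and its inverse), induction: `g0 ^ k • Fm (0, 0) = Fm (k l0, 0)`, and
`g • Fm (0, 0) = Fm (l, 0)`; `Fm_bij`: `l = k l0`, `k ≥ 1`. -/

open MeasureTheory Set Filter Topology
open scoped ContDiff

namespace BR

open BGS

variable {Γ : Type} [Group Γ] [MulAction Γ Pl] {D : Set Pl}

private theorem AN7_chain (hX : Surface Γ D) {m : Pl → Co} (hm : HM Γ m) (s t : ℝ)
    (p ξ : Pl × Pl) : dgf m (s + t) p ξ = dgf m t (gfl m s p) (dgf m s p ξ) := by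
  have hgs : ∀ r : ℝ, ContDiff ℝ ∞ (gfl m r) := fun r =>
    (gfl_smooth hX hm).comp (contDiff_const.prodMk contDiff_id)
  have h1 : HasFDerivAt (gfl m s) (fderiv ℝ (gfl m s) p) p :=
    (((hgs s).differentiable (by simp)) p).hasFDerivAt
  have h2 : HasFDerivAt (gfl m t) (fderiv ℝ (gfl m t) (gfl m s p)) (gfl m s p) :=
    (((hgs t).differentiable (by simp)) (gfl m s p)).hasFDerivAt
  have h3 := h2.comp p h1
  have h4 : gfl m t ∘ gfl m s = gfl m (s + t) := by
    funext q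
    show gfl m t (gfl m s q) = gfl m (s + t) q
    rw [← gfl_add hX hm, add_comm]
  rw [h4] at h3
  unfold dgf
  rw [h3.fderiv]
  rfl

private theorem AN7_add (hX : Surface Γ D) {m : Pl → Co} (hm : HM Γ m) {x u x1 u1 : Pl}
    (hu : eu u = 1) (s t : ℝ) (h1 : gfl m s (x, u) = (x1, u1)) (q b : ℝ) :
    q * JA m x u (s + t) + b * JB m x u (s + t) =
      (q * JA m x u s + b * JB m x u s) * JA m x1 u1 t +
        (q * deriv (JA m x u) s + b * deriv (JB m x u) s) * JB m x1 u1 t ∧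
    q * deriv (JA m x u) (s + t) + b * deriv (JB m x u) (s + t) =
      (q * JA m x u s + b * JB m x u s) * deriv (JA m x1 u1) t +
        (q * deriv (JA m x u) s + b * deriv (JB m x u) s) * deriv (JB m x1 u1) t := by
  have hu1 : eu u1 = 1 := by
    have h2 := gfl_eu hX hm s (x, u)
    rw [h1] at h2
    exact h2.trans hu
  have e1 := dgf_split hX hm (x := x) hu (s + t) 0 q b
  have e2 := dgf_split hX hm (x := x) hu s 0 q b
  have e3 := AN7_chain hX hm s t (x, u) (lift m x u 0 q b)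
  rw [h1] at e2 e3
  rw [e2] at e3
  have e4 := dgf_split hX hm (x := x1) hu1 t 0 (q * JA m x u s + b * JB m x u s)
    (q * deriv (JA m x u) s + b * deriv (JB m x u) s)
  have e5 : gfl m (s + t) (x, u) = gfl m t (x1, u1) := by
    rw [add_comm, gfl_add hX hm, h1]
  rw [e5] at e1
  rw [e1] at e3
  have e6 := e3.trans e4
  have hu2 : eu (gfl m t (x1, u1)).2 = 1 := by
    rw [gfl_eu hX hm]
    exact hu1
  have s1 := lift_spec hm.pos (x := (gfl m t (x1, u1)).1) hu2 0
    (q * JA m x u (s + t) + b * JB m x u (s + t))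
    (q * deriv (JA m x u) (s + t) + b * deriv (JB m x u) (s + t))
  have s2 := lift_spec hm.pos (x := (gfl m t (x1, u1)).1) hu2 0
    ((q * JA m x u s + b * JB m x u s) * JA m x1 u1 t +
      (q * deriv (JA m x u) s + b * deriv (JB m x u) s) * JB m x1 u1 t)
    ((q * JA m x u s + b * JB m x u s) * deriv (JA m x1 u1) t +
      (q * deriv (JA m x u) s + b * deriv (JB m x u) s) * deriv (JB m x1 u1) t)
  rw [← e6] at s2
  exact ⟨s1.2.1.symm.trans s2.2.1, s1.2.2.1.symm.trans s2.2.2.1⟩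

theorem J_add (hX : Surface Γ D) {m : Pl → Co} (hm : HM Γ m) {x u x1 u1 : Pl} (hu : eu u = 1)
    (s t : ℝ) (h1 : gfl m s (x, u) = (x1, u1)) :
    JA m x u (s + t) = JA m x1 u1 t * JA m x u s + JB m x1 u1 t * deriv (JA m x u) s ∧
    JB m x u (s + t) = JA m x1 u1 t * JB m x u s + JB m x1 u1 t * deriv (JB m x u) s ∧
    deriv (JA m x u) (s + t) =
      deriv (JA m x1 u1) t * JA m x u s + deriv (JB m x1 u1) t * deriv (JA m x u) s ∧
    deriv (JB m x u) (s + t) =
      deriv (JA m x1 u1) t * JB m x u s + deriv (JB m x1 u1) t * deriv (JB m x u) s := by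
  obtain ⟨a1, a2⟩ := AN7_add hX hm hu s t h1 1 0
  obtain ⟨b1, b2⟩ := AN7_add hX hm hu s t h1 0 1
  refine ⟨?_, ?_, ?_, ?_⟩ <;> linarith

theorem trM_along (hX : Surface Γ D) (hO : Ori Γ) {m : Pl → Co} (hm : HM Γ m) {g : Γ}
    {x0 v0 : Pl} {l : ℝ} (hA : Axis m g x0 v0 l) (s : ℝ) :
    trM m (gfl m s (x0, v0)).1 (gfl m s (x0, v0)).2 l = trM m x0 v0 l := by
  have hu := hA.unit
  obtain ⟨p1, p2, p3, p4⟩ := J_add hX hm hu s l
    (x1 := (gfl m s (x0, v0)).1) (u1 := (gfl m s (x0, v0)).2) rfl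
  obtain ⟨q1, q2, q3, q4⟩ := J_add hX hm hu l s hA.per
  have d1 : JA m (g • x0) (Rg m g x0 v0) = JA m x0 v0 :=
    funext fun t => JA_deck hX hO hm g hu t
  have d2 : JB m (g • x0) (Rg m g x0 v0) = JB m x0 v0 :=
    funext fun t => JB_deck hX hO hm g hu t
  rw [d1, d2] at q1 q2 q3 q4
  rw [add_comm l s] at q1 q2 q3 q4
  have W := wronski hX hm (x := x0) hu s
  have E1 := p1.symm.trans q1
  have E2 := p2.symm.trans q2
  have E3 := p3.symm.trans q3
  have E4 := p4.symm.trans q4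
  unfold trM
  linear_combination (deriv (JB m x0 v0) s) * E1 - (deriv (JA m x0 v0) s) * E2 -
    (JB m x0 v0 s) * E3 + (JA m x0 v0 s) * E4 -
    (JA m (gfl m s (x0, v0)).1 (gfl m s (x0, v0)).2 l +
      deriv (JB m (gfl m s (x0, v0)).1 (gfl m s (x0, v0)).2) l -
      (JA m x0 v0 l + deriv (JB m x0 v0) l)) * W

private theorem AN7_pow (hX : Surface Γ D) (hO : Ori Γ) {m : Pl → Co} (hm : HM Γ m) {g : Γ}
    {x0 v0 : Pl} {l : ℝ} (hA : Axis m g x0 v0 l) (n : ℕ) (p : Pl) :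
    g ^ n • Fm m x0 v0 p = Fm m x0 v0 (p.1 + n * l, p.2) := by
  induction n with
  | zero =>
    rw [pow_zero, one_smul, Nat.cast_zero, zero_mul, add_zero]
  | succ n ih =>
    rw [pow_succ', mul_smul, ih, Fm_shift hX hO hm hA]
    show Fm m x0 v0 (p.1 + n * l + l, p.2) = Fm m x0 v0 (p.1 + (n + 1 : ℕ) * l, p.2)
    rw [add_assoc]
    congr 3
    push_cast
    ring

theorem Cls_len (hX : Surface Γ D) (hO : Ori Γ) {m : Pl → Co} (hm : HM Γ m) {g g0 : Γ}
    {x0 v0 : Pl} {l l0 : ℝ} (hc : Cls m g g0 x0 v0 l l0) : 0 < l0 ∧ l0 ≤ l := by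
  have hl := hc.axis.pos
  have hl0 := hc.axis0.pos
  refine ⟨hl0, ?_⟩
  have hinj := (Fm_bij hX hm hc.axis.unit (x0 := x0)).1
  have hg : g ∈ Subgroup.zpowers g0 := (hc.cent g).1 rfl
  obtain ⟨k, hk⟩ := Subgroup.mem_zpowers_iff.1 hg
  have h1 := Fm_shift hX hO hm hc.axis ((0, 0) : Pl)
  rcases k with n | n
  · rw [Int.ofNat_eq_natCast, zpow_natCast] at hk
    have h2 := AN7_pow hX hO hm hc.axis0 n ((0, 0) : Pl)
    rw [hk, h1] at h2
    have h3 : ((0 : ℝ) + l) = 0 + n * l0 := congrArg Prod.fst (hinj h2)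
    rcases Nat.eq_zero_or_pos n with h4 | h4
    · rw [h4, Nat.cast_zero] at h3
      linarith
    · have h5 : (1 : ℝ) ≤ n := by exact_mod_cast h4
      nlinarith
  · rw [zpow_negSucc] at hk
    have h2 := AN7_pow hX hO hm hc.axis0 (n + 1) ((0 + l, 0) : Pl)
    have h3 : g0 ^ (n + 1) • Fm m x0 v0 ((0 + l, 0) : Pl) = Fm m x0 v0 ((0, 0) : Pl) := by
      have h4 : Fm m x0 v0 ((0 + l, 0) : Pl) = g • Fm m x0 v0 ((0, 0) : Pl) := h1.symm
      rw [h4, ← hk, smul_inv_smul]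
    rw [h3] at h2
    have h5 : (0 : ℝ) = 0 + l + ((n + 1 : ℕ) : ℝ) * l0 := congrArg Prod.fst (hinj h2)
    have h6 : 0 ≤ ((n + 1 : ℕ) : ℝ) * l0 := by positivity
    linarith

end BR
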