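import Pool.Agent.LibBR73.AN6
import Pool.Agent.LibBR73.AN7
import Pool.Agent.LibBR73.AN8c

/-! Row AN9: the contribution of one conjugacy class, leading term. 45 min.
Plan. `f0 q γ x = B0 m x (γ • x) * Ab 0 q (ds m x (γ • x) ^ 2)`. `f0_cont`: for `γ ≠ 1` acting without fixed points
(`ds > 0`: `displ_pos`): `B0_smooth`, `Ab_contDiffOn`, `ds m x (γ • x) ^ 2 = sg (Vx ..)` is smooth (`Vx_smooth`).
`f0_inv`: `B0_deck`, `ds_deck`, `(δ γ δ⁻¹) • δ • x = δ • γ • x`. `f0_far`: `Ab_supp` (`ds > ρ` implies `f0 = 0`).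
`class_sum`, `l ≤ ρ`: apply `unfold` with `f = f0 q`: `hS`: if `γ ∉ S`, `IsConj g γ` (so `γ ≠ 1`, `Axis_ne`), `x ∈ D`, then
`ds > ρ`; `hR`: `f0 q g (Fm (s, y))`: with `(c, v) = gfl m s (x0, v0)`, `Axis_along`: `Fm (s, y) = Xp m c v y`,
`ds m (..) (g • ..) = Fd m g c v y ≥ |y| - C > ρ` for `|y| > ρ + C` (`Fd_growth`). The inner integral is the
integral of `perp_int` for `Axis_along`, equal to `q l / √(trM m c v l - 2)` up to `C exp (C ρ) E`, and
`trM m c v l = trM m x0 v0 l` (`trM_along`). Integrate over `s ∈ (0, l0)`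
(`intervalIntegral.norm_integral_le_of_norm_le_const` for the difference; the inner integral is a measurable
function of `s`: `StronglyMeasurable.integral_prod_right` or, simpler, use
`‖∫ s in 0..l0, (I s - c)‖ ≤ ..` which needs no measurability, and
`intervalIntegral.integral_sub` needs integrability of `I`: it follows from Fubini
(`Integrable.integral_prod_left`) for the integrable function of `strip_compact` in the coordinates `(s, y)`),
`l0 ≤ l ≤ ρ` (`Cls_len`). Case `ρ < l`: every term is `0` (`ds m x (γ • x) ≥ l` for `γ` conjugate to `g`, because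
`x = Fm (s, y)` and `Fd ≥ l`; use `f0_inv`) and `q l = 0`. -/

open MeasureTheory Set Filter Topology
open scoped ContDiff

namespace BR

open BGS

variable {Γ : Type} [Group Γ] [MulAction Γ Pl] {D : Set Pl}

/-- The leading term of the kernel. -/
noncomputable def f0 (m : Pl → Co) (q : ℝ → ℝ) (γ : Γ) (x : Pl) : ℝ :=
  B0 m x (γ • x) * Ab 0 q (ds m x (γ • x) ^ 2)

private theorem AN9_eu_cont : Continuous eu := by
  unfold eu
  fun_prop

theorem f0_cont (hX : Surface Γ D) (hO : Ori Γ) {m : Pl → Co} (hm : HM Γ m) {q : ℝ → ℝ} {ρ : ℝ}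
    (hρ : 0 ≤ ρ) (hq : Tl q ρ) {γ : Γ} (hγ : γ ≠ 1) : Continuous (f0 m q γ) := by
  have hγc : Continuous (fun x : Pl => γ • x) := (hX.smooth γ).continuous
  have hp : Continuous (fun x : Pl => (x, γ • x)) := continuous_id.prodMk hγc
  have h1 : Continuous (fun x : Pl => B0 m x (γ • x)) := by
    have h10 := (B0_smooth hX hm).continuous.comp hp
    simp only [Function.comp_def] at h10
    exact h10
  have h20 : Continuous (fun x : Pl => Vx m x (γ • x)) := (Vx_smooth hX hm).continuous.comp hp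
  have h21 : Continuous (fun x : Pl => ds m x (γ • x)) := AN9_eu_cont.comp h20
  have h2 : Continuous (fun x : Pl => ds m x (γ • x) ^ 2) := h21.pow 2
  obtain ⟨c, hc, hd⟩ := displ_pos (D := D) hX hO hm
  have hmem : ∀ x : Pl, ds m x (γ • x) ^ 2 ∈ Ioi (0 : ℝ) := by
    intro x
    have h4 : 0 < ds m x (γ • x) := lt_of_lt_of_le hc (hd γ hγ x)
    exact pow_pos h4 2
  have hAb : ContinuousOn (Ab 0 q) (Ioi 0) := (Ab_contDiffOn hρ hq 0).continuousOn
  have h3 : Continuous (fun x : Pl => Ab 0 q (ds m x (γ • x) ^ 2)) :=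
    ContinuousOn.comp_continuous (g := Ab 0 q) (f := fun x : Pl => ds m x (γ • x) ^ 2) hAb h2 hmem
  exact h1.mul h3

private theorem AN9_conj (δ γ : Γ) (x : Pl) : (δ * γ * δ⁻¹) • δ • x = δ • γ • x := by
  simp only [mul_smul, inv_smul_smul]

theorem f0_inv (hX : Surface Γ D) (hO : Ori Γ) {m : Pl → Co} (hm : HM Γ m) (q : ℝ → ℝ) (δ γ : Γ)
    (x : Pl) : f0 m q (δ * γ * δ⁻¹) (δ • x) = f0 m q γ x := by
  unfold f0
  rw [AN9_conj, B0_deck hX hO hm, (ds_deck hX hO hm δ x (γ • x)).1]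

/-- The displacement of a conjugate of `g` is at least `l`. -/
theorem displ_ge (hX : Surface Γ D) (hO : Ori Γ) {m : Pl → Co} (hm : HM Γ m) {g γ : Γ}
    {x0 v0 : Pl} {l : ℝ} (hA : Axis m g x0 v0 l) (hγ : IsConj g γ) (x : Pl) :
    l ≤ ds m x (γ • x) := by
  obtain ⟨δ, hδ⟩ := isConj_iff.mp hγ
  obtain ⟨C, hC⟩ := Fd_growth (D := D) hX hO hm
  obtain ⟨p, hp⟩ := (Fm_bij hX hm hA.unit).2 (δ⁻¹ • x)
  have h1 := (hC g _ _ l (Axis_along hX hO hm hA p.1)).2.2 p.2
  have h2 : Fd m g (gfl m p.1 (x0, v0)).1 (gfl m p.1 (x0, v0)).2 p.2 =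
      ds m (δ⁻¹ • x) (g • δ⁻¹ • x) := by
    rw [← hp]
    rfl
  have h3 : ds m x (γ • x) = ds m (δ⁻¹ • x) (g • δ⁻¹ • x) := by
    rw [← (ds_deck hX hO hm δ (δ⁻¹ • x) (g • δ⁻¹ • x)).1, smul_inv_smul, ← hδ]
    simp only [mul_smul]
  rw [h3, ← h2]
  exact h1.2.1

private theorem AN9_zero {m : Pl → Co} {q : ℝ → ℝ} {ρ : ℝ}
    (hρ : 0 ≤ ρ) (hq : Tl q ρ) {γ : Γ} {x : Pl} (h : ρ < ds m x (γ • x)) : f0 m q γ x = 0 := by
  have h0 : 0 < ds m x (γ • x) := lt_of_le_of_lt hρ h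
  have h1 : ρ ^ 2 < ds m x (γ • x) ^ 2 := pow_lt_pow_left₀ h hρ (by norm_num)
  unfold f0
  rw [Ab_supp hρ hq 0 (pow_pos h0 2) h1, mul_zero]

open Classical in
theorem class_sum (hX : Surface Γ D) (hO : Ori Γ) (m : Mt Γ D) :
    ∃ C : ℝ, ∀ (g g0 : Γ) (x0 v0 : Pl) (l l0 : ℝ), Cls m.1.1 g g0 x0 v0 l l0 →
      ∀ (q : ℝ → ℝ) (ρ E : ℝ), 0 ≤ ρ → Tl q ρ → (∀ σ, 0 < σ → |Ab 1 q σ| ≤ E) →
      ∀ S : Finset Γ, (∀ γ : Γ, γ ≠ 1 → (∃ x ∈ closure D, ds m.1.1 x (γ • x) ≤ ρ) → γ ∈ S) →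
      |(∑ γ ∈ S.filter (IsConj g), ∫ x in D, f0 m.1.1 q γ x * √(dt (m.1.1 x))) -
        l0 * q l / √(trM m.1.1 x0 v0 l - 2)| ≤ C * Real.exp (C * ρ) * E := by
  have hm : HM Γ m.1.1 := ⟨m.1.2, m.2.pos, m.2.inv, m.2.neg⟩
  obtain ⟨C5, hC5⟩ := perp_int (D := D) hX hO hm
  obtain ⟨C6, hC6⟩ := Fd_growth (D := D) hX hO hm
  refine ⟨|C5| + 1, ?_⟩
  intro g g0 x0 v0 l l0 hc q ρ E hρ hq hE S hS
  have hE0 : 0 ≤ E := (abs_nonneg _).trans (hE 1 one_pos)
  have hne := Axis_ne hX hO hm hc.axis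
  have hlen := Cls_len hX hO hm hc
  rcases lt_or_ge ρ l with hlρ | hlρ
  · have hql : q l = 0 := hq.supp l hlρ
    have hsum : (∑ γ ∈ S.filter (IsConj g), ∫ x in D, f0 m.1.1 q γ x * √(dt (m.1.1 x))) = 0 := by
      refine Finset.sum_eq_zero fun γ hγ => ?_
      have hcj : IsConj g γ := (Finset.mem_filter.mp hγ).2
      have h1 : ∀ x, f0 m.1.1 q γ x * √(dt (m.1.1 x)) = 0 := by
        intro x
        rw [AN9_zero hρ hq (lt_of_lt_of_le hlρ (displ_ge hX hO hm hc.axis hcj x)), zero_mul]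
      simp only [h1, integral_zero]
    rw [hsum, hql, mul_zero, zero_div, sub_zero, abs_zero]
    positivity
  · set R : ℝ := ρ + C6 with hR
    have hRv : ∀ s y : ℝ, R < |y| → f0 m.1.1 q g (Fm m.1.1 x0 v0 (s, y)) = 0 := by
      intro s y hy
      apply AN9_zero hρ hq
      have h1 := ((hC6 g _ _ l (Axis_along hX hO hm hc.axis s)).2.2 y).1
      have h2 : Fd m.1.1 g (gfl m.1.1 s (x0, v0)).1 (gfl m.1.1 s (x0, v0)).2 y =
        ds m.1.1 (Fm m.1.1 x0 v0 (s, y)) (g • Fm m.1.1 x0 v0 (s, y)) := rfl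
      rw [← h2]
      linarith
    have hfc : ∀ γ, IsConj g γ → Continuous (f0 m.1.1 q γ) := by
      intro γ hγ
      refine f0_cont hX hO hm hρ hq ?_
      intro h1
      rw [h1] at hγ
      exact hne.1 (isConj_one_left.mp hγ)
    have hSv : ∀ γ, IsConj g γ → γ ∉ S → ∀ x ∈ D, f0 m.1.1 q γ x = 0 := by
      intro γ hγ hγS x hx
      apply AN9_zero hρ hq
      by_contra hle
      apply hγS
      refine hS γ ?_ ⟨x, subset_closure hx, not_lt.mp hle⟩
      intro h1
      rw [h1] at hγ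
      exact hne.1 (isConj_one_left.mp hγ)
    have hun := BR.unfold hX hO m hc hfc (f0_inv hX hO hm q) hSv hRv
    have hun' : (∑ γ ∈ S.filter (IsConj g), ∫ x in D, f0 m.1.1 q γ x * √(dt (m.1.1 x))) =
      ∫ s in (0 : ℝ)..l0, ∫ y, f0 m.1.1 q g (Fm m.1.1 x0 v0 (s, y)) *
        JA m.1.1 (gfl m.1.1 s (x0, v0)).1 (rot (gfl m.1.1 s (x0, v0)).2) y := by
      convert hun using 2
    rw [hun']
    set c0 : ℝ := q l / √(trM m.1.1 x0 v0 l - 2) with hc0
    set B : ℝ := C5 * Real.exp (C5 * ρ) * E with hB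
    set I : ℝ → ℝ := fun s => ∫ y, f0 m.1.1 q g (Fm m.1.1 x0 v0 (s, y)) *
        JA m.1.1 (gfl m.1.1 s (x0, v0)).1 (rot (gfl m.1.1 s (x0, v0)).2) y with hI
    have hIb : ∀ s, |I s - c0| ≤ B := by
      intro s
      have h1 := (hC5 g _ _ l (Axis_along hX hO hm hc.axis s) q ρ E hρ hq hE).2
      rw [trM_along hX hO hm hc.axis s] at h1
      exact h1
    have hIc : Continuous I := by
      have hgc : Continuous (fun s : ℝ => gfl m.1.1 s (x0, v0)) :=
        (gfl_smooth hX hm).continuous.comp (continuous_id.prodMk continuous_const)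
      have hrot : Continuous rot := by
        unfold rot
        fun_prop
      have hF1 : Continuous (fun p : ℝ × ℝ => f0 m.1.1 q g (Fm m.1.1 x0 v0 p)) :=
        (hfc g (IsConj.refl g)).comp (Fm_smooth hX hm x0 v0).continuous
      have hF2 : Continuous (fun p : ℝ × ℝ => JA m.1.1 (gfl m.1.1 p.1 (x0, v0)).1
          (rot (gfl m.1.1 p.1 (x0, v0)).2) p.2) := by
        have h1 : Continuous (fun p : ℝ × ℝ => (((gfl m.1.1 p.1 (x0, v0)).1,
            rot (gfl m.1.1 p.1 (x0, v0)).2), p.2)) := by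
          have h2 : Continuous (fun p : ℝ × ℝ => gfl m.1.1 p.1 (x0, v0)) := hgc.comp continuous_fst
          exact ((continuous_fst.comp h2).prodMk (hrot.comp (continuous_snd.comp h2))).prodMk
            continuous_snd
        exact (J_smooth hX hm).1.continuous.comp h1
      have hF : Continuous (Function.uncurry fun s y : ℝ => f0 m.1.1 q g (Fm m.1.1 x0 v0 (s, y)) *
          JA m.1.1 (gfl m.1.1 s (x0, v0)).1 (rot (gfl m.1.1 s (x0, v0)).2) y) :=
        hF1.mul hF2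
      have h3 := continuous_parametric_integral_of_continuous (μ := volume) hF
        (isCompact_Icc (a := -R) (b := R))
      convert h3 using 1
      funext s
      symm
      apply setIntegral_eq_integral_of_forall_compl_eq_zero
      intro y hy
      have hy2 : R < |y| := by
        by_contra hle
        exact hy (abs_le.mp (not_lt.mp hle))
      rw [hRv s y hy2, zero_mul]
    have hdiff : (∫ s in (0 : ℝ)..l0, I s) - l0 * c0 = ∫ s in (0 : ℝ)..l0, (I s - c0) := by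
      rw [intervalIntegral.integral_sub (hIc.intervalIntegrable _ _) (by simp),
        intervalIntegral.integral_const]
      simp
    have hmain : |(∫ s in (0 : ℝ)..l0, I s) - l0 * c0| ≤ B * l0 := by
      rw [hdiff, ← Real.norm_eq_abs]
      have h1 := intervalIntegral.norm_integral_le_of_norm_le_const (a := 0) (b := l0) (C := B)
        (f := fun s => I s - c0) (fun s _ => by rw [Real.norm_eq_abs]; exact hIb s)
      rw [sub_zero, abs_of_pos hlen.1] at h1
      exact h1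
    have hrw : l0 * q l / √(trM m.1.1 x0 v0 l - 2) = l0 * c0 := by
      rw [hc0]
      ring
    rw [hrw]
    have hB2 : B ≤ |C5| * Real.exp (|C5| * ρ) * E := by
      rw [hB]
      refine mul_le_mul_of_nonneg_right ?_ hE0
      have h1 : Real.exp (C5 * ρ) ≤ Real.exp (|C5| * ρ) :=
        Real.exp_le_exp.mpr (mul_le_mul_of_nonneg_right (le_abs_self C5) hρ)
      exact mul_le_mul (le_abs_self C5) h1 (Real.exp_pos _).le (abs_nonneg C5)
    have hρe : ρ ≤ Real.exp ρ := by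
      have := Real.add_one_le_exp ρ
      linarith
    calc |(∫ s in (0 : ℝ)..l0, I s) - l0 * c0| ≤ B * l0 := hmain
      _ ≤ (|C5| * Real.exp (|C5| * ρ) * E) * l0 := mul_le_mul_of_nonneg_right hB2 hlen.1.le
      _ ≤ (|C5| * Real.exp (|C5| * ρ) * E) * Real.exp ρ := by
          refine mul_le_mul_of_nonneg_left ?_ (by positivity)
          linarith [hlen.2]
      _ = |C5| * Real.exp ((|C5| + 1) * ρ) * E := by
          rw [add_mul, one_mul, Real.exp_add]
          ring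
      _ ≤ (|C5| + 1) * Real.exp ((|C5| + 1) * ρ) * E := by
          refine mul_le_mul_of_nonneg_right ?_ hE0
          refine mul_le_mul_of_nonneg_right ?_ (Real.exp_pos _).le
          linarith

end BR
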