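import Pool.Agent.LibBR70.JB3

/-! Families of functions on the line with exponential growth of all derivatives; the substitution
`F y = l ^ 2 + W y ^ 2` (architect helper73). -/

open MeasureTheory Set Filter Topology
open scoped ContDiff

namespace BR

/-- Smooth functions on the line with `|D^k f i y| ≤ C exp (C (l i + |y|))`. -/
def LB {ι : Type} (l : ι → ℝ) (f : ι → ℝ → ℝ) : Prop :=
  EB (fun p : ι × ℝ => l p.1 + |p.2|) (fun p => f p.1) (fun p => p.2)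

/-- The quotient `F' / y`, for `F' 0 = 0`. -/
noncomputable def dP (F : ℝ → ℝ) (y : ℝ) : ℝ := ∫ t in (0 : ℝ)..1, deriv (deriv F) (t * y)

/-- The quotient `(F y - F 0) / y ^ 2`. -/
noncomputable def dH (F : ℝ → ℝ) (y : ℝ) : ℝ := ∫ t in (0 : ℝ)..1, t * dP F (t * y)

/-- The substitution. -/
noncomputable def dW (F : ℝ → ℝ) (y : ℝ) : ℝ := y * √(dH F y)

/-- Its derivative. -/
noncomputable def dW1 (F : ℝ → ℝ) (y : ℝ) : ℝ := dP F y / (2 * √(dH F y))

/-- The properties of the squared displacement that are used. -/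
structure Disp {ι : Type} (l : ι → ℝ) (F : ι → ℝ → ℝ) : Prop where
  pos : ∀ i, 0 < l i
  lb : LB l F
  zero : ∀ i, F i 0 = l i ^ 2
  low : ∃ c > 0, ∀ i y, c * y ^ 2 ≤ (1 + |y|) * (y * deriv (F i) y)
  grow : ∃ C : ℝ, ∀ i y, |y| ≤ √(F i y) + C

/-- `A0`, `A1` are consecutive Abel transforms. -/
structure AbPair (A0 A1 : ℝ → ℝ) (ρ E l Q : ℝ) : Prop where
  der : ∀ σ, 0 < σ → HasDerivAt A1 (-(A0 σ)) σ
  cont : ContinuousOn A0 (Ioi 0)
  bd : ∀ σ, 0 < σ → |A1 σ| ≤ E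
  supp : ∀ σ, 0 < σ → ρ ^ 2 < σ → A0 σ = 0 ∧ A1 σ = 0
  int : Integrable (fun r : ℝ => A0 (l ^ 2 + r ^ 2))
  val : ∫ r : ℝ, A0 (l ^ 2 + r ^ 2) = Q

end BR
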