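import Pool.Agent.LibBR73.AN4r

/-! Row AN4a: the substitution `F y = l ^ 2 + W y ^ 2`. 45 min.
Plan. `Disp_d0`: `deriv (F i)` is continuous, `≥ 0` for `y > 0` and `≤ 0` for `y < 0` (`low`), so it vanishes at
`0`. `Disp_P`: `y * dP = ∫ t in 0..1, y * F'' (t y) = F' y - F' 0` (fundamental theorem of calculus,
`intervalIntegral.integral_eq_sub_of_hasDerivAt` for `t ↦ F' (t y)`). `dP > 0` for `y ≠ 0`: from `low`,
`y * deriv F y = y ^ 2 * dP`, so `c / (1 + |y|) ≤ dP`; at `y = 0` by continuity of `dP` (`LB_rad` with `n = 0`).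
So `Disp_low`: `c ≤ (1 + |y|) * dP (F i) y` for all `y` and (integrate `t * c / (1 + t |y|) ≥ t c / (1 + |y|)`)
`c / 2 ≤ (1 + |y|) * dH (F i) y`. `Disp_W`: `t ↦ F (t y)` has the derivative
`y * F' (t y) = t y ^ 2 * dP (t y)`, so `F y - F 0 = y ^ 2 * dH y = (dW y) ^ 2`. Derivative of `dW`: for `y ≠ 0`
differentiate `dH y = (F y - F 0) / y ^ 2`; or for all `y` at once: `dW` is smooth (`dH` is smooth and positive),
`2 dW dW' = F' = y dP`, hence for `y ≠ 0`: `dW' = y dP / (2 y √dH) = dW1`, both sides are continuous, so it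
holds at `0` too. `dW1 0`: `dP 0 = F'' 0`, `dH 0 = F'' 0 / 2`. `Disp_LB`: `dP`, `dH` by `LB_rad`, `LB_deriv`; the
inverses and `√dH = dH ^ (1/2)` by `LB_inv`, `LB_rpow` with `Disp_low` (`1 + |y| ≤ exp |y| ≤ exp (l i + |y|)`).
`Disp_bij`: strictly monotone with positive derivative; continuous; unbounded in both directions because
`√(F y) ≥ |y| - C` (`grow`) and `dW y ^ 2 = F y - l ^ 2` with the sign of `y`. -/

open MeasureTheory Set Filter Topology
open scoped ContDiff

namespace BR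

variable {ι : Type} {l : ι → ℝ} {F : ι → ℝ → ℝ}

theorem AN4a_smooth (h : Disp l F) (i : ι) : ContDiff ℝ ∞ (F i) := (LB_iff.1 h.lb).1 i

theorem AN4a_l0 (h : Disp l F) (i : ι) : 0 ≤ l i := (h.pos i).le

theorem AN4a_LB2 (h : Disp l F) : LB l (fun i => deriv (deriv (F i))) := LB_deriv (LB_deriv h.lb)

theorem AN4a_LBP (h : Disp l F) : LB l (fun i => dP (F i)) := by
  have h1 := LB_rad (AN4a_l0 h) (AN4a_LB2 h) 0
  have h2 : (fun i (y : ℝ) => ∫ t in (0 : ℝ)..1, t ^ 0 * deriv (deriv (F i)) (t * y)) =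
      fun i => dP (F i) := by
    funext i y
    simp [dP]
  rw [h2] at h1
  exact h1

theorem AN4a_LBH (h : Disp l F) : LB l (fun i => dH (F i)) := by
  have h1 := LB_rad (AN4a_l0 h) (AN4a_LBP h) 1
  have h2 : (fun i (y : ℝ) => ∫ t in (0 : ℝ)..1, t ^ 1 * dP (F i) (t * y)) =
      fun i => dH (F i) := by
    funext i y
    simp [dH]
  rw [h2] at h1
  exact h1

theorem AN4a_cP (h : Disp l F) (i : ι) : Continuous (dP (F i)) :=
  ((LB_iff.1 (AN4a_LBP h)).1 i).continuous

theorem AN4a_sH (h : Disp l F) (i : ι) : ContDiff ℝ ∞ (dH (F i)) := (LB_iff.1 (AN4a_LBH h)).1 i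

theorem AN4a_d1 (h : Disp l F) (i : ι) (y : ℝ) : HasDerivAt (F i) (deriv (F i) y) y :=
  ((AN4a_smooth h i).differentiable (by simp) y).hasDerivAt

theorem AN4a_s1 (h : Disp l F) (i : ι) : ContDiff ℝ ∞ (deriv (F i)) :=
  (LB_iff.1 (LB_deriv h.lb)).1 i

theorem AN4a_d2 (h : Disp l F) (i : ι) (y : ℝ) : HasDerivAt (deriv (F i)) (deriv (deriv (F i)) y) y :=
  ((AN4a_s1 h i).differentiable (by simp) y).hasDerivAt

theorem AN4a_c2 (h : Disp l F) (i : ι) : Continuous (deriv (deriv (F i))) :=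
  ((LB_iff.1 (AN4a_LB2 h)).1 i).continuous

/-- sign of the derivative -/
theorem AN4a_sgn (h : Disp l F) (i : ι) (y : ℝ) : 0 ≤ y * deriv (F i) y := by
  obtain ⟨c, hc, hl⟩ := h.low
  have h1 := hl i y
  have h2 : 0 ≤ c * y ^ 2 := by positivity
  have h3 : 0 < 1 + |y| := by positivity
  by_contra h4
  push Not at h4
  have h5 := mul_neg_of_pos_of_neg h3 h4
  linarith

theorem AN4a_d0 (h : Disp l F) (i : ι) : deriv (F i) 0 = 0 := by
  have hc : Continuous (deriv (F i)) := (AN4a_s1 h i).continuous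
  apply le_antisymm
  · have h1 : Tendsto (deriv (F i)) (𝓝[<] 0) (𝓝 (deriv (F i) 0)) := hc.continuousAt.continuousWithinAt
    refine le_of_tendsto h1 ?_
    filter_upwards [self_mem_nhdsWithin] with y hy
    have h2 := AN4a_sgn h i y
    have hy' : y < 0 := hy
    by_contra h3
    push Not at h3
    have := mul_neg_of_neg_of_pos hy' h3
    linarith
  · have h1 : Tendsto (deriv (F i)) (𝓝[>] 0) (𝓝 (deriv (F i) 0)) := hc.continuousAt.continuousWithinAt
    refine ge_of_tendsto h1 ?_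
    filter_upwards [self_mem_nhdsWithin] with y hy
    have h2 := AN4a_sgn h i y
    have hy' : 0 < y := hy
    by_contra h3
    push Not at h3
    have := mul_neg_of_pos_of_neg hy' h3
    linarith

theorem AN4a_P1 (h : Disp l F) (i : ι) (y : ℝ) : deriv (F i) y = y * dP (F i) y := by
  have h1 : ∀ t ∈ uIcc (0 : ℝ) 1, HasDerivAt (fun t : ℝ => deriv (F i) (t * y))
      (y * deriv (deriv (F i)) (t * y)) t := by
    intro t _
    have h2 : HasDerivAt (fun t : ℝ => t * y) y t := by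
      simpa using (hasDerivAt_id t).mul_const y
    have h3 := (AN4a_d2 h i (t * y)).comp t h2
    rw [mul_comm] at h3
    exact h3
  have h2 := intervalIntegral.integral_eq_sub_of_hasDerivAt h1
    ((((AN4a_c2 h i).comp (continuous_id.mul continuous_const)).const_mul y |>.congr
      (fun t => rfl)).intervalIntegrable 0 1)
  rw [intervalIntegral.integral_const_mul] at h2
  simp only [one_mul, zero_mul, AN4a_d0 h i, sub_zero] at h2
  rw [← h2, dP]

/-- lower bound of `dP` -/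
theorem AN4a_lowP (h : Disp l F) : ∃ c > 0, ∀ i y, c ≤ (1 + |y|) * dP (F i) y := by
  obtain ⟨c, hc, hl⟩ := h.low
  refine ⟨c, hc, fun i y => ?_⟩
  have h1 : ∀ y : ℝ, y ≠ 0 → c ≤ (1 + |y|) * dP (F i) y := by
    intro y hy
    have h2 := hl i y
    rw [AN4a_P1 h i y] at h2
    have h3 : 0 < y ^ 2 := by positivity
    have h4 : c * y ^ 2 ≤ ((1 + |y|) * dP (F i) y) * y ^ 2 := by
      calc c * y ^ 2 ≤ (1 + |y|) * (y * (y * dP (F i) y)) := h2
        _ = _ := by ring
    exact le_of_mul_le_mul_right h4 h3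
  rcases eq_or_ne y 0 with rfl | hy
  · have h2 : Continuous (fun y : ℝ => (1 + |y|) * dP (F i) y) :=
      (continuous_const.add continuous_abs).mul (AN4a_cP h i)
    have h3 : Tendsto (fun y : ℝ => (1 + |y|) * dP (F i) y) (𝓝[>] 0) (𝓝 ((1 + |(0 : ℝ)|) * dP (F i) 0)) :=
      h2.continuousAt.continuousWithinAt
    refine ge_of_tendsto h3 ?_
    filter_upwards [self_mem_nhdsWithin] with y hy
    exact h1 y (ne_of_gt hy)
  · exact h1 y hy

theorem Disp_low (h : Disp l F) : ∃ c > 0, ∀ i y, c ≤ (1 + |y|) * dP (F i) y ∧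
    c ≤ (1 + |y|) * dH (F i) y := by
  obtain ⟨c, hc, hl⟩ := AN4a_lowP h
  refine ⟨c / 2, by positivity, fun i y => ⟨?_, ?_⟩⟩
  · have := hl i y
    linarith
  · have hy : 0 < 1 + |y| := by positivity
    have h1 : ∫ t in (0 : ℝ)..1, t * (c / (1 + |y|)) ≤ ∫ t in (0 : ℝ)..1, t * dP (F i) (t * y) := by
      apply intervalIntegral.integral_mono_on (by norm_num)
      · exact (continuous_id.mul continuous_const).intervalIntegrable _ _
      · exact (continuous_id.mul ((AN4a_cP h i).comp (continuous_id.mul continuous_const))).intervalIntegrable _ _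
      · intro t ht
        refine mul_le_mul_of_nonneg_left ?_ ht.1
        have h2 := hl i (t * y)
        have h3 : |t * y| ≤ |y| := by
          rw [abs_mul, abs_of_nonneg ht.1]
          exact mul_le_of_le_one_left (abs_nonneg _) ht.2
        have h4 : 0 < dP (F i) (t * y) := by
          by_contra h5
          push Not at h5
          have h6 : 0 < 1 + |t * y| := by positivity
          have := mul_nonpos_of_nonneg_of_nonpos h6.le h5
          linarith
        rw [div_le_iff₀ hy]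
        calc c ≤ (1 + |t * y|) * dP (F i) (t * y) := h2
          _ ≤ (1 + |y|) * dP (F i) (t * y) := mul_le_mul_of_nonneg_right (by linarith) h4.le
          _ = _ := mul_comm _ _
    rw [intervalIntegral.integral_mul_const, integral_id] at h1
    have h2 : (1 + |y|) * (((1 : ℝ) ^ 2 - 0 ^ 2) / 2 * (c / (1 + |y|))) ≤ (1 + |y|) * dH (F i) y :=
      mul_le_mul_of_nonneg_left h1 hy.le
    refine le_trans (le_of_eq ?_) h2
    field_simp
    norm_num

theorem Disp_P (h : Disp l F) (i : ι) (y : ℝ) : deriv (F i) y = y * dP (F i) y ∧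
    0 < dP (F i) y ∧ 0 < dH (F i) y := by
  obtain ⟨c, hc, hl⟩ := Disp_low h
  have hy : 0 < 1 + |y| := by positivity
  obtain ⟨h1, h2⟩ := hl i y
  exact ⟨AN4a_P1 h i y, (mul_pos_iff_of_pos_left hy).1 (lt_of_lt_of_le hc h1),
    (mul_pos_iff_of_pos_left hy).1 (lt_of_lt_of_le hc h2)⟩

theorem AN4a_F (h : Disp l F) (i : ι) (y : ℝ) : F i y = l i ^ 2 + y ^ 2 * dH (F i) y := by
  have h1 : ∀ t ∈ uIcc (0 : ℝ) 1, HasDerivAt (fun t : ℝ => F i (t * y))
      (y ^ 2 * (t * dP (F i) (t * y))) t := by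
    intro t _
    have h2 : HasDerivAt (fun t : ℝ => t * y) y t := by
      simpa using (hasDerivAt_id t).mul_const y
    have h3 := (AN4a_d1 h i (t * y)).comp t h2
    rw [AN4a_P1 h i (t * y), show t * y * dP (F i) (t * y) * y = y ^ 2 * (t * dP (F i) (t * y)) by ring] at h3
    exact h3
  have hcont : Continuous (fun t : ℝ => y ^ 2 * (t * dP (F i) (t * y))) :=
    continuous_const.mul (continuous_id.mul ((AN4a_cP h i).comp (continuous_id.mul continuous_const)))
  have h2 := intervalIntegral.integral_eq_sub_of_hasDerivAt h1 (hcont.intervalIntegrable 0 1)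
  rw [intervalIntegral.integral_const_mul] at h2
  simp only [one_mul, zero_mul, h.zero i] at h2
  have h3 : dH (F i) y = ∫ t in (0 : ℝ)..1, t * dP (F i) (t * y) := rfl
  rw [h3, h2]
  ring

/-- `dP = 2 dH + y dH'` -/
theorem AN4a_PH (h : Disp l F) (i : ι) (y : ℝ) :
    dP (F i) y = 2 * dH (F i) y + y * deriv (dH (F i)) y := by
  have hH : ∀ y, HasDerivAt (dH (F i)) (deriv (dH (F i)) y) y := fun y =>
    ((AN4a_sH h i).differentiable (by simp) y).hasDerivAt
  have h1 : ∀ y : ℝ, y ≠ 0 → dP (F i) y = 2 * dH (F i) y + y * deriv (dH (F i)) y := by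
    intro y hy
    have h2 : HasDerivAt (fun y => l i ^ 2 + y ^ 2 * dH (F i) y)
        (2 * y * dH (F i) y + y ^ 2 * deriv (dH (F i)) y) y := by
      have h3 := ((hasDerivAt_pow 2 y).mul (hH y)).const_add (l i ^ 2)
      simpa using h3
    have h4 : (fun y => l i ^ 2 + y ^ 2 * dH (F i) y) = F i := by
      funext x; exact (AN4a_F h i x).symm
    rw [h4] at h2
    have h5 := h2.unique (AN4a_d1 h i y)
    rw [AN4a_P1 h i y] at h5
    have h6 : y * dP (F i) y = y * (2 * dH (F i) y + y * deriv (dH (F i)) y) := by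
      rw [← h5]; ring
    exact mul_left_cancel₀ hy h6
  rcases eq_or_ne y 0 with rfl | hy
  · rw [zero_mul, add_zero]
    have h2 : dH (F i) 0 = ∫ t in (0 : ℝ)..1, t * dP (F i) (t * 0) := rfl
    rw [h2]
    simp only [mul_zero]
    rw [intervalIntegral.integral_mul_const, integral_id]
    ring
  · exact h1 y hy

theorem Disp_W (h : Disp l F) (i : ι) (y : ℝ) : F i y = l i ^ 2 + dW (F i) y ^ 2 ∧
    HasDerivAt (dW (F i)) (dW1 (F i) y) y ∧ 0 < dW1 (F i) y := by
  obtain ⟨h1, h2, h3⟩ := Disp_P h i y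
  have hs : 0 < √(dH (F i) y) := Real.sqrt_pos.2 h3
  refine ⟨?_, ?_, ?_⟩
  · rw [dW, mul_pow, Real.sq_sqrt h3.le]
    exact AN4a_F h i y
  · have hH : HasDerivAt (dH (F i)) (deriv (dH (F i)) y) y :=
      ((AN4a_sH h i).differentiable (by simp) y).hasDerivAt
    have h4 := (hasDerivAt_id y).mul (hH.sqrt h3.ne')
    have h5 : dW1 (F i) y = 1 * √(dH (F i) y) + id y * (deriv (dH (F i)) y / (2 * √(dH (F i) y))) := by
      rw [dW1, AN4a_PH h i y]
      have h6 : √(dH (F i) y) ^ 2 = dH (F i) y := Real.sq_sqrt h3.le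
      simp only [id]
      field_simp
      rw [h6]
    rw [h5]
    exact h4
  · rw [dW1]
    positivity

theorem AN4a_H0 (h : Disp l F) (i : ι) : dP (F i) 0 = deriv (deriv (F i)) 0 ∧
    dH (F i) 0 = deriv (deriv (F i)) 0 / 2 := by
  have h1 : dP (F i) 0 = deriv (deriv (F i)) 0 := by simp [dP]
  refine ⟨h1, ?_⟩
  have h2 := AN4a_PH h i 0
  rw [h1] at h2
  linarith

theorem AN4a_W0 (h : Disp l F) (i : ι) : dW1 (F i) 0 = √(dH (F i) 0) := by
  have h1 := AN4a_PH h i 0
  rw [zero_mul, add_zero] at h1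
  have h2 : 0 < dH (F i) 0 := (Disp_P h i 0).2.2
  have hs : 0 < √(dH (F i) 0) := Real.sqrt_pos.2 h2
  have h3 : √(dH (F i) 0) ^ 2 = dH (F i) 0 := Real.sq_sqrt h2.le
  rw [dW1, h1]
  field_simp
  rw [h3]

theorem Disp_W0 (h : Disp l F) (i : ι) : dW1 (F i) 0 = √(deriv (deriv (F i)) 0 / 2) := by
  rw [AN4a_W0 h i, (AN4a_H0 h i).2]

theorem AN4a_inv {c A x y : ℝ} (hc : 0 < c) (hA : 0 ≤ A) (hx : 0 < x) (h : c ≤ (1 + |y|) * x) :
    |x|⁻¹ ≤ (1 + c⁻¹) * Real.exp ((1 + c⁻¹) * (A + |y|)) := by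
  have hy : 0 < 1 + |y| := by positivity
  have hci : 0 < c⁻¹ := inv_pos.2 hc
  have h1 : |x|⁻¹ ≤ (1 + |y|) * c⁻¹ := by
    rw [abs_of_pos hx, inv_le_comm₀ hx (by positivity), mul_inv, inv_inv, inv_mul_le_iff₀ hy]
    exact h
  have h2 : 1 + |y| ≤ Real.exp ((1 + c⁻¹) * (A + |y|)) := by
    have h3 : 1 + |y| ≤ Real.exp |y| := by
      have := Real.add_one_le_exp |y|
      linarith
    refine h3.trans (Real.exp_le_exp.2 ?_)
    have h4 : 0 ≤ c⁻¹ * (A + |y|) := by positivity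
    nlinarith [abs_nonneg y]
  calc |x|⁻¹ ≤ (1 + |y|) * c⁻¹ := h1
    _ ≤ Real.exp ((1 + c⁻¹) * (A + |y|)) * (1 + c⁻¹) :=
        mul_le_mul h2 (by linarith) hci.le (Real.exp_pos _).le
    _ = _ := mul_comm _ _

theorem Disp_LB (h : Disp l F) : LB l (fun i => dP (F i)) ∧ LB l (fun i y => (dP (F i) y)⁻¹) ∧
    LB l (fun i => dW1 (F i)) ∧ ∃ C : ℝ, ∀ i, (dW1 (F i) 0)⁻¹ ≤ C * Real.exp (C * l i) := by
  obtain ⟨c, hc, hl⟩ := Disp_low h
  have hl0 := AN4a_l0 h
  refine ⟨AN4a_LBP h, ?_, ?_, ?_⟩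
  · exact LB_inv hl0 (AN4a_LBP h) (fun i y => (Disp_P h i y).2.1.ne') (C := 1 + c⁻¹)
      (fun i y => AN4a_inv hc (hl0 i) (Disp_P h i y).2.1 (hl i y).1)
  · have h1 : LB l (fun i y => dH (F i) y ^ (-(1 / 2) : ℝ)) :=
      LB_rpow hl0 (AN4a_LBH h) (fun i y => (Disp_P h i y).2.2) (C := 1 + c⁻¹)
        (fun i y => AN4a_inv hc (hl0 i) (Disp_P h i y).2.2 (hl i y).2) _
    have h2 : LB l (fun (_ : ι) (_ : ℝ) => (1 / 2 : ℝ)) := LB_const hl0 (C := 1) (fun i => by
      have h3 : (1 : ℝ) ≤ Real.exp (1 * l i) := Real.one_le_exp (by have := hl0 i; linarith)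
      rw [abs_of_pos (by norm_num)]
      linarith)
    have h3 := LB_mul hl0 (AN4a_LBP h) (LB_mul hl0 h2 h1)
    have h4 : (fun i y => dP (F i) y * (1 / 2 * dH (F i) y ^ (-(1 / 2) : ℝ))) = fun i => dW1 (F i) := by
      funext i y
      have h5 := (Disp_P h i y).2.2
      have hs : 0 < √(dH (F i) y) := Real.sqrt_pos.2 h5
      rw [dW1, Real.rpow_neg h5.le, ← Real.sqrt_eq_rpow]
      field_simp
    rw [h4] at h3
    exact h3
  · refine ⟨(√c)⁻¹, fun i => ?_⟩
    have hsc : 0 < √c := Real.sqrt_pos.2 hc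
    have h1 := (hl i 0).2
    rw [abs_zero, add_zero, one_mul] at h1
    rw [AN4a_W0 h i]
    have h2 : (√(dH (F i) 0))⁻¹ ≤ (√c)⁻¹ := inv_anti₀ hsc (Real.sqrt_le_sqrt h1)
    have h3 : 1 ≤ Real.exp ((√c)⁻¹ * l i) := Real.one_le_exp (by have := hl0 i; positivity)
    calc (√(dH (F i) 0))⁻¹ ≤ (√c)⁻¹ * 1 := by rw [mul_one]; exact h2
      _ ≤ (√c)⁻¹ * Real.exp ((√c)⁻¹ * l i) := mul_le_mul_of_nonneg_left h3 (by positivity)

theorem Disp_bij (h : Disp l F) (i : ι) : Function.Bijective (dW (F i)) := by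
  have hd : ∀ y, HasDerivAt (dW (F i)) (dW1 (F i) y) y := fun y => (Disp_W h i y).2.1
  have hcont : Continuous (dW (F i)) := continuous_iff_continuousAt.2 fun y => (hd y).continuousAt
  have hmono : StrictMono (dW (F i)) := strictMono_of_deriv_pos fun y => by
    rw [(hd y).deriv]
    exact (Disp_W h i y).2.2
  obtain ⟨C, hC⟩ := h.grow
  have hl := h.pos i
  have key : ∀ y, |y| - (C + l i) ≤ |dW (F i) y| := by
    intro y
    have h1 := hC i y
    have h2 : √(F i y) ≤ l i + |dW (F i) y| := by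
      rw [(Disp_W h i y).1]
      apply Real.sqrt_le_iff.2
      refine ⟨by positivity, ?_⟩
      have h3 : 0 ≤ l i * |dW (F i) y| := by positivity
      have h4 : dW (F i) y ^ 2 = |dW (F i) y| ^ 2 := (sq_abs _).symm
      rw [h4]
      nlinarith
    linarith
  refine ⟨hmono.injective, hcont.surjective ?_ ?_⟩
  · refine tendsto_atTop_mono' atTop (f₁ := fun y => y - (C + l i)) ?_
      (tendsto_atTop_add_const_right _ _ tendsto_id)
    filter_upwards [eventually_ge_atTop 0] with y hy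
    have h1 := key y
    have h2 : 0 ≤ dW (F i) y := by
      rw [dW]; positivity
    rwa [abs_of_nonneg hy, abs_of_nonneg h2] at h1
  · refine tendsto_atBot_mono' atBot (f₁ := fun y => y + (C + l i)) ?_
      (tendsto_atBot_add_const_right _ _ tendsto_id)
    filter_upwards [eventually_le_atBot 0] with y hy
    have h1 := key y
    have h2 : dW (F i) y ≤ 0 := by
      rw [dW]; exact mul_nonpos_of_nonpos_of_nonneg hy (Real.sqrt_nonneg _)
    rw [abs_of_nonpos hy, abs_of_nonpos h2] at h1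
    linarith

end BR
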