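import Pool.Agent.LibBR73.AN_Defs
import Pool.Agent.LibBR73.AN4_Defs

/-! Index types for the families of the annulus (architect helper73). -/

open MeasureTheory Set Filter Topology
open scoped ContDiff

namespace BR

open BGS

variable {Γ : Type} [Group Γ] [MulAction Γ Pl] {D : Set Pl}

/-- A deck transformation `δ` with `δ⁻¹ • z ∈ D`. -/
noncomputable def shf (hX : Surface Γ D) (z : Pl) : Γ := ((hX.orbit z).choose)⁻¹

theorem shf_mem (hX : Surface Γ D) (z : Pl) : (shf hX z)⁻¹ • z ∈ D := by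
  unfold shf
  rw [inv_inv]
  exact (hX.orbit z).choose_spec.1

theorem shf_mem' (hX : Surface Γ D) (z : Pl) : (shf hX z)⁻¹ • z ∈ closure D :=
  subset_closure (shf_mem hX z)

/-- Unit tangent vectors at the points of `closure D`. -/
def U1 (D : Set Pl) : Type := {q : Pl × Pl // q.1 ∈ closure D ∧ eu q.2 = 1}

/-- Axes with a base point in `closure D`. -/
def AxI (Γ : Type) [Group Γ] [MulAction Γ Pl] (D : Set Pl) (m : Pl → Co) : Type :=
  {q : (Γ × (Pl × Pl)) × ℝ // Axis m q.1.1 q.1.2.1 q.1.2.2 q.2 ∧ q.1.2.1 ∈ closure D}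

end BR
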